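import Mathlib

set_option autoImplicit false
set_option linter.unusedSectionVars false

/-!
# A family of centre-by-metabelian alternative algebras in characteristic three
-/

namespace Pool.Agent.R635.AltThree

noncomputable section

open CliffordAlgebra (involute reverse)

universe u

section exterior

variable {K : Type u} [Field K] {N : Type u} [AddCommGroup N] [Module K N]

/-- the image of a vector in the exterior algebra -/
abbrev e (v : N) : ExteriorAlgebra K N := ExteriorAlgebra.ι K v

/-- grade involution -/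
abbrev al (P : ExteriorAlgebra K N) : ExteriorAlgebra K N := involute P

/-- reversal -/
abbrev rv (P : ExteriorAlgebra K N) : ExteriorAlgebra K N := reverse P

theorem e_swap (v w : N) : (e v : ExteriorAlgebra K N) * e w = -(e w * e v) :=
  eq_neg_of_add_eq_zero_left (ExteriorAlgebra.ι_add_mul_swap v w)

theorem e_sq (v : N) : (e v : ExteriorAlgebra K N) * e v = 0 := ExteriorAlgebra.ι_sq_zero v

theorem al_e (v : N) : al (e v : ExteriorAlgebra K N) = -e v := CliffordAlgebra.involute_ι v

theorem rv_e (v : N) : rv (e v : ExteriorAlgebra K N) = e v := CliffordAlgebra.reverse_ι v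

theorem al_mul (P Q : ExteriorAlgebra K N) : al (P * Q) = al P * al Q := map_mul _ _ _

theorem al_al (P : ExteriorAlgebra K N) : al (al P) = P := CliffordAlgebra.involute_involute P

theorem rv_mul (P Q : ExteriorAlgebra K N) : rv (P * Q) = rv Q * rv P :=
  CliffordAlgebra.reverse.map_mul P Q

theorem rv_rv (P : ExteriorAlgebra K N) : rv (rv P) = P := CliffordAlgebra.reverse_reverse P

theorem rv_al (P : ExteriorAlgebra K N) : rv (al P) = al (rv P) :=
  CliffordAlgebra.reverse_involute P

theorem e_mul (v : N) (P : ExteriorAlgebra K N) : e v * P = al P * e v := by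
  induction P using ExteriorAlgebra.induction with
  | algebraMap r =>
    have : al (algebraMap K (ExteriorAlgebra K N) r) = algebraMap K _ r := AlgHom.commutes _ r
    rw [this]; exact (Algebra.commutes r _).symm
  | ι m =>
    change e v * e m = al (e m) * e v
    rw [al_e, neg_mul]; exact e_swap v m
  | mul a b ha hb => rw [al_mul, ← mul_assoc, ha, mul_assoc, hb, mul_assoc]
  | add a b ha hb =>
    have : al (a + b) = al a + al b := map_add _ _ _
    rw [this, mul_add, add_mul, ha, hb]

theorem mul_e (v : N) (P : ExteriorAlgebra K N) : P * e v = e v * al P := by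
  rw [e_mul, al_al]

theorem e_mid (v : N) (P : ExteriorAlgebra K N) : e v * P * e v = 0 := by
  rw [e_mul, mul_assoc, e_sq, mul_zero]

theorem e_mid_swap (v w : N) (P : ExteriorAlgebra K N) :
    e v * P * e w = -(e w * P * e v) := by
  rw [e_mul, e_mul, mul_assoc, mul_assoc, e_swap v w, mul_neg]

end exterior

section form

variable {K : Type u} [Field K] {N : Type u} [AddCommGroup N] [Module K N]
  (μ : ExteriorAlgebra K N →ₗ[K] K)

/-- the form `B(P,Q) = μ(rev(P) Q)` -/
def B (P Q : ExteriorAlgebra K N) : K := μ (rv P * Q)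

/-- the form `C(P,Q) = μ(α(rev(P)) Q)` -/
def C (P Q : ExteriorAlgebra K N) : K := μ (al (rv P) * Q)

/-- the conditions on the functional -/
structure Good : Prop where
  al : ∀ P, μ (al P) = μ P
  rv : ∀ P, μ (rv P) = - μ P
  three : (3 : K) = 0

variable {μ} (h : Good μ)
include h

theorem mu_comm (v : N) (P : ExteriorAlgebra K N) : μ (e v * P) = - μ (P * e v) := by
  rw [e_mul, ← h.al, al_mul, al_al, al_e, mul_neg, map_neg]

theorem B_skew (P Q : ExteriorAlgebra K N) : B μ Q P = - B μ P Q := by
  unfold B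
  rw [← h.rv, rv_mul, rv_rv]

theorem B_right (v : N) (P Q : ExteriorAlgebra K N) : B μ (P * e v) Q = - B μ P (Q * e v) := by
  unfold B
  rw [rv_mul, rv_e, mul_assoc, mu_comm h, mul_assoc]

omit h in
theorem B_left (v : N) (P Q : ExteriorAlgebra K N) : B μ (e v * P) Q = B μ P (e v * Q) := by
  unfold B
  rw [rv_mul, rv_e, mul_assoc]

omit h in
theorem C_eq (P Q : ExteriorAlgebra K N) : C μ P Q = B μ (al P) Q := by
  unfold B C
  rw [rv_al]

theorem C_eq' (P Q : ExteriorAlgebra K N) : C μ P Q = B μ P (al Q) := by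
  unfold B C
  rw [← h.al, al_mul, al_al]

theorem three_eq : (3 : K) = 0 := h.three

theorem zero_of_neg (x : K) (hx : x = -x) : x = 0 := by
  have h3 := h.three
  have : x + x = 0 := by linear_combination hx
  linear_combination x * h3 - this

end form

/-! ### the algebra -/

section algebra

variable {K : Type u} [Field K] {N : Type u} [AddCommGroup N] [Module K N]

/-- The algebra: quadruples `(v, P, Q, t)` with `v` in the subspace `W`, `P, Q` in the exterior
algebra of `N` and `t` in `K`. -/
def Alg (W : Submodule K N) (_μ : ExteriorAlgebra K N →ₗ[K] K) : Type u :=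
  W × ExteriorAlgebra K N × ExteriorAlgebra K N × K

namespace Alg

variable {W : Submodule K N} {μ : ExteriorAlgebra K N →ₗ[K] K}

instance : AddCommGroup (Alg W μ) :=
  inferInstanceAs (AddCommGroup (W × ExteriorAlgebra K N × ExteriorAlgebra K N × K))

instance : Module K (Alg W μ) :=
  inferInstanceAs (Module K (W × ExteriorAlgebra K N × ExteriorAlgebra K N × K))

/-- constructor -/
def mk (v : W) (P Q : ExteriorAlgebra K N) (t : K) : Alg W μ := (v, P, Q, t)

/-- vector part -/
def v (a : Alg W μ) : N := ((a.1 : W) : N)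
/-- vector part in `W` -/
def w (a : Alg W μ) : W := a.1
/-- first exterior part -/
def P (a : Alg W μ) : ExteriorAlgebra K N := a.2.1
/-- second exterior part -/
def Q (a : Alg W μ) : ExteriorAlgebra K N := a.2.2.1
/-- scalar part -/
def t (a : Alg W μ) : K := a.2.2.2

theorem ext' {a b : Alg W μ} (h1 : a.v = b.v) (h2 : a.P = b.P) (h3 : a.Q = b.Q)
    (h4 : a.t = b.t) : a = b :=
  Prod.ext (Subtype.ext h1) (Prod.ext h2 (Prod.ext h3 h4))

instance : Mul (Alg W μ) :=
  ⟨fun a b => mk 0 (e a.v * e b.v + a.P * e b.v + b.P * e a.v)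
    (a.Q * e b.v + e a.v * b.P + b.Q * e a.v)
    (- μ (e a.v * b.P) + μ (e a.v * b.Q) + C μ a.P b.P + B μ a.P b.Q - B μ a.Q b.P)⟩

@[simp] theorem v_mul (a b : Alg W μ) : (a * b).v = 0 := rfl
@[simp] theorem P_mul (a b : Alg W μ) :
    (a * b).P = e a.v * e b.v + a.P * e b.v + b.P * e a.v := rfl
@[simp] theorem Q_mul (a b : Alg W μ) :
    (a * b).Q = a.Q * e b.v + e a.v * b.P + b.Q * e a.v := rfl
@[simp] theorem t_mul (a b : Alg W μ) :
    (a * b).t = - μ (e a.v * b.P) + μ (e a.v * b.Q) + C μ a.P b.P + B μ a.P b.Q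
      - B μ a.Q b.P := rfl
@[simp] theorem v_add (a b : Alg W μ) : (a + b).v = a.v + b.v := rfl
@[simp] theorem P_add (a b : Alg W μ) : (a + b).P = a.P + b.P := rfl
@[simp] theorem Q_add (a b : Alg W μ) : (a + b).Q = a.Q + b.Q := rfl
@[simp] theorem t_add (a b : Alg W μ) : (a + b).t = a.t + b.t := rfl
@[simp] theorem v_sub (a b : Alg W μ) : (a - b).v = a.v - b.v := rfl
@[simp] theorem P_sub (a b : Alg W μ) : (a - b).P = a.P - b.P := rfl
@[simp] theorem Q_sub (a b : Alg W μ) : (a - b).Q = a.Q - b.Q := rfl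
@[simp] theorem t_sub (a b : Alg W μ) : (a - b).t = a.t - b.t := rfl
@[simp] theorem v_zero : (0 : Alg W μ).v = 0 := rfl
@[simp] theorem P_zero : (0 : Alg W μ).P = 0 := rfl
@[simp] theorem Q_zero : (0 : Alg W μ).Q = 0 := rfl
@[simp] theorem t_zero : (0 : Alg W μ).t = 0 := rfl
@[simp] theorem v_smul (r : K) (a : Alg W μ) : (r • a).v = r • a.v := rfl
@[simp] theorem P_smul (r : K) (a : Alg W μ) : (r • a).P = r • a.P := rfl
@[simp] theorem Q_smul (r : K) (a : Alg W μ) : (r • a).Q = r • a.Q := rfl
@[simp] theorem t_smul (r : K) (a : Alg W μ) : (r • a).t = r * a.t := rfl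
@[simp] theorem v_mk (v : W) (P Q : ExteriorAlgebra K N) (t : K) :
    (mk v P Q t : Alg W μ).v = v := rfl
@[simp] theorem P_mk (v : W) (P Q : ExteriorAlgebra K N) (t : K) :
    (mk v P Q t : Alg W μ).P = P := rfl
@[simp] theorem Q_mk (v : W) (P Q : ExteriorAlgebra K N) (t : K) :
    (mk v P Q t : Alg W μ).Q = Q := rfl
@[simp] theorem t_mk (v : W) (P Q : ExteriorAlgebra K N) (t : K) :
    (mk v P Q t : Alg W μ).t = t := rfl

end Alg

theorem B_add_left (μ : ExteriorAlgebra K N →ₗ[K] K) (P P' Q : ExteriorAlgebra K N) :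
    B μ (P + P') Q = B μ P Q + B μ P' Q := by
  unfold B rv; rw [map_add, add_mul, map_add]

theorem B_add_right (μ : ExteriorAlgebra K N →ₗ[K] K) (P Q Q' : ExteriorAlgebra K N) :
    B μ P (Q + Q') = B μ P Q + B μ P Q' := by
  unfold B; rw [mul_add, map_add]

theorem B_smul_left (μ : ExteriorAlgebra K N →ₗ[K] K) (r : K) (P Q : ExteriorAlgebra K N) :
    B μ (r • P) Q = r * B μ P Q := by
  unfold B rv; rw [map_smul, smul_mul_assoc, map_smul, smul_eq_mul]

theorem B_smul_right (μ : ExteriorAlgebra K N →ₗ[K] K) (r : K) (P Q : ExteriorAlgebra K N) :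
    B μ P (r • Q) = r * B μ P Q := by
  unfold B; rw [mul_smul_comm, map_smul, smul_eq_mul]

theorem B_neg_left (μ : ExteriorAlgebra K N →ₗ[K] K) (P Q : ExteriorAlgebra K N) :
    B μ (-P) Q = - B μ P Q := by
  unfold B rv; rw [map_neg, neg_mul, map_neg]

theorem B_neg_right (μ : ExteriorAlgebra K N →ₗ[K] K) (P Q : ExteriorAlgebra K N) :
    B μ P (-Q) = - B μ P Q := by
  unfold B; rw [mul_neg, map_neg]

theorem B_zero_left (μ : ExteriorAlgebra K N →ₗ[K] K) (Q : ExteriorAlgebra K N) :
    B μ 0 Q = 0 := by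
  unfold B rv; rw [map_zero, zero_mul, map_zero]

theorem B_zero_right (μ : ExteriorAlgebra K N →ₗ[K] K) (P : ExteriorAlgebra K N) :
    B μ P 0 = 0 := by
  unfold B; rw [mul_zero, map_zero]

theorem C_add_left (μ : ExteriorAlgebra K N →ₗ[K] K) (P P' Q : ExteriorAlgebra K N) :
    C μ (P + P') Q = C μ P Q + C μ P' Q := by
  unfold C rv al; rw [map_add, map_add, add_mul, map_add]

theorem C_add_right (μ : ExteriorAlgebra K N →ₗ[K] K) (P Q Q' : ExteriorAlgebra K N) :
    C μ P (Q + Q') = C μ P Q + C μ P Q' := by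
  unfold C; rw [mul_add, map_add]

theorem C_smul_left (μ : ExteriorAlgebra K N →ₗ[K] K) (r : K) (P Q : ExteriorAlgebra K N) :
    C μ (r • P) Q = r * C μ P Q := by
  unfold C rv al; rw [map_smul, map_smul, smul_mul_assoc, map_smul, smul_eq_mul]

theorem C_smul_right (μ : ExteriorAlgebra K N →ₗ[K] K) (r : K) (P Q : ExteriorAlgebra K N) :
    C μ P (r • Q) = r * C μ P Q := by
  unfold C; rw [mul_smul_comm, map_smul, smul_eq_mul]

theorem C_neg_left (μ : ExteriorAlgebra K N →ₗ[K] K) (P Q : ExteriorAlgebra K N) :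
    C μ (-P) Q = - C μ P Q := by
  unfold C rv al; rw [map_neg, map_neg, neg_mul, map_neg]

theorem C_neg_right (μ : ExteriorAlgebra K N →ₗ[K] K) (P Q : ExteriorAlgebra K N) :
    C μ P (-Q) = - C μ P Q := by
  unfold C; rw [mul_neg, map_neg]

theorem C_zero_left (μ : ExteriorAlgebra K N →ₗ[K] K) (Q : ExteriorAlgebra K N) :
    C μ 0 Q = 0 := by
  unfold C rv al; rw [map_zero, map_zero, zero_mul, map_zero]

theorem C_zero_right (μ : ExteriorAlgebra K N →ₗ[K] K) (P : ExteriorAlgebra K N) :
    C μ P 0 = 0 := by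
  unfold C; rw [mul_zero, map_zero]

theorem e_add (v w : N) : (e (v + w) : ExteriorAlgebra K N) = e v + e w := map_add _ _ _
theorem e_smul (r : K) (v : N) : (e (r • v) : ExteriorAlgebra K N) = r • e v := map_smul _ _ _
theorem e_zero : (e (0 : N) : ExteriorAlgebra K N) = 0 := map_zero _

namespace Alg

variable {W : Submodule K N} {μ : ExteriorAlgebra K N →ₗ[K] K}

instance : NonUnitalNonAssocRing (Alg W μ) where
  __ := (inferInstance : AddCommGroup (Alg W μ))
  mul := (· * ·)
  left_distrib a b c := by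
    apply ext'
    · simp
    · simp only [P_mul, P_add, v_add, e_add, mul_add, add_mul]; abel
    · simp only [Q_mul, Q_add, P_add, v_add, e_add, mul_add, add_mul]; abel
    · simp only [t_mul, t_add, Q_add, P_add, v_add, e_add, mul_add, add_mul, map_add, B_add_left,
        B_add_right, C_add_right]; ring
  right_distrib a b c := by
    apply ext'
    · simp
    · simp only [P_mul, P_add, v_add, e_add, mul_add, add_mul]; abel
    · simp only [Q_mul, Q_add, P_add, v_add, e_add, mul_add, add_mul]; abel
    · simp only [t_mul, t_add, Q_add, P_add, v_add, e_add, mul_add, add_mul, map_add, B_add_left,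
        B_add_right, C_add_left]; ring
  zero_mul a := by
    apply ext'
    · simp
    · simp [e_zero]
    · simp [e_zero]
    · simp [e_zero, B_zero_left, B_zero_right, C_zero_left]
  mul_zero a := by
    apply ext'
    · simp
    · simp [e_zero]
    · simp [e_zero]
    · simp [e_zero, B_zero_left, B_zero_right, C_zero_right]

instance : IsScalarTower K (Alg W μ) (Alg W μ) :=
  ⟨fun r a b => by
    change (r • a) * b = r • (a * b)
    apply ext'
    · simp
    · simp [e_smul, smul_add]
    · simp [e_smul, smul_add]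
    · simp [e_smul, B_smul_left, C_smul_left]; ring⟩

instance : SMulCommClass K (Alg W μ) (Alg W μ) :=
  ⟨fun r a b => by
    change r • (a * b) = a * (r • b)
    apply ext'
    · simp
    · simp [e_smul, smul_add]
    · simp [e_smul, smul_add]
    · simp [e_smul, B_smul_right, C_smul_right]; ring⟩

end Alg

end algebra

end

end Pool.Agent.R635.AltThree
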