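import Pool.Agent.R635.AltThreeMain

set_option autoImplicit false
set_option linter.unusedSectionVars false

namespace Pool.Agent.R635.AltThree

noncomputable section

universe u

open FreeNonUnitalNonAssocAlgebra

/-- The algebra `A` satisfies all identities in `T`. -/
def Satisfies (K : Type u) [Field K] (A : Type u) [NonUnitalNonAssocRing A] [Module K A]
    [IsScalarTower K A A] [SMulCommClass K A A]
    (T : Set (FreeNonUnitalNonAssocAlgebra K ℕ)) : Prop :=
  ∀ f ∈ T, ∀ a : ℕ → A, lift K a f = 0

/-- The identities of centre-by-metabelian alternative algebras. -/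
def base (K : Type u) [Field K] : Set (FreeNonUnitalNonAssocAlgebra K ℕ) :=
  {of K 0 * of K 0 * of K 1 - of K 0 * (of K 0 * of K 1),
   of K 1 * of K 0 * of K 0 - of K 1 * (of K 0 * of K 0),
   ((of K 0 * of K 1) * (of K 2 * of K 3)) * of K 4,
   of K 4 * ((of K 0 * of K 1) * (of K 2 * of K 3))}

/-- The identities `law (4j+1)`, of degrees `4j+6`, for `j` in `J`. -/
def laws (K : Type u) [Field K] (J : Set ℕ) : Set (FreeNonUnitalNonAssocAlgebra K ℕ) :=
  {f | ∃ j ∈ J, f = law K (4 * j + 1)}

section consequences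

variable {K : Type u} [Field K] {A : Type u} [NonUnitalNonAssocRing A] [Module K A]
  [IsScalarTower K A A] [SMulCommClass K A A] (h : Satisfies K A (base K))
include h

theorem left_alt_of (x y : A) : (x * x) * y = x * (x * y) := by
  have h1 := h _ (Or.inl rfl) (fun i => if i = 0 then x else y)
  rw [map_sub, sub_eq_zero] at h1
  simpa [map_mul, lift_of_apply] using h1

theorem right_alt_of (x y : A) : (y * x) * x = y * (x * x) := by
  have h1 := h _ (Or.inr (Or.inl rfl)) (fun i => if i = 0 then x else y)
  rw [map_sub, sub_eq_zero] at h1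
  simpa [map_mul, lift_of_apply] using h1

theorem central_right (a b c d z : A) : ((a * b) * (c * d)) * z = 0 := by
  have h1 := h _ (Or.inr (Or.inr (Or.inl rfl))) (fun i => if i = 0 then a else if i = 1 then b else
    if i = 2 then c else if i = 3 then d else z)
  simpa [map_mul, lift_of_apply] using h1

theorem central_left (a b c d z : A) : z * ((a * b) * (c * d)) = 0 := by
  have h1 := h _ (Or.inr (Or.inr (Or.inr rfl))) (fun i => if i = 0 then a else if i = 1 then b else
    if i = 2 then c else if i = 3 then d else z)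
  simpa [map_mul, lift_of_apply] using h1

end consequences

/-- The derived series of an algebra: `A` itself, then the span of all products of two elements of
the previous term. -/
def derivedPower (K : Type u) [Field K] (A : Type u) [NonUnitalNonAssocRing A] [Module K A] :
    ℕ → Submodule K A
  | 0 => ⊤
  | k + 1 => Submodule.span K
      {z : A | ∃ x ∈ derivedPower K A k, ∃ y ∈ derivedPower K A k, z = x * y}

theorem solvable_of {K : Type u} [Field K] {A : Type u} [NonUnitalNonAssocRing A] [Module K A]
    [IsScalarTower K A A] [SMulCommClass K A A] (h : Satisfies K A (base K)) :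
    derivedPower K A 3 = ⊥ := by
  have step1 : ∀ x ∈ derivedPower K A 1, ∀ y ∈ derivedPower K A 1, ∀ e : A, (x * y) * e = 0 := by
    intro x hx y hy e
    induction hx using Submodule.span_induction with
    | mem x hx =>
      obtain ⟨a, _, b, _, rfl⟩ := hx
      induction hy using Submodule.span_induction with
      | mem y hy =>
        obtain ⟨c, _, d, _, rfl⟩ := hy
        exact central_right h a b c d e
      | zero => rw [mul_zero, zero_mul]
      | add y z _ _ h1 h2 => rw [mul_add, add_mul, h1, h2, add_zero]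
      | smul t y _ h1 => rw [mul_smul_comm, smul_mul_assoc, h1, smul_zero]
    | zero => rw [zero_mul, zero_mul]
    | add y z _ _ h1 h2 => rw [add_mul, add_mul, h1, h2, add_zero]
    | smul t y _ h1 => rw [smul_mul_assoc, smul_mul_assoc, h1, smul_zero]
  have step2 : ∀ x ∈ derivedPower K A 2, ∀ e : A, x * e = 0 := by
    intro x hx e
    induction hx using Submodule.span_induction with
    | mem x hx =>
      obtain ⟨a, ha, b, hb, rfl⟩ := hx
      exact step1 a ha b hb e
    | zero => rw [zero_mul]
    | add y z _ _ h1 h2 => rw [add_mul, h1, h2, add_zero]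
    | smul t y _ h1 => rw [smul_mul_assoc, h1, smul_zero]
  change Submodule.span K _ = ⊥
  rw [Submodule.span_eq_bot]
  rintro z ⟨x, hx, y, _, rfl⟩
  exact step2 x hx y

section test

variable {K : Type u} [Field K] {N : Type u} [AddCommGroup N] [Module K N]
  {μ : ExteriorAlgebra K N →ₗ[K] K} {W : Submodule K N}

theorem Alg.metab (a b c d : Alg W μ) : ((a * b) * (c * d)).v = 0 ∧ ((a * b) * (c * d)).P = 0 ∧
    ((a * b) * (c * d)).Q = 0 := by
  refine ⟨by simp, ?_, ?_⟩
  · rw [P_mul, v_mul, v_mul, e_zero]; simp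
  · rw [Q_mul, v_mul, v_mul, e_zero]; simp

theorem Alg.central_r (a b c d z : Alg W μ) : ((a * b) * (c * d)) * z = 0 := by
  obtain ⟨h1, h2, h3⟩ := Alg.metab a b c d
  apply ext'
  · simp
  · rw [P_mul, h1, h2, e_zero]; simp
  · rw [Q_mul, h1, h3, e_zero]; simp
  · rw [t_mul, h1, h2, h3, e_zero, C_zero_left, B_zero_left, B_zero_left]; simp

theorem Alg.central_l (a b c d z : Alg W μ) : z * ((a * b) * (c * d)) = 0 := by
  obtain ⟨h1, h2, h3⟩ := Alg.metab a b c d
  apply ext'
  · simp
  · rw [P_mul, h1, h2, e_zero]; simp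
  · rw [Q_mul, h1, h2, h3, e_zero]; simp
  · rw [t_mul, h2, h3, C_zero_right, B_zero_right, B_zero_right]; simp

theorem alg_base (h : Good μ) : Satisfies K (Alg W μ) (base K) := by
  rintro f (rfl | rfl | rfl | rfl) a
  · rw [map_sub, sub_eq_zero]
    simp only [map_mul]
    exact Alg.left_alt h _ _
  · rw [map_sub, sub_eq_zero]
    simp only [map_mul]
    exact Alg.right_alt h _ _
  · simp only [map_mul]
    exact Alg.central_r _ _ _ _ _
  · simp only [map_mul]
    exact Alg.central_l _ _ _ _ _

end test

section main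

variable (K : Type u) [Field K] (h3 : (3 : K) = 0)
include h3

theorem alg_law_of_ne {i j : ℕ} (hij : i ≠ j) (W : Submodule K (Fin (4 * j + 6) → K))
    (a : ℕ → Alg W (mu K (4 * j + 6))) : lift K a (law K (4 * i + 1)) = 0 := by
  rw [eval_law' (good K h3 j), mu_of_ne K _ _ (by omega)]
  rfl

theorem alg_law_of_lt (j : ℕ) (W : Submodule K (Fin (4 * j + 6) → K))
    (hW : Module.finrank K W < 4 * j + 6) (a : ℕ → Alg W (mu K (4 * j + 6))) :
    lift K a (law K (4 * j + 1)) = 0 := by
  rw [eval_law' (good K h3 j), AlternatingMap.map_linearDependent, map_zero]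
  · rfl
  · intro hli
    have h2 : LinearIndependent K (fun i : Fin (4 * j + 1 + 5) => (a i).w) := by
      apply LinearIndependent.of_comp W.subtype
      exact hli
    have h4 := h2.fintype_card_le_finrank
    rw [Fintype.card_fin] at h4
    omega

theorem alg_law_ne (j : ℕ) : ∃ a : ℕ → Alg (⊤ : Submodule K (Fin (4 * j + 6) → K))
    (mu K (4 * j + 6)), lift K a (law K (4 * j + 1)) ≠ 0 := by
  refine ⟨fun i => if hi : i < 4 * j + 6 then Alg.mk ⟨Pi.single ⟨i, hi⟩ 1, trivial⟩ 0 0 0 else 0, ?_⟩
  rw [eval_law' (good K h3 j)]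
  intro h
  have h1 := congrArg Alg.t h
  rw [Alg.t_mk, Alg.t_zero] at h1
  have h2 : ExteriorAlgebra.ιMulti K (4 * j + 1 + 5) (fun i : Fin (4 * j + 1 + 5) =>
      ((if hi : (i : ℕ) < 4 * j + 6 then
        (Alg.mk ⟨Pi.single ⟨i, hi⟩ 1, trivial⟩ 0 0 0 : Alg (⊤ : Submodule K (Fin (4 * j + 6) → K))
          (mu K (4 * j + 6))) else 0)).v) =
      ExteriorAlgebra.ιMulti K (4 * j + 6) (fun i : Fin (4 * j + 6) =>
        (Pi.single i (1 : K) : Fin (4 * j + 6) → K)) := by
    change ExteriorAlgebra.ιMulti K (4 * j + 6) (fun i : Fin (4 * j + 6) =>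
      ((if hi : (i : ℕ) < 4 * j + 6 then
        (Alg.mk ⟨Pi.single ⟨i, hi⟩ 1, trivial⟩ 0 0 0 : Alg (⊤ : Submodule K (Fin (4 * j + 6) → K))
          (mu K (4 * j + 6))) else 0)).v) = _
    congr 1
    funext i
    rw [dif_pos i.2]
    rfl
  rw [h2, mu_self] at h1
  have h4 : (Matrix.of fun i : Fin (4 * j + 6) => (Pi.single i (1 : K) : Fin (4 * j + 6) → K)) =
      1 := by
    ext r s
    rw [Matrix.of_apply, Matrix.one_apply, Pi.single_apply]
    simp [eq_comm]
  rw [h4, Matrix.det_one] at h1
  exact one_ne_zero h1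

/-- the inclusion `Alg W μ → Alg ⊤ μ` -/
def incl (n : ℕ) (W : Submodule K (Fin n → K)) :
    Alg W (mu K n) →ₙₐ[K] Alg (⊤ : Submodule K (Fin n → K)) (mu K n) where
  toFun a := Alg.mk ⟨a.v, trivial⟩ a.P a.Q a.t
  map_smul' _ _ := rfl
  map_zero' := rfl
  map_add' _ _ := rfl
  map_mul' _ _ := rfl

/-- Nothing weaker than the full system of laws holds: an algebra in the variety of the base and
the laws with index in `J`, but not satisfying the law of index `j`, such that every identity in
fewer than `4j+6` variables satisfied by the smaller variety holds in it. -/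
theorem few_variables (J : Set ℕ) (j : ℕ) (f : FreeNonUnitalNonAssocAlgebra K ℕ)
    (k : ℕ) (hk : k < 4 * j + 6)
    (hvar : ∀ (A : Type u) [NonUnitalNonAssocRing A] [Module K A] [IsScalarTower K A A]
      [SMulCommClass K A A] (a b : ℕ → A), (∀ i < k, a i = b i) → lift K a f = lift K b f)
    (hf : ∀ (A : Type u) [NonUnitalNonAssocRing A] [Module K A] [IsScalarTower K A A]
      [SMulCommClass K A A], Satisfies K A (base K ∪ laws K J) → ∀ a : ℕ → A, lift K a f = 0)
    (a : ℕ → Alg (⊤ : Submodule K (Fin (4 * j + 6) → K)) (mu K (4 * j + 6))) :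
    lift K a f = 0 := by
  classical
  set W : Submodule K (Fin (4 * j + 6) → K) :=
    Submodule.span K ((Finset.range k).image fun i => (a i).v : Finset (Fin (4 * j + 6) → K)) with hW
  have hfin : Module.finrank K W < 4 * j + 6 := by
    refine lt_of_le_of_lt (finrank_span_finset_le_card _) (lt_of_le_of_lt Finset.card_image_le ?_)
    rw [Finset.card_range]; exact hk
  have hmem : ∀ i < k, (a i).v ∈ W := by
    intro i hi
    apply Submodule.subset_span
    rw [Finset.mem_coe, Finset.mem_image]
    exact ⟨i, Finset.mem_range.2 hi, rfl⟩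
  let b : ℕ → Alg W (mu K (4 * j + 6)) := fun i =>
    if hi : i < k then Alg.mk ⟨(a i).v, hmem i hi⟩ (a i).P (a i).Q (a i).t else 0
  have hsat : Satisfies K (Alg W (mu K (4 * j + 6))) (base K ∪ laws K J) := by
    rintro g (hg | ⟨i, _, rfl⟩) c
    · exact alg_base (good K h3 j) g hg c
    · by_cases hij : i = j
      · subst hij; exact alg_law_of_lt K h3 i W hfin c
      · exact alg_law_of_ne K h3 hij W c
  have h1 := hf _ hsat b
  have h2 : lift K a f = lift K (fun i => incl K _ W (b i)) f := by
    apply hvar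
    intro i hi
    change a i = incl K _ W (if hi : i < k then _ else 0)
    rw [dif_pos hi]
    rfl
  have h4 : lift K (fun i => incl K _ W (b i)) = (incl K _ W).comp (lift K b) := by
    apply FreeNonUnitalNonAssocAlgebra.hom_ext
    intro x
    rw [lift_of_apply, NonUnitalAlgHom.comp_apply, lift_of_apply]
  rw [h2, h4, NonUnitalAlgHom.comp_apply, h1, map_zero]

/-- No finite set of identities defines the variety of all the laws with index in an infinite set. -/
theorem not_finite (J : Set ℕ) (hJ : J.Infinite) :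
    ¬ ∃ S : Set (FreeNonUnitalNonAssocAlgebra K ℕ), S.Finite ∧
      ∀ (A : Type u) [NonUnitalNonAssocRing A] [Module K A] [IsScalarTower K A A]
        [SMulCommClass K A A], Satisfies K A (base K ∪ laws K J) ↔ Satisfies K A S := by
  rintro ⟨S, hS, hSA⟩
  choose kk hkk using exists_bound K
  obtain ⟨k, hk⟩ : ∃ k, ∀ s ∈ S, kk s ≤ k := by
    obtain ⟨k, hk⟩ := (hS.image kk).bddAbove
    exact ⟨k, fun s hs => hk ⟨s, hs, rfl⟩⟩
  obtain ⟨j, hjJ, hj⟩ := hJ.exists_gt k
  have hS' : Satisfies K (Alg (⊤ : Submodule K (Fin (4 * j + 6) → K)) (mu K (4 * j + 6))) S := by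
    intro s hs a
    refine few_variables K h3 J j s (kk s) ?_ (hkk s) ?_ a
    · have := hk s hs; omega
    · intro A _ _ _ _ hA
      exact (hSA A).1 hA s hs
  have h5 := (hSA _).2 hS'
  obtain ⟨a, ha⟩ := alg_law_ne K h3 j
  exact ha (h5 _ (Or.inr ⟨j, hjJ, rfl⟩) a)

end main

end

end Pool.Agent.R635.AltThree
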