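import Pool.Agent.R635.AltThree

set_option autoImplicit false
set_option linter.unusedSectionVars false

namespace Pool.Agent.R635.AltThree

noncomputable section

universe u

variable {K : Type u} [Field K] {N : Type u} [AddCommGroup N] [Module K N]
  {μ : ExteriorAlgebra K N →ₗ[K] K}

section idents

variable (h : Good μ)
include h

theorem rel1 (v w : N) (P : ExteriorAlgebra K N) :
    B μ P (e v * e w) = μ (e v * P * e w) := by
  have h1 := h.rv (rv P * (e v * e w))
  rw [rv_mul, rv_rv, rv_mul, rv_e, rv_e, mul_assoc, mu_comm h, neg_inj] at h1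
  exact h1.symm

theorem rel3 (w : N) (P : ExteriorAlgebra K N) : B μ P (e w * P) = 0 := by
  apply zero_of_neg h
  rw [← B_left, ← B_skew h, B_left]

theorem rel4 (w : N) (P Q : ExteriorAlgebra K N) : B μ P (Q * e w) = B μ Q (P * e w) := by
  have h1 := B_right h w P Q
  have h2 := B_skew h (P * e w) Q
  rw [h2, h1, neg_neg]

theorem rel5 (v : N) (P S : ExteriorAlgebra K N) : C μ P (S * e v) = - B μ P (e v * S) := by
  rw [C_eq' h, al_mul, al_e, mul_neg, B_neg_right, e_mul]

theorem rel5' (v : N) (P S : ExteriorAlgebra K N) : C μ (P * e v) S = - B μ (e v * P) S := by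
  rw [C_eq, al_mul, al_e, mul_neg, B_neg_left, e_mul]

theorem C_skew (P Q : ExteriorAlgebra K N) : C μ Q P = - C μ P Q := by
  rw [C_eq, B_skew h, ← C_eq' h]

theorem mid (v w : N) (P : ExteriorAlgebra K N) :
    μ (e w * P * e v) = μ (e w * e v * P) := by
  have h1 := mu_comm h v (e w * P)
  rw [← mul_assoc, e_swap v w, neg_mul, map_neg, neg_inj] at h1
  exact h1.symm

end idents

namespace Alg

variable {W : Submodule K N}

theorem left_alt (h : Good μ) (a b : Alg W μ) : (a * a) * b = a * (a * b) := by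
  have h3 := h.three
  have two : ∀ x : ExteriorAlgebra K N, x + x = -x := by
    intro x
    have : (3 : K) • x = 0 := by rw [h3, zero_smul]
    have h4 : (3 : K) • x = x + x + x := by
      rw [show (3 : K) = 1 + 1 + 1 by norm_num, add_smul, add_smul, one_smul]
    rw [h4] at this
    exact eq_neg_of_add_eq_zero_left this
  have hP2 : (a * a).P = -(a.P * e a.v) := by
    rw [P_mul, e_sq, zero_add, two]
  have hQ2 : (a * a).Q = -(a.Q * e a.v) + e a.v * a.P := by
    rw [Q_mul, add_right_comm, two]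
  apply ext'
  · simp
  · rw [P_mul, hP2, v_mul, e_zero, zero_mul, mul_zero, zero_add, add_zero, P_mul a (a * b), v_mul,
      e_zero, mul_zero, mul_zero, zero_add, zero_add, P_mul, add_mul, add_mul, e_mid, mul_assoc b.P,
      e_sq, mul_zero, zero_add, add_zero, neg_mul, mul_assoc, mul_assoc, e_swap b.v a.v, mul_neg]
  · rw [Q_mul, hQ2, v_mul, e_zero, zero_mul, mul_zero, add_zero, add_zero, Q_mul a (a * b), v_mul,
      e_zero, mul_zero, zero_add, P_mul, Q_mul]
    simp only [add_mul, mul_add, neg_mul]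
    rw [← mul_assoc (e a.v) (e a.v), e_sq, zero_mul, ← mul_assoc (e a.v) b.P, e_mid,
      mul_assoc b.Q, e_sq, mul_zero, ← mul_assoc (e a.v) a.P, mul_assoc a.Q (e b.v),
      e_swap b.v a.v, mul_neg, mul_assoc a.Q]
    abel
  · rw [t_mul, hP2, hQ2, v_mul, e_zero, zero_mul, zero_mul, map_zero, neg_zero, zero_add, zero_add,
      t_mul a (a * b), P_mul, Q_mul]
    simp only [mul_add, map_add, B_add_left, B_add_right, C_add_right, C_neg_left,
      B_neg_left]
    have r1 := rel1 h a.v b.v a.P
    have r1C : C μ a.P (e a.v * e b.v) = B μ a.P (e a.v * e b.v) := by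
      rw [C_eq' h, al_mul, al_e, al_e, neg_mul_neg]
    have r2 := rel1 h a.v b.v a.Q
    have r3 : C μ a.P (a.P * e b.v) = 0 := by rw [rel5 h, rel3 h, neg_zero]
    have r4 := rel4 h b.v a.P a.Q
    have r5 := rel5 h a.v a.P b.P
    have r5' := rel5' h a.v a.P b.P
    have r6 := B_right h a.v a.P b.Q
    have r7 := B_right h a.v a.Q b.P
    have r8 := B_left (μ := μ) a.v a.P b.P
    have z1 : μ (e a.v * (e a.v * e b.v)) = 0 := by
      rw [← mul_assoc, e_sq, zero_mul, map_zero]
    have z2 : μ (e a.v * (b.P * e a.v)) = 0 := by rw [← mul_assoc, e_mid, map_zero]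
    have z3 : μ (e a.v * (e a.v * b.P)) = 0 := by
      rw [← mul_assoc, e_sq, zero_mul, map_zero]
    have z4 : μ (e a.v * (b.Q * e a.v)) = 0 := by rw [← mul_assoc, e_mid, map_zero]
    have z5 : μ (e a.v * (a.P * e b.v)) = μ (e a.v * a.P * e b.v) := by rw [mul_assoc]
    have z6 : μ (e a.v * (a.Q * e b.v)) = μ (e a.v * a.Q * e b.v) := by rw [mul_assoc]
    rw [z1, z2, z3, z4, z5, z6, r1C, r1, r2, r3, r4, r5, r5', r6, r7, r8]
    ring

theorem right_alt (h : Good μ) (a b : Alg W μ) : (b * a) * a = b * (a * a) := by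
  have h3 := h.three
  have two : ∀ x : ExteriorAlgebra K N, x + x = -x := by
    intro x
    have : (3 : K) • x = 0 := by rw [h3, zero_smul]
    have h4 : (3 : K) • x = x + x + x := by
      rw [show (3 : K) = 1 + 1 + 1 by norm_num, add_smul, add_smul, one_smul]
    rw [h4] at this
    exact eq_neg_of_add_eq_zero_left this
  have hP2 : (a * a).P = -(a.P * e a.v) := by
    rw [P_mul, e_sq, zero_add, two]
  have hQ2 : (a * a).Q = -(a.Q * e a.v) + e a.v * a.P := by
    rw [Q_mul, add_right_comm, two]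
  apply ext'
  · simp
  · rw [P_mul, v_mul, e_zero, zero_mul, mul_zero, zero_add, add_zero, P_mul b a, P_mul b (a * a),
      hP2, v_mul, e_zero, mul_zero, mul_zero, zero_add, zero_add]
    simp only [add_mul, neg_mul]
    rw [mul_assoc (e b.v), e_sq, mul_zero, mul_assoc b.P, e_sq, mul_zero, mul_assoc a.P,
      e_swap b.v a.v, mul_neg, mul_assoc]
    abel
  · rw [Q_mul, v_mul, e_zero, zero_mul, mul_zero, add_zero, add_zero, Q_mul b a, Q_mul b (a * a),
      hP2, hQ2, v_mul, e_zero, mul_zero, zero_add]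
    simp only [add_mul, neg_mul, mul_neg]
    rw [mul_assoc b.Q, e_sq, mul_zero, ← mul_assoc (e b.v) a.P, mul_assoc a.Q (e b.v),
      e_swap b.v a.v, mul_neg, mul_assoc a.Q, e_mid_swap a.v b.v]
    have := two (e b.v * a.P * e a.v)
    rw [eq_neg_iff_add_eq_zero] at this
    rw [← sub_eq_zero]
    refine Eq.trans ?_ this
    abel
  · rw [t_mul, v_mul, e_zero, zero_mul, zero_mul, map_zero, neg_zero, zero_add, zero_add,
      t_mul b (a * a), hP2, hQ2, P_mul, Q_mul]
    simp only [mul_add, mul_neg, map_add, map_neg, B_add_left, B_add_right, C_add_left, C_neg_right,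
      B_neg_right]
    have c1 : C μ (e b.v * e a.v) a.P = - μ (e b.v * a.P * e a.v) := by
      rw [C_eq, al_mul, al_e, al_e, neg_mul_neg, B_skew h, rel1 h]
    have c2 : B μ (e b.v * e a.v) a.Q = - μ (e b.v * a.Q * e a.v) := by
      rw [B_skew h, rel1 h]
    have c3 : C μ (a.P * e b.v) a.P = 0 := by rw [rel5' h, B_left, rel3 h, neg_zero]
    have c4 : B μ (e b.v * a.P) a.P = 0 := by rw [B_left, rel3 h]
    have c5 := B_right h b.v a.P a.Q
    have c6 := B_right h b.v a.Q a.P
    have c7 := rel4 h b.v a.P a.Q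
    have c8 : C μ (b.P * e a.v) a.P = - B μ b.P (e a.v * a.P) := by rw [rel5' h, B_left]
    have c9 := rel5 h a.v b.P a.P
    have c10 := B_right h a.v b.P a.Q
    have c11 := B_right h a.v b.Q a.P
    have m1 : μ (e b.v * (a.P * e a.v)) = μ (e b.v * a.P * e a.v) := by rw [mul_assoc]
    have m2 : μ (e b.v * (a.Q * e a.v)) = μ (e b.v * a.Q * e a.v) := by rw [mul_assoc]
    have m3 : μ (e b.v * (e a.v * a.P)) = μ (e b.v * a.P * e a.v) := by
      rw [mid h, mul_assoc]
    rw [c1, c2, c3, c4, c5, c6, c7, c8, c9, c10, c11, m1, m2, m3]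
    linear_combination (- μ (e b.v * a.P * e a.v) - B μ b.P (e a.v * a.P)) * h3

end Alg

end

end Pool.Agent.R635.AltThree
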