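import Mathlib

set_option autoImplicit false
set_option linter.unusedSectionVars false

/-!
# A three-dimensional algebra without a finite basis of identities (characteristic two)

Over an infinite field `K` of characteristic two we consider the commutative algebra with basis
`a, x, z` and nonzero products `a x = x a = x`, `x x = z`.
-/

namespace Pool.Agent.R635.ThreeDim

noncomputable section

open Finset

universe u

/-- The `K`-algebra `A` satisfies the polynomial identity `f`. -/
def IsIdentity (K : Type u) [Field K] (A : Type u) [NonUnitalNonAssocRing A] [Module K A]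
    [IsScalarTower K A A] [SMulCommClass K A A] (f : FreeNonUnitalNonAssocAlgebra K ℕ) : Prop :=
  ∀ v : ℕ → A, FreeNonUnitalNonAssocAlgebra.lift K v f = 0

/-- `f` follows from `S`: every algebra satisfying all members of `S` satisfies `f`. -/
def FollowsFrom (K : Type u) [Field K] (S : Set (FreeNonUnitalNonAssocAlgebra K ℕ))
    (f : FreeNonUnitalNonAssocAlgebra K ℕ) : Prop :=
  ∀ (A : Type u) [NonUnitalNonAssocRing A] [Module K A] [IsScalarTower K A A]
    [SMulCommClass K A A], (∀ s ∈ S, IsIdentity K A s) → IsIdentity K A f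

/-- `R` has a finite basis of identities. -/
def FinitelyBased (K : Type u) [Field K] (R : Type u) [NonUnitalNonAssocRing R] [Module K R]
    [IsScalarTower K R R] [SMulCommClass K R R] : Prop :=
  ∃ S : Set (FreeNonUnitalNonAssocAlgebra K ℕ), S.Finite ∧ (∀ s ∈ S, IsIdentity K R s) ∧
    ∀ f, IsIdentity K R f → FollowsFrom K S f

/-! ### The algebra -/

/-- The algebra, over an arbitrary commutative ring of coefficients: triples `(a, x, z)`. -/
def Q3 (C : Type u) : Type u := C × C × C

namespace Q3

variable {C : Type u} [CommRing C]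

instance : AddCommGroup (Q3 C) := inferInstanceAs (AddCommGroup (C × C × C))

instance {K : Type u} [Field K] [Algebra K C] : Module K (Q3 C) :=
  inferInstanceAs (Module K (C × C × C))

/-- constructor -/
def mk (a x z : C) : Q3 C := (a, x, z)

/-- first coordinate -/
def pa (p : Q3 C) : C := p.1
/-- second coordinate -/
def px (p : Q3 C) : C := p.2.1
/-- third coordinate -/
def pz (p : Q3 C) : C := p.2.2

theorem ext' {p q : Q3 C} (h1 : p.pa = q.pa) (h2 : p.px = q.px) (h3 : p.pz = q.pz) : p = q :=
  Prod.ext h1 (Prod.ext h2 h3)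

instance : Mul (Q3 C) :=
  ⟨fun p q => mk 0 (p.pa * q.px + q.pa * p.px) (p.px * q.px)⟩

@[simp] theorem pa_mk (a x z : C) : (mk a x z).pa = a := rfl
@[simp] theorem px_mk (a x z : C) : (mk a x z).px = x := rfl
@[simp] theorem pz_mk (a x z : C) : (mk a x z).pz = z := rfl
@[simp] theorem pa_add (p q : Q3 C) : (p + q).pa = p.pa + q.pa := rfl
@[simp] theorem px_add (p q : Q3 C) : (p + q).px = p.px + q.px := rfl
@[simp] theorem pz_add (p q : Q3 C) : (p + q).pz = p.pz + q.pz := rfl
@[simp] theorem pa_zero : (0 : Q3 C).pa = 0 := rfl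
@[simp] theorem px_zero : (0 : Q3 C).px = 0 := rfl
@[simp] theorem pz_zero : (0 : Q3 C).pz = 0 := rfl
@[simp] theorem pa_mul (p q : Q3 C) : (p * q).pa = 0 := rfl
@[simp] theorem px_mul (p q : Q3 C) : (p * q).px = p.pa * q.px + q.pa * p.px := rfl
@[simp] theorem pz_mul (p q : Q3 C) : (p * q).pz = p.px * q.px := rfl
@[simp] theorem pa_smul {K : Type u} [Field K] [Algebra K C] (t : K) (p : Q3 C) :
    (t • p).pa = t • p.pa := rfl
@[simp] theorem px_smul {K : Type u} [Field K] [Algebra K C] (t : K) (p : Q3 C) :
    (t • p).px = t • p.px := rfl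
@[simp] theorem pz_smul {K : Type u} [Field K] [Algebra K C] (t : K) (p : Q3 C) :
    (t • p).pz = t • p.pz := rfl

instance : NonUnitalNonAssocRing (Q3 C) :=
  { (inferInstance : AddCommGroup (Q3 C)), (inferInstance : Mul (Q3 C)) with
    left_distrib := fun p q r => by
      apply ext' <;> simp <;> ring
    right_distrib := fun p q r => by
      apply ext' <;> simp <;> ring
    zero_mul := fun p => by apply ext' <;> simp
    mul_zero := fun p => by apply ext' <;> simp }

instance {K : Type u} [Field K] [Algebra K C] : IsScalarTower K (Q3 C) (Q3 C) :=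
  ⟨fun t p q => by
    apply ext' <;> simp [smul_eq_mul]⟩

instance {K : Type u} [Field K] [Algebra K C] : SMulCommClass K (Q3 C) (Q3 C) :=
  ⟨fun t p q => by
    apply ext' <;> simp [smul_eq_mul]⟩

theorem mul_comm' (p q : Q3 C) : p * q = q * p := by
  apply ext' <;> simp <;> ring

theorem finrank_eq (K : Type u) [Field K] : Module.finrank K (Q3 K) = 3 := by
  have : Module.finrank K (K × K × K) = 3 := by
    rw [Module.finrank_prod, Module.finrank_prod, Module.finrank_self]
  exact this

/-- coordinates as linear maps -/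
def la (K : Type u) [Field K] [Algebra K C] : Q3 C →ₗ[K] C where
  toFun := pa
  map_add' := fun _ _ => rfl
  map_smul' := fun _ _ => rfl
/-- coordinates as linear maps -/
def lx (K : Type u) [Field K] [Algebra K C] : Q3 C →ₗ[K] C where
  toFun := px
  map_add' := fun _ _ => rfl
  map_smul' := fun _ _ => rfl
/-- coordinates as linear maps -/
def lz (K : Type u) [Field K] [Algebra K C] : Q3 C →ₗ[K] C where
  toFun := pz
  map_add' := fun _ _ => rfl
  map_smul' := fun _ _ => rfl

/-- functoriality -/
def map {K : Type u} [Field K] {C D : Type u} [CommRing C] [CommRing D] [Algebra K C]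
    [Algebra K D] (φ : C →ₐ[K] D) : Q3 C →ₙₐ[K] Q3 D where
  toFun := fun p => mk (φ p.pa) (φ p.px) (φ p.pz)
  map_smul' := fun t p => by apply ext' <;> simp
  map_zero' := by apply ext' <;> simp
  map_add' := fun p q => by apply ext' <;> simp
  map_mul' := fun p q => by apply ext' <;> simp

end Q3

/-! ### Evaluation of words -/

section Words

variable {P : Type u} [CommRing P]

/-- `a`-coordinate of a word -/
def aw (α : ℕ → P) : FreeMagma ℕ → P
  | .of i => α i
  | .mul _ _ => 0

/-- `x`-coordinate of a word -/
def xw (α y : ℕ → P) : FreeMagma ℕ → P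
  | .of i => y i
  | .mul U V => aw α U * xw α y V + aw α V * xw α y U

/-- the bilinear part of a word -/
def qw (α y y' : ℕ → P) : FreeMagma ℕ → P
  | .of _ => 0
  | .mul U V => xw α y U * xw α y' V

@[simp] theorem aw_of (α : ℕ → P) (i : ℕ) : aw α (.of i) = α i := rfl
@[simp] theorem aw_mul (α : ℕ → P) (U V : FreeMagma ℕ) : aw α (U * V) = 0 := rfl
@[simp] theorem xw_of (α y : ℕ → P) (i : ℕ) : xw α y (.of i) = y i := rfl
@[simp] theorem xw_mul (α y : ℕ → P) (U V : FreeMagma ℕ) :
    xw α y (U * V) = aw α U * xw α y V + aw α V * xw α y U := rfl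
@[simp] theorem qw_of (α y y' : ℕ → P) (i : ℕ) : qw α y y' (.of i) = 0 := rfl
@[simp] theorem qw_mul (α y y' : ℕ → P) (U V : FreeMagma ℕ) :
    qw α y y' (U * V) = xw α y U * xw α y' V := rfl

theorem lift_Q3 (α y : ℕ → P) (W : FreeMagma ℕ) :
    FreeMagma.lift (fun i => Q3.mk (α i) (y i) 0) W = Q3.mk (aw α W) (xw α y W) (qw α y y W) := by
  induction W using FreeMagma.recOnMul with
  | ih1 i => simp
  | ih2 U V hU hV =>
    rw [map_mul, hU, hV]
    apply Q3.ext' <;> simp

/-- variable bound of a word -/
def vb : FreeMagma ℕ → ℕ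
  | .of i => i + 1
  | .mul U V => max (vb U) (vb V)

@[simp] theorem vb_of (i : ℕ) : vb (.of i) = i + 1 := rfl
@[simp] theorem vb_mul (U V : FreeMagma ℕ) : vb (U * V) = max (vb U) (vb V) := rfl

/-- delta function -/
def dl (i : ℕ) : ℕ → P := fun j => if j = i then 1 else 0

theorem xw_eq_sum (α y : ℕ → P) (N : ℕ) (W : FreeMagma ℕ) (hW : vb W ≤ N) :
    xw α y W = ∑ i ∈ range N, xw α (dl i) W * y i := by
  induction W using FreeMagma.recOnMul with
  | ih1 j =>
    simp only [vb_of] at hW
    simp only [xw_of, dl]
    rw [Finset.sum_eq_single j]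
    · simp
    · intro b _ hb
      rw [if_neg (Ne.symm hb)]; simp
    · intro h
      exact absurd (Finset.mem_range.2 (by omega)) h
  | ih2 U V hU hV =>
    simp only [vb_mul] at hW
    have h1 := hU (le_trans (le_max_left _ _) hW)
    have h2 := hV (le_trans (le_max_right _ _) hW)
    simp only [xw_mul]
    rw [h1, h2, Finset.mul_sum, Finset.mul_sum, ← Finset.sum_add_distrib]
    apply Finset.sum_congr rfl
    intro i _
    ring

theorem qw_eq_sum (α y y' : ℕ → P) (N : ℕ) (W : FreeMagma ℕ) (hW : vb W ≤ N) :
    qw α y y' W = ∑ i ∈ range N, ∑ j ∈ range N, qw α (dl i) (dl j) W * (y i * y' j) := by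
  induction W using FreeMagma.recOnMul with
  | ih1 j => simp
  | ih2 U V _ _ =>
    simp only [vb_mul] at hW
    simp only [qw_mul]
    rw [xw_eq_sum α y N U (le_trans (le_max_left _ _) hW),
      xw_eq_sum α y' N V (le_trans (le_max_right _ _) hW), Finset.sum_mul_sum]
    apply Finset.sum_congr rfl
    intro i _
    apply Finset.sum_congr rfl
    intro j _
    ring

end Words


/-! ### Homogeneity -/

section Hom

open MvPolynomial

variable {K : Type u} [Field K] {n : ℕ}

theorem aw_cases (α : ℕ → MvPolynomial (Fin n) K) (hα : ∀ i, (α i).IsHomogeneous 1)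
    (W : FreeMagma ℕ) : aw α W = 0 ∨ (W.length = 1 ∧ (aw α W).IsHomogeneous 1) := by
  induction W using FreeMagma.recOnMul with
  | ih1 i => right; exact ⟨rfl, hα i⟩
  | ih2 U V _ _ => left; rfl

theorem xw_hom (α : ℕ → MvPolynomial (Fin n) K) (hα : ∀ i, (α i).IsHomogeneous 1) (i : ℕ)
    (W : FreeMagma ℕ) : (xw α (dl i) W).IsHomogeneous (W.length - 1) := by
  induction W using FreeMagma.recOnMul with
  | ih1 j =>
    simp only [xw_of, dl, FreeMagma.length]
    split_ifs
    · exact isHomogeneous_one _ _
    · exact isHomogeneous_zero _ _ _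
  | ih2 U V hU hV =>
    have hUl : 1 ≤ U.length := FreeMagma.length_pos U
    have hVl : 1 ≤ V.length := FreeMagma.length_pos V
    have hl : (U * V).length = U.length + V.length := rfl
    rw [xw_mul, hl]
    apply IsHomogeneous.add
    · rcases aw_cases α hα U with h | ⟨h1, h2⟩
      · rw [h, zero_mul]; exact isHomogeneous_zero _ _ _
      · have := h2.mul hV
        have e : U.length + V.length - 1 = 1 + (V.length - 1) := by omega
        rw [e]; exact this
    · rcases aw_cases α hα V with h | ⟨h1, h2⟩
      · rw [h, zero_mul]; exact isHomogeneous_zero _ _ _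
      · have := h2.mul hU
        have e : U.length + V.length - 1 = 1 + (U.length - 1) := by omega
        rw [e]; exact this

theorem qw_hom (α : ℕ → MvPolynomial (Fin n) K) (hα : ∀ i, (α i).IsHomogeneous 1) (i j : ℕ)
    (W : FreeMagma ℕ) :
    (qw α (dl i) (dl j) W * (α i * α j)).IsHomogeneous W.length := by
  induction W using FreeMagma.recOnMul with
  | ih1 k => rw [qw_of, zero_mul]; exact isHomogeneous_zero _ _ _
  | ih2 U V _ _ =>
    have hUl : 1 ≤ U.length := FreeMagma.length_pos U
    have hVl : 1 ≤ V.length := FreeMagma.length_pos V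
    have hl : (U * V).length = U.length + V.length := rfl
    rw [qw_mul, hl]
    have h := ((xw_hom α hα i U).mul (xw_hom α hα j V)).mul ((hα i).mul (hα j))
    have e : U.length + V.length = (U.length - 1) + (V.length - 1) + (1 + 1) := by omega
    rw [e]; exact h

end Hom

/-! ### The test algebras -/

section Test

open MvPolynomial

variable (K : Type u) [Field K] (n : ℕ)

/-- the exponent of the product of all variables -/
def top : Fin n →₀ ℕ := Finsupp.equivFunOnFinite.symm fun _ => 1

/-- the coefficient of the product of all variables -/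
def tau : MvPolynomial (Fin n) K →ₗ[K] K where
  toFun := coeff (top n)
  map_add' := fun p q => coeff_add _ _ _
  map_smul' := fun t p => coeff_smul _ _ _

variable {K n}

theorem tau_eq_zero_of_homogeneous {p : MvPolynomial (Fin n) K} {d : ℕ}
    (hp : p.IsHomogeneous d) (hd : d ≠ n) : tau K n p = 0 := by
  apply hp.coeff_eq_zero
  intro h
  apply hd
  rw [← h]
  simp [top, Finsupp.degree_eq_sum]

theorem tau_sq {p : MvPolynomial (Fin n) K} (k : Fin n) (h : X k * X k ∣ p) :
    tau K n p = 0 := by
  obtain ⟨q, rfl⟩ := h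
  change coeff (top n) _ = 0
  rw [mul_assoc, coeff_X_mul', if_pos (by simp [top]), coeff_X_mul', if_neg]
  simp [top]

/-- sum of coordinates -/
def sg (w : Fin n → MvPolynomial (Fin n) K) : MvPolynomial (Fin n) K := ∑ k, w k

theorem sg_add (w w' : Fin n → MvPolynomial (Fin n) K) : sg (w + w') = sg w + sg w' := by
  simp [sg, Finset.sum_add_distrib]

theorem sg_smul (t : K) (w : Fin n → MvPolynomial (Fin n) K) : sg (t • w) = t • sg w := by
  simp [sg, Finset.smul_sum]

/-- the ordered form -/
def bf (w w' : Fin n → MvPolynomial (Fin n) K) : MvPolynomial (Fin n) K :=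
  ∑ k, ∑ l, if k < l then w k * w' l else 0

theorem bf_add_left (u w w' : Fin n → MvPolynomial (Fin n) K) :
    bf (u + w) w' = bf u w' + bf w w' := by
  unfold bf
  rw [← Finset.sum_add_distrib]
  refine Finset.sum_congr rfl fun k _ => ?_
  rw [← Finset.sum_add_distrib]
  refine Finset.sum_congr rfl fun l _ => ?_
  split_ifs <;> simp [add_mul]

theorem bf_add_right (u w w' : Fin n → MvPolynomial (Fin n) K) :
    bf u (w + w') = bf u w + bf u w' := by
  unfold bf
  rw [← Finset.sum_add_distrib]
  refine Finset.sum_congr rfl fun k _ => ?_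
  rw [← Finset.sum_add_distrib]
  refine Finset.sum_congr rfl fun l _ => ?_
  split_ifs <;> simp [mul_add]

theorem bf_smul_left (t : K) (w w' : Fin n → MvPolynomial (Fin n) K) :
    bf (t • w) w' = t • bf w w' := by
  unfold bf
  rw [Finset.smul_sum]
  refine Finset.sum_congr rfl fun k _ => ?_
  rw [Finset.smul_sum]
  refine Finset.sum_congr rfl fun l _ => ?_
  split_ifs <;> simp

theorem bf_smul_right (t : K) (w w' : Fin n → MvPolynomial (Fin n) K) :
    bf w (t • w') = t • bf w w' := by
  unfold bf
  rw [Finset.smul_sum]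
  refine Finset.sum_congr rfl fun k _ => ?_
  rw [Finset.smul_sum]
  refine Finset.sum_congr rfl fun l _ => ?_
  split_ifs <;> simp

variable (K n)

/-- the ambient algebra -/
def B0 : Type u := (Fin n → MvPolynomial (Fin n) K) × K

variable {K n}

namespace B0

instance : AddCommGroup (B0 K n) :=
  inferInstanceAs (AddCommGroup ((Fin n → MvPolynomial (Fin n) K) × K))

instance : Module K (B0 K n) :=
  inferInstanceAs (Module K ((Fin n → MvPolynomial (Fin n) K) × K))

/-- constructor -/
def mk (w : Fin n → MvPolynomial (Fin n) K) (c : K) : B0 K n := (w, c)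
/-- vector part -/
def vec (p : B0 K n) : Fin n → MvPolynomial (Fin n) K := p.1
/-- scalar part -/
def cen (p : B0 K n) : K := p.2

theorem ext' {p q : B0 K n} (h1 : p.vec = q.vec) (h2 : p.cen = q.cen) : p = q := Prod.ext h1 h2

instance : Mul (B0 K n) :=
  ⟨fun p q => mk (fun k => sg p.vec * q.vec k + sg q.vec * p.vec k)
    (tau K n (bf p.vec q.vec))⟩

@[simp] theorem vec_mk (w : Fin n → MvPolynomial (Fin n) K) (c : K) : (mk w c).vec = w := rfl
@[simp] theorem cen_mk (w : Fin n → MvPolynomial (Fin n) K) (c : K) : (mk w c).cen = c := rfl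
@[simp] theorem vec_add (p q : B0 K n) : (p + q).vec = p.vec + q.vec := rfl
@[simp] theorem cen_add (p q : B0 K n) : (p + q).cen = p.cen + q.cen := rfl
@[simp] theorem vec_zero : (0 : B0 K n).vec = 0 := rfl
@[simp] theorem cen_zero : (0 : B0 K n).cen = 0 := rfl
@[simp] theorem vec_smul (t : K) (p : B0 K n) : (t • p).vec = t • p.vec := rfl
@[simp] theorem cen_smul (t : K) (p : B0 K n) : (t • p).cen = t • p.cen := rfl
theorem vec_mul (p q : B0 K n) :
    (p * q).vec = fun k => sg p.vec * q.vec k + sg q.vec * p.vec k := rfl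
theorem cen_mul (p q : B0 K n) : (p * q).cen = tau K n (bf p.vec q.vec) := rfl

theorem sg_zero : sg (0 : Fin n → MvPolynomial (Fin n) K) = 0 := by simp [sg]
theorem bf_zero_left (w : Fin n → MvPolynomial (Fin n) K) : bf 0 w = 0 := by simp [bf]
theorem bf_zero_right (w : Fin n → MvPolynomial (Fin n) K) : bf w 0 = 0 := by simp [bf]

instance : NonUnitalNonAssocRing (B0 K n) :=
  { (inferInstance : AddCommGroup (B0 K n)), (inferInstance : Mul (B0 K n)) with
    left_distrib := fun p q r => by
      apply ext'
      · funext k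
        simp only [vec_mul, vec_add, sg_add, Pi.add_apply]; ring
      · simp only [cen_mul, cen_add, vec_add, bf_add_right, map_add]
    right_distrib := fun p q r => by
      apply ext'
      · funext k
        simp only [vec_mul, vec_add, sg_add, Pi.add_apply]; ring
      · simp only [cen_mul, cen_add, vec_add, bf_add_left, map_add]
    zero_mul := fun p => by
      apply ext'
      · funext k
        simp [vec_mul, sg_zero]
      · simp [cen_mul, bf_zero_left]
    mul_zero := fun p => by
      apply ext'
      · funext k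
        simp [vec_mul, sg_zero]
      · simp [cen_mul, bf_zero_right] }

instance : IsScalarTower K (B0 K n) (B0 K n) :=
  ⟨fun t p q => by
    change (t • p) * q = t • (p * q)
    apply ext'
    · funext k
      simp [vec_mul, sg_smul]
    · simp [cen_mul, bf_smul_left]⟩

instance : SMulCommClass K (B0 K n) (B0 K n) :=
  ⟨fun t p q => by
    change t • (p * q) = p * (t • q)
    apply ext'
    · funext k
      simp [vec_mul, sg_smul]
    · simp [cen_mul, bf_smul_right]⟩

/-- vector coordinate as a linear map -/
def lv (k : Fin n) : B0 K n →ₗ[K] MvPolynomial (Fin n) K where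
  toFun := fun p => p.vec k
  map_add' := fun _ _ => rfl
  map_smul' := fun _ _ => rfl

/-- scalar part as a linear map -/
def lc : B0 K n →ₗ[K] K where
  toFun := cen
  map_add' := fun _ _ => rfl
  map_smul' := fun _ _ => rfl

end B0

/-- the linear-in-generators part of the scalar coordinate -/
def cz (v : ℕ → B0 K n) : FreeMagma ℕ → K
  | .of i => (v i).cen
  | .mul _ _ => 0

@[simp] theorem cz_of (v : ℕ → B0 K n) (i : ℕ) : cz v (.of i) = (v i).cen := rfl
@[simp] theorem cz_mul (v : ℕ → B0 K n) (U V : FreeMagma ℕ) : cz v (U * V) = 0 := rfl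

theorem lift_B0_vec [CharP K 2] (v : ℕ → B0 K n) (W : FreeMagma ℕ) :
    (∀ k, (FreeMagma.lift v W).vec k =
      xw (fun i => sg (v i).vec) (fun i => (v i).vec k) W) ∧
    sg (FreeMagma.lift v W).vec = aw (fun i => sg (v i).vec) W := by
  induction W using FreeMagma.recOnMul with
  | ih1 i => simp
  | ih2 U V hU hV =>
    constructor
    · intro k
      rw [map_mul, B0.vec_mul]
      simp only [xw_mul]
      rw [hU.2, hV.2, hU.1, hV.1]
    · rw [map_mul, B0.vec_mul, aw_mul]
      unfold sg
      rw [Finset.sum_add_distrib, ← Finset.mul_sum, ← Finset.mul_sum]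
      have : ∀ p q : MvPolynomial (Fin n) K, p * q + q * p = 0 := by
        intro p q
        rw [mul_comm q p]
        exact CharTwo.add_self_eq_zero _
      exact this _ _

theorem lift_B0_cen [CharP K 2] (v : ℕ → B0 K n) (W : FreeMagma ℕ) :
    (FreeMagma.lift v W).cen = cz v W + tau K n (∑ k, ∑ l, if k < l then
      qw (fun i => sg (v i).vec) (fun i => (v i).vec k) (fun i => (v i).vec l) W else 0) := by
  induction W using FreeMagma.recOnMul with
  | ih1 i => simp
  | ih2 U V hU hV =>
    rw [map_mul, B0.cen_mul, cz_mul, zero_add]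
    congr 1
    unfold bf
    refine Finset.sum_congr rfl fun k _ => ?_
    refine Finset.sum_congr rfl fun l _ => ?_
    split_ifs
    · rw [qw_mul, (lift_B0_vec v U).1, (lift_B0_vec v V).1]
    · rfl

end Test

end

end Pool.Agent.R635.ThreeDim
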