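import Pool.Agent.R635.AltThreeLaw
import Pool.Agent.R635.ThreeDim

set_option autoImplicit false
set_option linter.unusedSectionVars false

namespace Pool.Agent.R635.AltThree

noncomputable section

universe u

/-! ### the functional -/

section functional

variable {K : Type u} [Field K] {N : Type u} [AddCommGroup N] [Module K N]

theorem al_prod (l : List N) :
    al ((l.map (e : N → ExteriorAlgebra K N)).prod) =
      (-1 : K) ^ l.length • (l.map (e : N → ExteriorAlgebra K N)).prod :=
  CliffordAlgebra.involute_prod_map_ι l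

theorem rv_prod (l : List N) :
    rv ((l.map (e : N → ExteriorAlgebra K N)).prod) =
      (-1 : K) ^ (l.length.choose 2) • (l.map (e : N → ExteriorAlgebra K N)).prod := by
  induction l with
  | nil =>
    simp only [List.map_nil, List.prod_nil, List.length_nil]
    have : rv (1 : ExteriorAlgebra K N) = 1 := CliffordAlgebra.reverse.map_one
    rw [this]; simp
  | cons x l ih =>
    rw [List.map_cons, List.prod_cons, rv_mul, rv_e, ih, smul_mul_assoc, mul_e, al_prod,
      mul_smul_comm, smul_smul, List.length_cons, Nat.choose_succ_succ' l.length 1,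
      Nat.choose_one_right, pow_add, mul_comm]

theorem al_multi (n : ℕ) (u : Fin n → N) :
    al (ExteriorAlgebra.ιMulti K n u) = (-1 : K) ^ n • ExteriorAlgebra.ιMulti K n u := by
  have h1 : ExteriorAlgebra.ιMulti K n u =
      ((List.ofFn u).map (e : N → ExteriorAlgebra K N)).prod := by
    rw [ExteriorAlgebra.ιMulti_apply, List.map_ofFn]; rfl
  rw [h1, al_prod, List.length_ofFn]

theorem rv_multi (n : ℕ) (u : Fin n → N) :
    rv (ExteriorAlgebra.ιMulti K n u) = (-1 : K) ^ (n.choose 2) • ExteriorAlgebra.ιMulti K n u := by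
  have h1 : ExteriorAlgebra.ιMulti K n u =
      ((List.ofFn u).map (e : N → ExteriorAlgebra K N)).prod := by
    rw [ExteriorAlgebra.ιMulti_apply, List.map_ofFn]; rfl
  rw [h1, rv_prod, List.length_ofFn]

end functional

section det

variable (K : Type u) [Field K] (n : ℕ)

/-- the family of alternating maps that is the determinant in degree `n` and zero otherwise -/
def detFam : ∀ i, (Fin n → K) [⋀^Fin i]→ₗ[K] K :=
  fun i => if h : i = n then
    (Matrix.detRowAlternating (R := K) (n := Fin n)).domDomCongr (finCongr h.symm) else 0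

/-- the functional on the exterior algebra of `K ^ n`: determinant on degree `n`, zero on the other
degrees -/
def mu : ExteriorAlgebra K (Fin n → K) →ₗ[K] K := ExteriorAlgebra.liftAlternating (detFam K n)

theorem mu_of_ne (m : ℕ) (hm : m ≠ n) (u : Fin m → Fin n → K) :
    mu K n (ExteriorAlgebra.ιMulti K m u) = 0 := by
  unfold mu
  rw [ExteriorAlgebra.liftAlternating_apply_ιMulti]
  simp [detFam, hm]

theorem mu_self (u : Fin n → Fin n → K) :
    mu K n (ExteriorAlgebra.ιMulti K n u) = Matrix.det (Matrix.of u) := by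
  unfold mu
  rw [ExteriorAlgebra.liftAlternating_apply_ιMulti]
  simp [detFam]
  rfl

theorem good (h3 : (3 : K) = 0) (j : ℕ) : Good (mu K (4 * j + 6)) where
  three := h3
  al P := by
    have : (mu K (4 * j + 6)).comp CliffordAlgebra.involute.toLinearMap = mu K (4 * j + 6) := by
      apply ExteriorAlgebra.lhom_ext
      intro i
      ext u
      change mu K (4 * j + 6) (al (ExteriorAlgebra.ιMulti K i u)) =
        mu K (4 * j + 6) (ExteriorAlgebra.ιMulti K i u)
      rw [al_multi, map_smul]
      by_cases hi : i = 4 * j + 6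
      · have : Even i := ⟨2 * j + 3, by omega⟩
        rw [this.neg_one_pow, one_smul]
      · rw [mu_of_ne K _ _ hi, smul_zero]
    exact congrArg (fun f => f P) this
  rv P := by
    have : (mu K (4 * j + 6)).comp CliffordAlgebra.reverse = - mu K (4 * j + 6) := by
      apply ExteriorAlgebra.lhom_ext
      intro i
      ext u
      change mu K (4 * j + 6) (rv (ExteriorAlgebra.ιMulti K i u)) =
        - mu K (4 * j + 6) (ExteriorAlgebra.ιMulti K i u)
      rw [rv_multi, map_smul]
      by_cases hi : i = 4 * j + 6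
      · have h2 : Odd (i.choose 2) := by
          rw [Nat.choose_two_right, hi]
          have : (4 * j + 6) * (4 * j + 6 - 1) = 2 * (2 * (4 * j * j + 11 * j + 7) + 1) := by
            have : 4 * j + 6 - 1 = 4 * j + 5 := by omega
            rw [this]; ring
          rw [this, Nat.mul_div_cancel_left _ (by norm_num)]
          exact odd_two_mul_add_one _
        rw [h2.neg_one_pow, neg_smul, one_smul]
      · rw [mu_of_ne K _ _ hi, smul_zero, neg_zero]
    exact congrArg (fun f => f P) this

end det

/-! ### the identities -/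

section laws

variable (K : Type u) [Field K]

open FreeNonUnitalNonAssocAlgebra

/-- the commutator -/
def comm {A : Type u} [NonUnitalNonAssocRing A] (a b : A) : A := a * b - b * a

/-- `x₄₊ₖ(…(x₆(x₅[[x₂,x₃],x₄]))…)` -/
def tail : ℕ → FreeNonUnitalNonAssocAlgebra K ℕ
  | 0 => comm (comm (of K 2) (of K 3)) (of K 4)
  | k + 1 => of K (5 + k) * tail k

/-- `[x₀,x₁]·(x₄₊ₘ(…(x₆(x₅[[x₂,x₃],x₄]))…))` -/
def law (m : ℕ) : FreeNonUnitalNonAssocAlgebra K ℕ := comm (of K 0) (of K 1) * tail K m

end laws

section eval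

variable {K : Type u} [Field K] {N : Type u} [AddCommGroup N] [Module K N]
  {μ : ExteriorAlgebra K N →ₗ[K] K} {W : Submodule K N}

open FreeNonUnitalNonAssocAlgebra

/-- the product `v₂v₃v₄v₅…v₄₊ₖ` -/
def qq (u : ℕ → N) : ℕ → ExteriorAlgebra K N
  | 0 => e (u 2) * e (u 3) * e (u 4)
  | k + 1 => qq u k * e (u (5 + k))

theorem two (h : Good μ) (x : ExteriorAlgebra K N) : x + x = -x := by
  have h3 := h.three
  have : (3 : K) • x = 0 := by rw [h3, zero_smul]
  have h4 : (3 : K) • x = x + x + x := by
    rw [show (3 : K) = 1 + 1 + 1 by norm_num, add_smul, add_smul, one_smul]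
  rw [h4] at this
  exact eq_neg_of_add_eq_zero_left this

theorem comm_v (a b : Alg W μ) : (comm a b).v = 0 := by
  unfold comm; simp

theorem comm_P (h : Good μ) (a b : Alg W μ) : (comm a b).P = -(e a.v * e b.v) := by
  unfold comm
  rw [Alg.P_sub, Alg.P_mul, Alg.P_mul, e_swap b.v a.v]
  refine Eq.trans ?_ (two h (e a.v * e b.v))
  abel

theorem comm_Q (a b : Alg W μ) : (comm a b).Q = e a.v * b.P - e b.v * a.P := by
  unfold comm
  rw [Alg.Q_sub, Alg.Q_mul, Alg.Q_mul]
  abel

theorem eval_tail (h : Good μ) (a : ℕ → Alg W μ) (k : ℕ) :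
    (lift K a (tail K k)).v = 0 ∧ (lift K a (tail K k)).P = 0 ∧
      (lift K a (tail K k)).Q = qq (fun i => (a i).v) k := by
  induction k with
  | zero =>
    have h1 : lift K a (tail K 0) = comm (comm (a 2) (a 3)) (a 4) := by
      simp only [tail, comm, map_sub, map_mul, lift_of_apply]
    rw [h1]
    refine ⟨comm_v _ _, ?_, ?_⟩
    · rw [comm_P h, comm_v, e_zero, zero_mul, neg_zero]
    · rw [comm_Q, comm_v, e_zero, zero_mul, comm_P h]
      unfold qq
      rw [mul_neg, sub_neg_eq_add, zero_add, ← mul_assoc, e_swap (a 4).v (a 2).v, neg_mul,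
        mul_assoc, e_swap (a 4).v (a 3).v, mul_neg, neg_neg, mul_assoc]
  | succ k ih =>
    have h1 : lift K a (tail K (k + 1)) = a (5 + k) * lift K a (tail K k) := by
      simp only [tail, map_mul, lift_of_apply]
    rw [h1]
    obtain ⟨i1, i2, i3⟩ := ih
    refine ⟨Alg.v_mul _ _, ?_, ?_⟩
    · rw [Alg.P_mul, i1, i2, e_zero]; simp
    · rw [Alg.Q_mul, i1, i2, i3, e_zero, mul_zero, mul_zero, zero_add, zero_add]
      rfl

theorem eval_law (h : Good μ) (a : ℕ → Alg W μ) (m : ℕ) :
    lift K a (law K m) =
      Alg.mk 0 0 0 (μ (e (a 0).v * e (a 1).v * qq (fun i => (a i).v) m)) := by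
  have h1 : lift K a (law K m) = comm (a 0) (a 1) * lift K a (tail K m) := by
    simp only [law, comm, map_sub, map_mul, lift_of_apply]
  obtain ⟨i1, i2, i3⟩ := eval_tail h a m
  rw [h1]
  apply Alg.ext'
  · simp
  · rw [Alg.P_mul, i1, i2, comm_v, e_zero]; simp
  · rw [Alg.Q_mul, i1, i2, comm_v, e_zero]; simp
  · rw [Alg.t_mul, i2, i3, comm_v, e_zero, comm_P h, C_zero_right, B_zero_right, Alg.t_mk, zero_mul,
      zero_mul, map_zero, neg_zero, add_zero, add_zero, zero_add, sub_zero, B_neg_left]
    unfold B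
    rw [rv_mul, rv_e, rv_e, e_swap, neg_mul, map_neg, neg_neg]

theorem qq_eq (u : ℕ → N) (m : ℕ) :
    e (u 0) * e (u 1) * qq u m = ExteriorAlgebra.ιMulti K (m + 5) (fun i => u i) := by
  rw [ExteriorAlgebra.ιMulti_apply]
  induction m with
  | zero =>
    simp only [qq, List.ofFn_succ, List.ofFn_zero, List.prod_cons, List.prod_nil]
    simp [mul_assoc]
  | succ m ih =>
    rw [List.ofFn_succ', List.concat_eq_append, List.prod_append, List.prod_singleton]
    change e (u 0) * e (u 1) * (qq u m * e (u (5 + m))) = _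
    rw [← mul_assoc, ih]
    simp only [Fin.val_castSucc, Fin.val_last]
    rw [show 5 + m = m + 5 by omega]

theorem eval_law' (h : Good μ) (a : ℕ → Alg W μ) (m : ℕ) :
    lift K a (law K m) =
      Alg.mk 0 0 0 (μ (ExteriorAlgebra.ιMulti K (m + 5) (fun i => (a i).v))) := by
  rw [eval_law h, qq_eq (fun i => (a i).v)]

end eval

/-! ### finitely many variables -/

section vars

variable (K : Type u) [Field K]

open FreeNonUnitalNonAssocAlgebra

theorem lift_congr {A : Type u} [NonUnitalNonAssocRing A] (m : FreeMagma ℕ) (a b : ℕ → A)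
    (h : ∀ i < ThreeDim.vb m, a i = b i) : FreeMagma.lift a m = FreeMagma.lift b m := by
  induction m using FreeMagma.recOnMul with
  | ih1 i => exact h i (Nat.lt_succ_self i)
  | ih2 x y hx hy =>
    rw [map_mul, map_mul, hx fun i hi => h i (lt_of_lt_of_le hi (le_max_left _ _)),
      hy fun i hi => h i (lt_of_lt_of_le hi (le_max_right _ _))]

theorem exists_bound (f : FreeNonUnitalNonAssocAlgebra K ℕ) :
    ∃ k : ℕ, ∀ (A : Type u) [NonUnitalNonAssocRing A] [Module K A] [IsScalarTower K A A]
      [SMulCommClass K A A] (a b : ℕ → A), (∀ i < k, a i = b i) → lift K a f = lift K b f := by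
  refine ⟨f.coeff.support.sup ThreeDim.vb, ?_⟩
  intro A _ _ _ _ a b h
  change ∑ m ∈ f.coeff.support, f.coeff m • FreeMagma.lift a m =
    ∑ m ∈ f.coeff.support, f.coeff m • FreeMagma.lift b m
  refine Finset.sum_congr rfl fun m hm => ?_
  rw [lift_congr m a b fun i hi => h i (lt_of_lt_of_le hi (Finset.le_sup hm))]

end vars

end

end Pool.Agent.R635.AltThree
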