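import Pool.Agent.R635.Grp

set_option autoImplicit false

namespace Pool.Agent.R635.OR

open Pre ENNReal

/-! ### word length -/

noncomputable def len (g : GG) : ℕ :=
  sInf {n | ∃ w : F2, (QuotientGroup.mk w : GG) = g ∧ (FreeGroup.toWord w).length = n}

theorem len_spec (g : GG) : ∃ w : F2, (QuotientGroup.mk w : GG) = g ∧
    (FreeGroup.toWord w).length = len g := by
  have : (sInf {n | ∃ w : F2, (QuotientGroup.mk w : GG) = g ∧ (FreeGroup.toWord w).length = n}) ∈
      {n | ∃ w : F2, (QuotientGroup.mk w : GG) = g ∧ (FreeGroup.toWord w).length = n} := by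
    apply Nat.sInf_mem
    obtain ⟨u, hu⟩ := QuotientGroup.mk_surjective g
    exact ⟨_, u, hu, rfl⟩
  exact this

theorem len_le {g : GG} {w : F2} (h : (QuotientGroup.mk w : GG) = g) :
    len g ≤ (FreeGroup.toWord w).length :=
  Nat.sInf_le ⟨w, h, rfl⟩

theorem len_iff (g : GG) (k : ℕ) :
    (∃ w : F2, (QuotientGroup.mk w : GG) = g ∧ (FreeGroup.toWord w).length = k ∧
      ∀ w' : F2, (QuotientGroup.mk w' : GG) = g → k ≤ (FreeGroup.toWord w').length) ↔
    len g = k := by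
  constructor
  · rintro ⟨w, hw, hk, hmin⟩
    apply le_antisymm
    · rw [← hk]
      exact len_le hw
    · obtain ⟨w', hw', hl⟩ := len_spec g
      rw [← hl]
      exact hmin w' hw'
  · rintro rfl
    obtain ⟨w', hw', hl⟩ := len_spec g
    exact ⟨w', hw', hl, fun w'' h'' => len_le h''⟩

theorem reach_len (g : GG) : Reach (stG g).1 (len g) (enG g) := by
  obtain ⟨w, hw, hl⟩ := len_spec g
  have := reach_of_word w
  rw [hl, hw] at this
  exact this

theorem len_le_of_reach {g : GG} {s : Pre} {n : ℕ} {e : ℤ} (h : Reach s n e)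
    (hs : (stG g).1 = s) (he : enG g = e) : len g ≤ n := by
  obtain ⟨L, hL, hs', he'⟩ := word_of_reach h
  have : (QuotientGroup.mk (FreeGroup.mk L) : GG) = g := by
    apply inj
    · apply Subtype.ext
      rw [hs', hs]
    · rw [he', he]
  refine (len_le this).trans ?_
  rw [← hL]
  exact FreeGroup.norm_mk_le

theorem exists_g0 (s : Om) : ∃ g : GG, stG g = s ∧ enG g = Lo s.1 := by
  obtain ⟨s, hs⟩ := s
  have hs' := hs
  rcases s with a | ⟨q, m, t⟩
  · exact absurd hs (by simp [Val])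
  · have h := reach_zero q m t (k := 0) (Nat.zero_le _)
    rw [nrm_of_val hs] at h
    obtain ⟨L, hL, h1, h2⟩ := word_of_reach h
    refine ⟨_, Subtype.ext h1, ?_⟩
    rw [h2]
    simp

noncomputable def g0 (s : Om) : GG := (exists_g0 s).choose

theorem st_g0 (s : Om) : stG (g0 s) = s := (exists_g0 s).choose_spec.1
theorem en_g0 (s : Om) : enG (g0 s) = Lo s.1 := (exists_g0 s).choose_spec.2

noncomputable def elt (p : Om × ℤ) : GG := (qx ^ 2) ^ p.2 * g0 p.1

theorem st_elt (p : Om × ℤ) : stG (elt p) = p.1 := by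
  rw [elt, st_c, st_g0]

theorem en_elt (p : Om × ℤ) : enG (elt p) = Lo p.1.1 + 4 * p.2 := by
  rw [elt, en_c, en_g0]

theorem elt_bij : Function.Bijective elt := by
  constructor
  · intro p p' h
    have h1 : p.1 = p'.1 := by rw [← st_elt, ← st_elt, h]
    have h2 : Lo p.1.1 + 4 * p.2 = Lo p'.1.1 + 4 * p'.2 := by rw [← en_elt, ← en_elt, h]
    rw [h1] at h2
    exact Prod.ext h1 (by omega)
  · intro g
    obtain ⟨k, hk⟩ := exists_c (g := g) (g' := g0 (stG g)) (st_g0 _).symm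
    exact ⟨(stG g, k), hk.symm⟩

noncomputable def D (s : Om) (k : ℤ) : ℕ := len (elt (s, k))

theorem D_reach (s : Om) (k : ℤ) : Reach s.1 (D s k) (Lo s.1 + 4 * k) := by
  have := reach_len (elt (s, k))
  rw [st_elt, en_elt] at this
  exact this

theorem D_le {s : Om} {k : ℤ} {n : ℕ} (h : Reach s.1 n (Lo s.1 + 4 * k)) : D s k ≤ n := by
  apply len_le_of_reach h
  · rw [st_elt]
  · rw [en_elt]

theorem N_le_D (s : Om) (k : ℤ) : N s.1 ≤ D s k := (D_reach s k).N_le

theorem D_le_N {s : Om} {k : ℕ} (hk : k ≤ flT s.1) : D s k ≤ N s.1 := by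
  obtain ⟨s, hs⟩ := s
  rcases s with a | ⟨q, m, t⟩
  · exact absurd hs (by simp [Val])
  · apply D_le
    have h := reach_zero q m t (k := k) hk
    rw [nrm_of_val hs] at h
    exact h

theorem D_le_two {s : Om} {i : ℕ} (hi : i ≤ lamU s.1) :
    D s ((flT s.1 + 1 + 3 * i : ℕ) : ℤ) ≤ N s.1 + 2 := by
  obtain ⟨s, hs⟩ := s
  rcases s with a | ⟨q, m, t⟩
  · exact absurd hs (by simp [Val])
  · apply D_le
    have h := reach_two q m t hi
    rw [nrm_of_val hs] at h
    refine h.cast rfl rfl ?_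
    push_cast
    ring

theorem D_ge_pos (s : Om) (n : ℕ) :
    N s.1 + (n / (2 * (lam s.1 + 1)) + 1) ≤ D s ((n : ℤ) + (flT s.1 + 1)) := by
  have h := (D_reach s ((n : ℤ) + (flT s.1 + 1))).upper
  have hN := N_le_D s ((n : ℤ) + (flT s.1 + 1))
  set d := D s ((n : ℤ) + (flT s.1 + 1))
  obtain ⟨B, hB⟩ : ∃ B : ℕ, d = N s.1 + B := ⟨d - N s.1, by omega⟩
  rw [hB] at h ⊢
  push_cast at h
  have h2 : (n : ℤ) + 1 ≤ 2 * (lam s.1 + 1) * B := by
    have h3 : 4 * ((n : ℤ) + 1) ≤ 6 * ((lam s.1 + 1) * B) := by linarith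
    have h4 : (0 : ℤ) ≤ (lam s.1 + 1) * B := by positivity
    linarith
  have h5 : n < B * (2 * (lam s.1 + 1)) := by
    have : ((n + 1 : ℕ) : ℤ) ≤ ((2 * (lam s.1 + 1) * B : ℕ) : ℤ) := by push_cast; linarith
    have := Int.ofNat_le.mp this
    rw [mul_comm B]
    omega
  have h6 : n / (2 * (lam s.1 + 1)) < B := Nat.div_lt_of_lt_mul (by rw [mul_comm]; exact h5)
  omega

theorem D_ge_neg (s : Om) (n : ℕ) :
    N s.1 + (n / (2 * (lam s.1 + 1)) + 1) ≤ D s (-((n : ℤ) + 1)) := by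
  have h := (D_reach s (-((n : ℤ) + 1))).lower
  have hN := N_le_D s (-((n : ℤ) + 1))
  set d := D s (-((n : ℤ) + 1))
  obtain ⟨B, hB⟩ : ∃ B : ℕ, d = N s.1 + B := ⟨d - N s.1, by omega⟩
  rw [hB] at h ⊢
  push_cast at h
  have h2 : (n : ℤ) + 1 ≤ 2 * (lam s.1 + 1) * B := by
    have h3 : 4 * ((n : ℤ) + 1) ≤ 6 * ((lam s.1 + 1) * B) := by linarith
    have h4 : (0 : ℤ) ≤ (lam s.1 + 1) * B := by positivity
    linarith
  have h5 : n < B * (2 * (lam s.1 + 1)) := by
    have : ((n + 1 : ℕ) : ℤ) ≤ ((2 * (lam s.1 + 1) * B : ℕ) : ℤ) := by push_cast; linarith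
    have := Int.ofNat_le.mp this
    rw [mul_comm B]
    omega
  have h6 : n / (2 * (lam s.1 + 1)) < B := Nat.div_lt_of_lt_mul (by rw [mul_comm]; exact h5)
  omega

/-! ### sums over fibres -/

theorem tsum_div (z : ℝ≥0∞) (K : ℕ) (hK : 0 < K) :
    ∑' n : ℕ, z ^ (n / K) = K * (1 - z)⁻¹ := by
  have : NeZero K := ⟨hK.ne'⟩
  rw [← (Nat.divModEquiv K).symm.tsum_eq]
  have h1 : ∀ p : ℕ × Fin K, z ^ (((Nat.divModEquiv K).symm p) / K) = z ^ p.1 := by
    intro p
    congr 1
    have := congrArg Prod.fst ((Nat.divModEquiv K).apply_symm_apply p)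
    exact this
  simp_rw [h1]
  rw [ENNReal.tsum_prod (f := fun (n : ℕ) (_ : Fin K) => z ^ n)]
  simp only [tsum_fintype, Finset.sum_const, Finset.card_univ, Fintype.card_fin, nsmul_eq_mul]
  rw [ENNReal.tsum_mul_left, ENNReal.tsum_geometric]

theorem fiber_upper {z : ℝ≥0∞} (hz : z ≤ 1) (s : Om) :
    ∑' k : ℤ, z ^ D s k ≤ z ^ N s.1 * (flT s.1 + 1) +
      z ^ N s.1 * (z * (4 * (lam s.1 + 1) * (1 - z)⁻¹)) := by
  have h1 : HasSum (fun n : ℕ => z ^ D s (n : ℤ)) (∑' n : ℕ, z ^ D s (n : ℤ)) :=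
    ENNReal.summable.hasSum
  have h2 : HasSum (fun n : ℕ => z ^ D s (-((n : ℤ) + 1))) (∑' n : ℕ, z ^ D s (-((n : ℤ) + 1))) :=
    ENNReal.summable.hasSum
  have h3 := (HasSum.of_nat_of_neg_add_one (f := fun k : ℤ => z ^ D s k) h1 h2).tsum_eq
  rw [h3]
  have hK : 0 < 2 * (lam s.1 + 1) := by omega
  have hmono : ∀ {a b : ℕ}, a ≤ b → z ^ b ≤ z ^ a := fun h => pow_le_pow_right_of_le_one' hz h
  have hneg : ∑' n : ℕ, z ^ D s (-((n : ℤ) + 1)) ≤
      z ^ N s.1 * (z * (2 * (lam s.1 + 1) * (1 - z)⁻¹)) := by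
    calc ∑' n : ℕ, z ^ D s (-((n : ℤ) + 1))
        ≤ ∑' n : ℕ, z ^ N s.1 * (z * z ^ (n / (2 * (lam s.1 + 1)))) := by
          apply ENNReal.tsum_le_tsum
          intro n
          refine (hmono (D_ge_neg s n)).trans (le_of_eq ?_)
          rw [pow_add, pow_succ' z]
      _ = _ := by
          rw [ENNReal.tsum_mul_left, ENNReal.tsum_mul_left, tsum_div z _ hK]
          push_cast
          ring
  have hpos : ∑' n : ℕ, z ^ D s (n : ℤ) ≤
      z ^ N s.1 * (flT s.1 + 1) + z ^ N s.1 * (z * (2 * (lam s.1 + 1) * (1 - z)⁻¹)) := by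
    rw [← (ENNReal.summable (f := fun n : ℕ =>
      z ^ D s ((n + (flT s.1 + 1) : ℕ) : ℤ))).sum_add_tsum_nat_add'
      (f := fun n : ℕ => z ^ D s (n : ℤ))]
    apply add_le_add
    · calc ∑ n ∈ Finset.range (flT s.1 + 1), z ^ D s (n : ℤ)
          ≤ ∑ n ∈ Finset.range (flT s.1 + 1), z ^ N s.1 := by
            apply Finset.sum_le_sum
            intro n _
            exact hmono (N_le_D s n)
        _ = _ := by
            rw [Finset.sum_const, Finset.card_range, nsmul_eq_mul]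
            push_cast
            ring
    · calc ∑' n : ℕ, z ^ D s ((n + (flT s.1 + 1) : ℕ) : ℤ)
          ≤ ∑' n : ℕ, z ^ N s.1 * (z * z ^ (n / (2 * (lam s.1 + 1)))) := by
            apply ENNReal.tsum_le_tsum
            intro n
            have := hmono (D_ge_pos s n)
            refine le_trans (le_of_eq ?_) (this.trans (le_of_eq ?_))
            · push_cast
              rfl
            · rw [pow_add, pow_succ' z]
        _ = _ := by
            rw [ENNReal.tsum_mul_left, ENNReal.tsum_mul_left, tsum_div z _ hK]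
            push_cast
            ring
  calc _ ≤ _ := add_le_add hpos hneg
    _ = _ := by ring

theorem fiber_lower {z : ℝ≥0∞} (hz : z ≤ 1) (s : Om) :
    z ^ N s.1 * (flT s.1 + 1) + z ^ (N s.1 + 2) * lamU s.1 ≤ ∑' k : ℤ, z ^ D s k := by
  have hmono : ∀ {a b : ℕ}, a ≤ b → z ^ b ≤ z ^ a := fun h => pow_le_pow_right_of_le_one' hz h
  set S1 : Finset ℤ := (Finset.range (flT s.1 + 1)).image (fun n : ℕ => (n : ℤ)) with hS1
  set S2 : Finset ℤ := (Finset.range (lamU s.1)).image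
    (fun n : ℕ => ((flT s.1 + 1 + 3 * n : ℕ) : ℤ)) with hS2
  have hdisj : Disjoint S1 S2 := by
    rw [Finset.disjoint_left]
    intro a ha hb
    simp only [hS1, hS2, Finset.mem_image, Finset.mem_range] at ha hb
    obtain ⟨n, hn, rfl⟩ := ha
    obtain ⟨n', hn', h⟩ := hb
    omega
  refine le_trans ?_ (ENNReal.sum_le_tsum (S1 ∪ S2))
  rw [Finset.sum_union hdisj]
  apply add_le_add
  · rw [hS1, Finset.sum_image (fun a _ b _ h => by exact_mod_cast h)]
    calc z ^ N s.1 * (flT s.1 + 1) = ∑ n ∈ Finset.range (flT s.1 + 1), z ^ N s.1 := by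
          rw [Finset.sum_const, Finset.card_range, nsmul_eq_mul]
          push_cast
          ring
      _ ≤ _ := by
          apply Finset.sum_le_sum
          intro n hn
          rw [Finset.mem_range] at hn
          exact hmono (D_le_N (by omega))
  · rw [hS2, Finset.sum_image (fun a _ b _ h => by
      have : (flT s.1 + 1 + 3 * a : ℕ) = flT s.1 + 1 + 3 * b := by exact_mod_cast h
      omega)]
    calc z ^ (N s.1 + 2) * lamU s.1 = ∑ n ∈ Finset.range (lamU s.1), z ^ (N s.1 + 2) := by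
          rw [Finset.sum_const, Finset.card_range, nsmul_eq_mul]
          ring
      _ ≤ _ := by
          apply Finset.sum_le_sum
          intro n hn
          rw [Finset.mem_range] at hn
          exact hmono (D_le_two (by omega))

theorem tsum_group (z : ℝ≥0∞) : ∑' g : GG, z ^ len g = ∑' s : Om, ∑' k : ℤ, z ^ D s k := by
  rw [← (Equiv.ofBijective elt elt_bij).tsum_eq]
  rw [← ENNReal.tsum_prod (f := fun (s : Om) (k : ℤ) => z ^ D s k)]
  rfl

end Pool.Agent.R635.OR
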