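import Mathlib

/-!
# A transcendence criterion, and evaluation of algebraic relations of power series at real points
-/

set_option autoImplicit false

namespace Pool.Agent.R635.Trans

open Polynomial Filter Topology

/-- If `u → ∞` but `(z - z0) u^k → 0` for all `k`, then `u` satisfies no polynomial relation. -/
theorem no_relation {z0 : ℝ} {l : Filter ℝ} [l.NeBot] (hl : Tendsto (fun z : ℝ => z) l (𝓝 z0))
    (hne : ∀ᶠ z in l, z ≠ z0) {u : ℝ → ℝ} (hu : Tendsto u l atTop)
    (hk : ∀ k : ℕ, Tendsto (fun z => (z - z0) * (u z) ^ k) l (𝓝 0))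
    {Q : ℝ[X][X]} (hQ : Q ≠ 0) (h0 : ∀ᶠ z in l, Q.evalEval z (u z) = 0) : False := by
  set Qs := Bivariate.swap Q with hQs
  have hQs0 : Qs ≠ 0 := by
    intro h
    apply hQ
    have := (Bivariate.swap (R := ℝ)).injective (h.trans (map_zero _).symm)
    exact this
  have hev : ∀ z y : ℝ, Qs.evalEval y z = Q.evalEval z y := by
    intro z y
    have := Bivariate.aevalAeval_swap (R := ℝ) (A := ℝ) y z Q
    rw [coe_aevalAeval_eq_evalEval, coe_aevalAeval_eq_evalEval] at this
    exact this
  obtain ⟨q, hq, hndvd⟩ := exists_eq_pow_rootMultiplicity_mul_and_not_dvd Qs hQs0 (C z0)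
  set n := rootMultiplicity (C z0) Qs
  set q0 : ℝ[X] := q.eval (C z0) with hq0
  have hq00 : q0 ≠ 0 := by
    intro h
    apply hndvd
    rw [dvd_iff_isRoot]
    exact h
  obtain ⟨s, hs⟩ : (X - C (C z0)) ∣ (q - C q0) := by
    rw [dvd_iff_isRoot, IsRoot, eval_sub, eval_C, hq0, sub_self]
  have hq' : q = C q0 + (X - C (C z0)) * s := by
    rw [← hs]
    ring
  -- evaluation
  have h1 : ∀ᶠ z in l, q0.eval (u z) + (z - z0) * s.evalEval (u z) z = 0 := by
    filter_upwards [h0, hne] with z hz hzne
    have h2 : Qs.evalEval (u z) z = (z - z0) ^ n * q.evalEval (u z) z := by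
      rw [hq, evalEval_mul, evalEval_pow, evalEval_sub, evalEval_X]
      congr 2
      simp [evalEval]
    rw [hev, hz] at h2
    have h3 : q.evalEval (u z) z = 0 := by
      have : (z - z0) ^ n ≠ 0 := pow_ne_zero _ (sub_ne_zero.mpr hzne)
      rcases mul_eq_zero.mp h2.symm with h | h
      · exact absurd h this
      · exact h
    rw [hq', evalEval_add, evalEval_mul, evalEval_sub, evalEval_X, evalEval_C] at h3
    have h4 : (C (C z0) : ℝ[X][X]).evalEval (u z) z = z0 := by simp [evalEval]
    rw [h4] at h3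
    exact h3
  -- the second term tends to zero
  have h5 : Tendsto (fun z => (z - z0) * s.evalEval (u z) z) l (𝓝 0) := by
    have e1 : ∀ z, (z - z0) * s.evalEval (u z) z =
        ∑ i ∈ Finset.range (s.natDegree + 1), ((z - z0) * (s.coeff i).eval (u z)) * z ^ i := by
      intro z
      have : s.evalEval (u z) z =
          ∑ i ∈ Finset.range (s.natDegree + 1), (s.coeff i).eval (u z) * z ^ i := by
        have h2 : s.eval (C z) = ∑ i ∈ Finset.range (s.natDegree + 1), s.coeff i * (C z) ^ i :=
          eval_eq_sum_range _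
        unfold evalEval
        rw [h2, eval_finsetSum]
        apply Finset.sum_congr rfl
        intro i _
        simp
      rw [this, Finset.mul_sum]
      apply Finset.sum_congr rfl
      intro i _
      ring
    simp_rw [e1]
    have e2 : (0 : ℝ) = ∑ i ∈ Finset.range (s.natDegree + 1), (0 : ℝ) * z0 ^ i := by simp
    rw [e2]
    apply tendsto_finsetSum
    intro i _
    apply Tendsto.mul
    · have e3 : ∀ z, (z - z0) * (s.coeff i).eval (u z) =
          ∑ j ∈ Finset.range ((s.coeff i).natDegree + 1),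
            (s.coeff i).coeff j * ((z - z0) * (u z) ^ j) := by
        intro z
        rw [eval_eq_sum_range, Finset.mul_sum]
        apply Finset.sum_congr rfl
        intro j _
        ring
      simp_rw [e3]
      have e4 : (0 : ℝ) = ∑ j ∈ Finset.range ((s.coeff i).natDegree + 1),
          (s.coeff i).coeff j * 0 := by simp
      rw [e4]
      apply tendsto_finsetSum
      intro j _
      exact (hk j).const_mul _
    · exact hl.pow i
  have h6 : Tendsto (fun z => q0.eval (u z)) l (𝓝 0) := by
    have h7 : Tendsto (fun z => - ((z - z0) * s.evalEval (u z) z)) l (𝓝 0) := by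
      simpa using h5.neg
    refine h7.congr' ?_
    filter_upwards [h1] with z hz
    linarith
  -- but `q0 ≠ 0`
  rcases Nat.eq_zero_or_pos q0.natDegree with hd | hd
  · obtain ⟨c, hc⟩ : ∃ c, q0 = C c := ⟨_, eq_C_of_natDegree_eq_zero hd⟩
    have hc0 : c ≠ 0 := by
      rintro rfl
      apply hq00
      rw [hc, C_0]
    simp only [hc, eval_C] at h6
    exact hc0 (tendsto_nhds_unique tendsto_const_nhds h6)
  · have h8 : Tendsto (fun x => |q0.eval x|) atTop atTop := by
      apply Polynomial.abs_tendsto_atTop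
      exact natDegree_pos_iff_degree_pos.mp hd
    have h9 := h8.comp hu
    have h10 : Tendsto (fun z => |q0.eval (u z)|) l (𝓝 0) := by simpa using h6.abs
    exact not_tendsto_nhds_of_tendsto_atTop h9 0 h10

/-- change of variable `f = (A + B u)/C` -/
theorem transfer {P : ℝ[X][X]} (hP : P ≠ 0) {A B D : ℝ[X]} (hB : B ≠ 0) :
    ∃ Q : ℝ[X][X], Q ≠ 0 ∧ ∀ z u f : ℝ, f * D.eval z = A.eval z + B.eval z * u →
      P.evalEval z f = 0 → Q.evalEval z u = 0 := by
  set d := P.natDegree with hd
  set Q : ℝ[X][X] := ∑ j ∈ Finset.range (d + 1),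
    C (P.coeff j * D ^ (d - j)) * (C A + C B * X) ^ j with hQ
  refine ⟨Q, ?_, ?_⟩
  · intro h0
    have hlin : (C A + C B * X : ℝ[X][X]).natDegree ≤ 1 := by
      compute_degree
    have hco : Q.coeff d = P.coeff d * B ^ d := by
      rw [hQ, finsetSum_coeff, Finset.sum_range_succ]
      have h1 : ∑ j ∈ Finset.range d, (C (P.coeff j * D ^ (d - j)) * (C A + C B * X) ^ j).coeff d = 0 := by
        apply Finset.sum_eq_zero
        intro j hj
        rw [Finset.mem_range] at hj
        rw [coeff_C_mul, coeff_eq_zero_of_natDegree_lt (p := (C A + C B * X : ℝ[X][X]) ^ j), mul_zero]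
        calc ((C A + C B * X : ℝ[X][X]) ^ j).natDegree ≤ j * 1 := natDegree_pow_le_of_le j hlin
          _ < d := by omega
      rw [h1, zero_add, coeff_C_mul, Nat.sub_self, pow_zero, mul_one]
      have h2 := coeff_pow_of_natDegree_le (m := d) hlin
      rw [mul_one] at h2
      rw [h2]
      simp
    rw [h0, coeff_zero] at hco
    have h3 : P.coeff d ≠ 0 := by
      rw [hd, coeff_natDegree]
      exact leadingCoeff_ne_zero.mpr hP
    exact mul_ne_zero h3 (pow_ne_zero _ hB) hco.symm
  · intro z u f hf hPz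
    have e1 : P.evalEval z f = ∑ j ∈ Finset.range (d + 1), (P.coeff j).eval z * f ^ j := by
      have h2 : P.eval (C f) = ∑ i ∈ Finset.range (d + 1), P.coeff i * (C f) ^ i :=
        eval_eq_sum_range _
      unfold evalEval
      rw [h2, eval_finsetSum]
      apply Finset.sum_congr rfl
      intro i _
      simp
    have e2 : Q.evalEval z u = ∑ j ∈ Finset.range (d + 1),
        (P.coeff j).eval z * (D.eval z) ^ (d - j) * (A.eval z + B.eval z * u) ^ j := by
      rw [hQ, evalEval_finsetSum]
      apply Finset.sum_congr rfl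
      intro i _
      simp [evalEval]
    rw [e2, ← mul_zero ((D.eval z) ^ d), ← hPz, e1, Finset.mul_sum]
    apply Finset.sum_congr rfl
    intro j hj
    rw [Finset.mem_range] at hj
    rw [← hf, mul_pow]
    have : (D.eval z) ^ d = (D.eval z) ^ (d - j) * (D.eval z) ^ j := by
      rw [← pow_add]
      congr 1
      omega
    rw [this]
    ring

/-! ### evaluation of power series at a real point -/

def HasEv (z : ℝ) (f : PowerSeries ℚ) (a : ℝ) : Prop :=
  Summable (fun n => ‖((PowerSeries.coeff n f : ℚ) : ℝ) * z ^ n‖) ∧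
    ∑' n, ((PowerSeries.coeff n f : ℚ) : ℝ) * z ^ n = a

variable {z : ℝ} {f g : PowerSeries ℚ} {a b : ℝ}

theorem HasEv.add (hf : HasEv z f a) (hg : HasEv z g b) : HasEv z (f + g) (a + b) := by
  constructor
  · refine Summable.of_nonneg_of_le (fun n => norm_nonneg _) (fun n => ?_) (hf.1.add hg.1)
    rw [map_add]
    push_cast
    rw [add_mul]
    exact norm_add_le _ _
  · rw [← hf.2, ← hg.2, ← (hf.1.of_norm).tsum_add hg.1.of_norm]
    congr 1
    ext n
    rw [map_add]
    push_cast
    ring

theorem HasEv.zero : HasEv z 0 0 := by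
  constructor
  · simp
  · simp

theorem HasEv.mul (hf : HasEv z f a) (hg : HasEv z g b) : HasEv z (f * g) (a * b) := by
  have hco : ∀ n, ((PowerSeries.coeff n (f * g) : ℚ) : ℝ) * z ^ n =
      ∑ kl ∈ Finset.HasAntidiagonal.antidiagonal n, (((PowerSeries.coeff kl.1 f : ℚ) : ℝ) * z ^ kl.1) *
        (((PowerSeries.coeff kl.2 g : ℚ) : ℝ) * z ^ kl.2) := by
    intro n
    rw [PowerSeries.coeff_mul]
    push_cast
    rw [Finset.sum_mul]
    apply Finset.sum_congr rfl
    intro kl hkl
    rw [Finset.HasAntidiagonal.mem_antidiagonal] at hkl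
    rw [← hkl, pow_add]
    ring
  constructor
  · have := summable_norm_sum_mul_antidiagonal_of_summable_norm hf.1 hg.1
    refine this.congr (fun n => ?_)
    rw [hco]
  · rw [← hf.2, ← hg.2, tsum_mul_tsum_eq_tsum_sum_antidiagonal_of_summable_norm hf.1 hg.1]
    congr 1
    ext n
    rw [hco]

theorem HasEv.poly (p : ℚ[X]) : HasEv z (p : PowerSeries ℚ) (p.eval₂ (algebraMap ℚ ℝ) z) := by
  have hz : ∀ n, n ∉ Finset.range (p.natDegree + 1) →
      ((PowerSeries.coeff n (p : PowerSeries ℚ) : ℚ) : ℝ) * z ^ n = 0 := by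
    intro n hn
    rw [Finset.mem_range, not_lt] at hn
    rw [Polynomial.coeff_coe, coeff_eq_zero_of_natDegree_lt (by omega)]
    simp
  constructor
  · apply summable_of_ne_finset_zero (s := Finset.range (p.natDegree + 1))
    intro n hn
    rw [hz n hn, norm_zero]
  · rw [tsum_eq_sum hz, eval₂_eq_sum_range]
    apply Finset.sum_congr rfl
    intro n _
    rw [Polynomial.coeff_coe]
    rfl

theorem HasEv.one : HasEv z 1 1 := by
  have := HasEv.poly (z := z) (1 : ℚ[X])
  simpa using this

theorem HasEv.pow (hf : HasEv z f a) (n : ℕ) : HasEv z (f ^ n) (a ^ n) := by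
  induction n with
  | zero => simpa using HasEv.one
  | succ n ih =>
    rw [pow_succ, pow_succ]
    exact ih.mul hf

theorem HasEv.sum {ι : Type*} (s : Finset ι) {F : ι → PowerSeries ℚ} {c : ι → ℝ}
    (h : ∀ i ∈ s, HasEv z (F i) (c i)) : HasEv z (∑ i ∈ s, F i) (∑ i ∈ s, c i) := by
  classical
  induction s using Finset.induction_on with
  | empty => simpa using HasEv.zero
  | insert i s hi ih =>
    rw [Finset.sum_insert hi, Finset.sum_insert hi]
    exact (h i (Finset.mem_insert_self _ _)).add (ih (fun j hj => h j (Finset.mem_insert_of_mem hj)))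

theorem HasEv.relation (hf : HasEv z f a) (P : ℚ[X][X]) :
    HasEv z (P.eval₂ (Polynomial.coeToPowerSeries.ringHom) f)
      ((P.map (mapRingHom (algebraMap ℚ ℝ))).evalEval z a) := by
  have e1 : (P.map (mapRingHom (algebraMap ℚ ℝ))).evalEval z a =
      ∑ j ∈ Finset.range (P.natDegree + 1), (P.coeff j).eval₂ (algebraMap ℚ ℝ) z * a ^ j := by
    have h1 : (P.map (mapRingHom (algebraMap ℚ ℝ))).natDegree ≤ P.natDegree := natDegree_map_le
    unfold evalEval
    rw [eval_eq_sum_range' (Nat.lt_succ_of_le h1), eval_finsetSum]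
    apply Finset.sum_congr rfl
    intro i _
    simp [eval_map]
  rw [e1, eval₂_eq_sum_range]
  apply HasEv.sum
  intro i _
  apply HasEv.mul
  · exact HasEv.poly _
  · exact hf.pow i

theorem HasEv.relation_zero (hf : HasEv z f a) (P : ℚ[X][X])
    (h : P.eval₂ (Polynomial.coeToPowerSeries.ringHom) f = 0) :
    (P.map (mapRingHom (algebraMap ℚ ℝ))).evalEval z a = 0 := by
  have h1 := hf.relation P
  rw [h] at h1
  rw [← h1.2]
  simp

theorem map_ne_zero' {P : ℚ[X][X]} (h : P ≠ 0) : P.map (mapRingHom (algebraMap ℚ ℝ)) ≠ 0 := by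
  rw [Ne, Polynomial.map_eq_zero_iff]
  · exact h
  · exact Polynomial.map_injective _ (algebraMap ℚ ℝ).injective

end Pool.Agent.R635.Trans
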