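import Pool.Agent.R635.Limit
import Pool.Agent.R635.Trans

set_option autoImplicit false

namespace Pool.Agent.R635.OR

open Filter Topology ENNReal Polynomial

theorem finite_len (k : ℕ) : Finite {g : GG // len g = k} := by
  have h1 : Set.Finite {L : List (Fin 2 × Bool) | L.length = k} := List.finite_length_eq _ k
  have h2 := h1.image (fun L => (QuotientGroup.mk (FreeGroup.mk L) : GG))
  have h3 : {g : GG | len g = k} ⊆
      (fun L => (QuotientGroup.mk (FreeGroup.mk L) : GG)) '' {L : List (Fin 2 × Bool) | L.length = k} := by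
    intro g hg
    obtain ⟨w, hw, hl⟩ := len_spec g
    refine ⟨FreeGroup.toWord w, ?_, ?_⟩
    · show (FreeGroup.toWord w).length = k
      rw [hl]
      exact hg
    · simp only [FreeGroup.mk_toWord, hw]
  exact (h2.subset h3).to_subtype

theorem tsum_len (z : ℝ≥0∞) :
    ∑' g : GG, z ^ len g = ∑' k : ℕ, (Nat.card {g : GG // len g = k} : ℝ≥0∞) * z ^ k := by
  rw [← (Equiv.sigmaFiberEquiv (len : GG → ℕ)).tsum_eq, ENNReal.tsum_sigma']
  congr 1
  ext k
  have h1 : ∀ g : {g : GG // len g = k},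
      z ^ len ((Equiv.sigmaFiberEquiv (len : GG → ℕ)) ⟨k, g⟩) = z ^ k := by
    intro g
    congr 1
    exact g.2
  rw [tsum_congr h1, ENNReal.tsum_const]
  have := finite_len k
  rw [ENat.card_eq_coe_natCard]
  simp

theorem hasEv {z : ℝ} (h : Good z) (c : ℕ → ℚ)
    (hc : ∀ k, c k = (Nat.card {g : GG // len g = k} : ℚ)) :
    Trans.HasEv z (PowerSeries.mk c) (Sz z) := by
  have hz := h.pos.le
  have hco : ∀ n, ((PowerSeries.coeff n (PowerSeries.mk c) : ℚ) : ℝ) * z ^ n =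
      (Nat.card {g : GG // len g = n} : ℝ) * z ^ n := by
    intro n
    rw [PowerSeries.coeff_mk, hc]
    push_cast
    rfl
  have hnn : ∀ n : ℕ, 0 ≤ (Nat.card {g : GG // len g = n} : ℝ) * z ^ n := fun n => by positivity
  have e1 : ∑' n : ℕ, ENNReal.ofReal ((Nat.card {g : GG // len g = n} : ℝ) * z ^ n) =
      ENNReal.ofReal (Sz z) := by
    rw [← h.S_eq, tsum_len]
    congr 1
    ext n
    rw [ENNReal.ofReal_mul (Nat.cast_nonneg _), ENNReal.ofReal_natCast, ENNReal.ofReal_pow hz]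
  have hsum : Summable (fun n : ℕ => (Nat.card {g : GG // len g = n} : ℝ) * z ^ n) := by
    have h2 : ∑' n : ℕ, ENNReal.ofReal ((Nat.card {g : GG // len g = n} : ℝ) * z ^ n) ≠ ⊤ := by
      rw [e1]
      exact ENNReal.ofReal_ne_top
    have h3 := ENNReal.summable_toReal h2
    refine h3.congr (fun n => ?_)
    rw [ENNReal.toReal_ofReal (hnn n)]
  constructor
  · simp_rw [hco]
    refine hsum.congr (fun n => ?_)
    rw [Real.norm_of_nonneg (hnn n)]
  · simp_rw [hco]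
    rw [← ENNReal.ofReal_tsum_of_nonneg hnn hsum] at e1
    have h4 : 0 ≤ ∑' n : ℕ, (Nat.card {g : GG // len g = n} : ℝ) * z ^ n := tsum_nonneg hnn
    exact (ENNReal.ofReal_eq_ofReal_iff h4 Sz_nonneg).mp e1

noncomputable def DP : ℝ[X] := 1 - Polynomial.X - Polynomial.X ^ 2 - Polynomial.X ^ 3
noncomputable def PA : ℝ[X] :=
  2 * (1 - Polynomial.X ^ 3) * DP + 2 * (Polynomial.X ^ 2 + Polynomial.X ^ 4 + 3 * Polynomial.X ^ 5) - (2 + Polynomial.X + 2 * Polynomial.X ^ 2) * DP ^ 2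
noncomputable def PB : ℝ[X] := (1 - Polynomial.X ^ 3) * DP
noncomputable def PD : ℝ[X] := Polynomial.X * DP ^ 2

theorem DP_eval (z : ℝ) : DP.eval z = Dd z := by simp [DP, Dd]

theorem PB_ne : PB ≠ 0 := by
  intro h
  have : PB.eval 2 = 0 := by rw [h]; simp
  simp [PB, DP] at this
  norm_num at this

theorem key_eq {z : ℝ} (h : Good z) :
    Sz z * PD.eval z = PA.eval z + PB.eval z * uu z := by
  have h1 := h.ep_pos
  have h2 := h.ep_eq
  have h3 : (1 - z ^ 3) ≠ 0 := by linarith [h.cube]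
  have h4 : Dd z ≠ 0 := h.D.ne'
  have e1 : uu z * (1 - z ^ 3) ^ 1 * Dd z = Dd z ^ 2 * (z * Sz z + (2 + z + 2 * z ^ 2)) -
      Dd z ^ 2 * Wr z := by
    unfold uu
    rw [h2]
    field_simp
  have e2 : Dd z ^ 2 * Wr z = 2 * (1 - z ^ 3) * Dd z + 2 * (z ^ 2 + z ^ 4 + 3 * z ^ 5) := by
    unfold Wr phi
    rw [h2]
    field_simp
    ring
  have e3 : PD.eval z = z * Dd z ^ 2 := by simp [PD, DP_eval]
  have e4 : PB.eval z = (1 - z ^ 3) * Dd z := by simp [PB, DP_eval]
  have e5 : PA.eval z = 2 * (1 - z ^ 3) * Dd z + 2 * (z ^ 2 + z ^ 4 + 3 * z ^ 5) -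
      (2 + z + 2 * z ^ 2) * Dd z ^ 2 := by simp [PA, DP_eval]
  rw [e3, e4, e5]
  rw [e2, pow_one] at e1
  linarith

theorem main (c : ℕ → ℚ) (hc : ∀ k, c k = (Nat.card {g : GG // len g = k} : ℚ))
    {P : ℚ[X][X]} (hP : P ≠ 0)
    (h : P.eval₂ (Polynomial.coeToPowerSeries.ringHom) (PowerSeries.mk c) = 0) : False := by
  obtain ⟨Q, hQ, hQ2⟩ := Trans.transfer (Trans.map_ne_zero' hP) (A := PA) (D := PD) PB_ne
  have hl : Tendsto (fun z : ℝ => z) (𝓝[<] z0) (𝓝 z0) := tendsto_id.mono_left nhdsWithin_le_nhds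
  have hne : ∀ᶠ z in 𝓝[<] z0, z ≠ z0 := by
    filter_upwards [eventually_good] with z hz
    exact hz.2.ne
  apply Trans.no_relation hl hne tendsto_uu tendsto_pow hQ
  filter_upwards [eventually_good] with z hz
  have hg := good_of (by linarith [hz.1]) hz.2
  exact hQ2 z (uu z) (Sz z) (key_eq hg) ((hasEv hg c hc).relation_zero P h)

end Pool.Agent.R635.OR
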