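import Pool.Agent.R635.Reach

set_option autoImplicit false

namespace Pool.Agent.R635.OR

open Pre

/-! ### normal forms in a group with `(v x⁻¹)^4 = x^2` -/

section nf

variable {H : Type*} [Group H] (x v : H)

def nfP : Pre → H
  | bot a => if a then x⁻¹ else 1
  | cons q m t => (v * x⁻¹) ^ (if q then 3 else 1) * x * ((v * x⁻¹) ^ 2 * x) ^ m * nfP t

def nfW : Pre → H
  | bot _ => 1
  | cons q m t => (if q then x else 1) * ((v * x⁻¹) ^ 2 * x) ^ m * nfP x v t

variable {x v}

theorem comm_x : Commute (x ^ 2) x := (Commute.refl x).pow_left 2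

theorem comm_y (h : (v * x⁻¹) ^ 4 = x ^ 2) : Commute (x ^ 2) (v * x⁻¹) := by
  rw [← h]
  exact (Commute.refl _).pow_left 4

theorem comm_v (h : (v * x⁻¹) ^ 4 = x ^ 2) : Commute (x ^ 2) v := by
  have := (comm_y h).mul_right comm_x
  simpa using this

theorem nfW_nrm (q : Bool) (m : ℕ) (t : Pre) :
    ∃ k : ℤ, nfW x v (cons q m t) = (x ^ 2) ^ k * nfW x v (nrm (cons q m t)) := by
  by_cases hv : Val (cons q m t)
  · exact ⟨0, by simp [nrm_of_val hv]⟩
  rcases q with _ | _ <;> rcases m with _ | m <;> rcases t with a | ⟨q', m', t'⟩ <;>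
    simp only [Val, not_true_eq_false, not_false_eq_true] at hv
  rcases a with _ | _
  · refine ⟨1, ?_⟩
    simp [nrm, nfW, nfP, pow_two]
  · refine ⟨0, ?_⟩
    simp [nrm, nfW, nfP]

theorem nfW_X {s : Pre} (hs : Val s) :
    ∃ k : ℤ, x * nfW x v s = (x ^ 2) ^ k * nfW x v (X s) := by
  rcases s with a | ⟨q, m, t⟩
  · exact absurd hs (by simp [Val])
  · obtain ⟨k, hk⟩ := nfW_nrm (x := x) (v := v) (!q) m t
    rcases q with _ | _
    · refine ⟨k, ?_⟩
      show _ = _ * nfW x v (nrm (cons (!false) m t))
      rw [← hk]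
      simp [nfW, mul_assoc]
    · refine ⟨1 + k, ?_⟩
      show _ = _ * nfW x v (nrm (cons (!true) m t))
      rw [zpow_add, mul_assoc, ← hk]
      simp [nfW, mul_assoc, pow_two]

theorem nfW_V (h : (v * x⁻¹) ^ 4 = x ^ 2) {s : Pre} (hs : Val s) :
    ∃ k : ℤ, v * nfW x v s = (x ^ 2) ^ k * nfW x v (V s) := by
  have hc := comm_y h
  set y := v * x⁻¹ with hy
  have hv : v = y * x := by simp [hy]
  have e1 : ∀ g : H, v * (x * g) = x ^ 2 * (y * g) := by
    intro g
    rw [← mul_assoc (x ^ 2), hc.eq, hv]
    simp [mul_assoc, pow_two]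
  rcases s with a | ⟨q, m, t⟩
  · exact absurd hs (by simp [Val])
  · rcases q with _ | _
    · refine ⟨0, ?_⟩
      simp only [nfW, V, nfP, ← hy, zpow_zero, one_mul, reduceIte, Bool.false_eq_true, pow_zero,
        pow_one, mul_assoc]
      nth_rw 1 [hv]
      simp only [mul_assoc]
    · rcases m with _ | m
      · rcases t with a | ⟨q', m', t'⟩
        · exact absurd hs (by simp [Val])
        · rcases q' with _ | _
          · refine ⟨1, ?_⟩
            simp only [nfW, V, nfP, ← hy, zpow_one, one_mul, reduceIte, Bool.false_eq_true,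
              pow_zero, pow_one, mul_assoc, e1]
            rw [pow_succ' (y ^ 2 * x)]
            simp only [pow_two, mul_assoc]
          · obtain ⟨k, hk⟩ := nfW_nrm (x := x) (v := v) true m' t'
            refine ⟨2 + k, ?_⟩
            show _ = _ * nfW x v (nrm (cons true m' t'))
            rw [zpow_add, mul_assoc, ← hk]
            simp only [nfW, nfP, ← hy, one_mul, reduceIte, pow_zero, mul_assoc, e1]
            have : ∀ g : H, y * (y ^ 3 * g) = x ^ 2 * g := by
              intro g
              rw [← mul_assoc, ← pow_succ', h]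
            rw [this]
            simp only [zpow_ofNat, pow_two, mul_assoc]
      · refine ⟨1, ?_⟩
        simp only [nfW, V, nfP, ← hy, zpow_one, one_mul, reduceIte, Bool.false_eq_true,
          pow_zero, pow_one, mul_assoc, e1]
        rw [pow_succ' (y ^ 2 * x)]
        simp only [pow_succ, pow_zero, one_mul, mul_assoc]

end nf

/-! ### the group -/

abbrev F2 := FreeGroup (Fin 2)

def gx : F2 := FreeGroup.of 0
def gv : F2 := FreeGroup.of 1
def rel : F2 := (gv * gx⁻¹) ^ 4 * (gx ^ 2)⁻¹

abbrev GG := F2 ⧸ Subgroup.normalClosure ({rel} : Set F2)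

abbrev Om := {s : Pre // Val s}

def permX : Equiv.Perm Om where
  toFun s := ⟨X s.1, val_X s.2⟩
  invFun s := ⟨X s.1, val_X s.2⟩
  left_inv s := Subtype.ext (X_X s.2)
  right_inv s := Subtype.ext (X_X s.2)

def permV : Equiv.Perm Om where
  toFun s := ⟨V s.1, val_V s.2⟩
  invFun s := ⟨Vi s.1, val_Vi s.2⟩
  left_inv s := Subtype.ext (Vi_V s.2)
  right_inv s := Subtype.ext (V_Vi s.2)

def act : F2 →* Equiv.Perm Om := FreeGroup.lift ![permX, permV]

def ee : F2 →* Multiplicative ℤ := FreeGroup.lift ![Multiplicative.ofAdd 2, Multiplicative.ofAdd 3]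

@[simp] theorem act_gx : act gx = permX := by simp [act, gx]
@[simp] theorem act_gv : act gv = permV := by simp [act, gv]
@[simp] theorem ee_gx : ee gx = Multiplicative.ofAdd 2 := by simp [ee, gx]
@[simp] theorem ee_gv : ee gv = Multiplicative.ofAdd 3 := by simp [ee, gv]

theorem permX_inv : permX⁻¹ = permX := by
  ext s
  rfl

theorem act_rel : act rel = 1 := by
  have h1 : permX ^ 2 = 1 := by
    rw [pow_two]
    nth_rw 1 [← permX_inv]
    simp
  have h2 : (permV * permX) ^ 4 = 1 := by
    apply Equiv.ext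
    intro s
    apply Subtype.ext
    exact Y4 s.2
  simp [rel, permX_inv, h1, h2]

theorem ee_rel : ee rel = 1 := by
  simp only [rel, map_mul, map_pow, map_inv, ee_gx, ee_gv]
  decide

def actG : GG →* Equiv.Perm Om :=
  QuotientGroup.lift _ act (by
    intro g hg
    have : Subgroup.normalClosure ({rel} : Set F2) ≤ act.ker := by
      apply Subgroup.normalClosure_le_normal
      intro g hg
      rw [Set.mem_singleton_iff] at hg
      rw [hg]
      exact act_rel
    exact this hg)

def eeG : GG →* Multiplicative ℤ :=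
  QuotientGroup.lift _ ee (by
    intro g hg
    have : Subgroup.normalClosure ({rel} : Set F2) ≤ ee.ker := by
      apply Subgroup.normalClosure_le_normal
      intro g hg
      rw [Set.mem_singleton_iff] at hg
      rw [hg]
      exact ee_rel
    exact this hg)

@[simp] theorem actG_mk (g : F2) : actG (QuotientGroup.mk g) = act g := rfl
@[simp] theorem eeG_mk (g : F2) : eeG (QuotientGroup.mk g) = ee g := rfl

def b0 : Om := ⟨cons false 0 (bot false), trivial⟩

def stG (g : GG) : Om := actG g b0

def enG (g : GG) : ℤ := Multiplicative.toAdd (eeG g)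

def qx : GG := QuotientGroup.mk gx
def qv : GG := QuotientGroup.mk gv

theorem qrel : (qv * qx⁻¹) ^ 4 = qx ^ 2 := by
  have h : (QuotientGroup.mk rel : GG) = 1 := by
    rw [QuotientGroup.eq_one_iff]
    exact Subgroup.subset_normalClosure (Set.mem_singleton _)
  have h2 : (QuotientGroup.mk rel : GG) = (qv * qx⁻¹) ^ 4 * (qx ^ 2)⁻¹ := rfl
  rw [h2] at h
  exact mul_inv_eq_one.mp h

/-- every element is a central power times the normal form of its state -/
theorem mk_list (L : List (Fin 2 × Bool)) :
    (∃ k : ℤ, (QuotientGroup.mk (FreeGroup.mk L) : GG) =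
      (qx ^ 2) ^ k * nfW qx qv (stG (QuotientGroup.mk (FreeGroup.mk L))).1) ∧
    Reach (stG (QuotientGroup.mk (FreeGroup.mk L))).1 L.length
      (enG (QuotientGroup.mk (FreeGroup.mk L))) := by
  induction L with
  | nil =>
    refine ⟨⟨0, ?_⟩, ?_⟩
    · have : (FreeGroup.mk [] : F2) = 1 := rfl
      rw [this, QuotientGroup.mk_one]
      simp [stG, b0, nfW, nfP]
    · have : (FreeGroup.mk [] : F2) = 1 := rfl
      rw [this, QuotientGroup.mk_one]
      simp only [stG, enG, map_one, List.length_nil]
      exact Reach.base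
  | cons a L ih =>
    obtain ⟨⟨k, hk⟩, hR⟩ := ih
    obtain ⟨i, b⟩ := a
    have hmul : (FreeGroup.mk ((i, b) :: L) : F2) = FreeGroup.mk [(i, b)] * FreeGroup.mk L := by
      rw [FreeGroup.mul_mk]
      rfl
    set g : GG := QuotientGroup.mk (FreeGroup.mk L) with hg
    have hval := (stG g).2
    rw [hmul, QuotientGroup.mk_mul, ← hg]
    have hcx : Commute (qx ^ 2) qx := comm_x
    have hcv : Commute (qx ^ 2) qv := comm_v qrel
    fin_cases i
    · rcases b with _ | _
      · -- x inverse
        have e1 : (QuotientGroup.mk (FreeGroup.mk [((0 : Fin 2), false)]) : GG) = qx⁻¹ := rfl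
        have e2 : (QuotientGroup.mk (FreeGroup.mk [((0 : Fin 2), false)]) : GG) = qx⁻¹ := rfl
        simp only [Fin.zero_eta, Fin.isValue] at *
        rw [e1]
        have hst : (stG (qx⁻¹ * g)).1 = X (stG g).1 := by
          simp only [stG, map_mul, map_inv]
          have : actG qx = permX := by simp [qx]
          rw [this, permX_inv]
          rfl
        have hen : enG (qx⁻¹ * g) = enG g - 2 := by
          simp only [enG, map_mul, map_inv]
          have : eeG qx = Multiplicative.ofAdd 2 := by simp [qx]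
          rw [this]
          simp
          ring
        rw [hst, hen]
        refine ⟨?_, hR.X2⟩
        obtain ⟨k', hk'⟩ := nfW_X (x := qx) (v := qv) (val_X hval)
        rw [X_X hval] at hk'
        refine ⟨k - k', ?_⟩
        nth_rw 1 [hk]
        have h3 : nfW qx qv (stG g).1 = ((qx ^ 2) ^ k')⁻¹ * (qx * nfW qx qv (X (stG g).1)) := by
          rw [hk']
          simp
        rw [h3, ← mul_assoc, ← mul_assoc, ← mul_assoc]
        congr 1
        have h4 : Commute ((qx ^ 2) ^ k) qx := hcx.zpow_left k
        have h5 : Commute (((qx ^ 2) ^ k')⁻¹) qx := (hcx.zpow_left k').inv_left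
        have h6 : Commute ((qx ^ 2) ^ k * ((qx ^ 2) ^ k')⁻¹) qx := h4.mul_left h5
        rw [zpow_sub, mul_assoc qx⁻¹, mul_assoc qx⁻¹, h6.eq]
        simp
      · have e1 : (QuotientGroup.mk (FreeGroup.mk [((0 : Fin 2), true)]) : GG) = qx := rfl
        simp only [Fin.zero_eta, Fin.isValue] at *
        rw [e1]
        have hst : (stG (qx * g)).1 = X (stG g).1 := by
          simp only [stG, map_mul]
          have : actG qx = permX := by simp [qx]
          rw [this]
          rfl
        have hen : enG (qx * g) = enG g + 2 := by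
          simp only [enG, map_mul]
          have : eeG qx = Multiplicative.ofAdd 2 := by simp [qx]
          rw [this]
          simp
          ring
        rw [hst, hen]
        refine ⟨?_, hR.X1⟩
        obtain ⟨k', hk'⟩ := nfW_X (x := qx) (v := qv) hval
        refine ⟨k + k', ?_⟩
        nth_rw 1 [hk]
        have h4 : Commute ((qx ^ 2) ^ k) qx := hcx.zpow_left k
        rw [← mul_assoc, ← h4.eq, mul_assoc, hk', zpow_add, mul_assoc]
    · rcases b with _ | _
      · have e1 : (QuotientGroup.mk (FreeGroup.mk [((1 : Fin 2), false)]) : GG) = qv⁻¹ := rfl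
        simp only [Fin.mk_one, Fin.isValue] at *
        rw [e1]
        have hst : (stG (qv⁻¹ * g)).1 = Vi (stG g).1 := by
          simp only [stG, map_mul, map_inv]
          have : actG qv = permV := by simp [qv]
          rw [this]
          rfl
        have hen : enG (qv⁻¹ * g) = enG g - 3 := by
          simp only [enG, map_mul, map_inv]
          have : eeG qv = Multiplicative.ofAdd 3 := by simp [qv]
          rw [this]
          simp
          ring
        rw [hst, hen]
        refine ⟨?_, hR.V2⟩
        obtain ⟨k', hk'⟩ := nfW_V (x := qx) (v := qv) qrel (val_Vi hval)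
        rw [V_Vi hval] at hk'
        refine ⟨k - k', ?_⟩
        nth_rw 1 [hk]
        have h3 : nfW qx qv (stG g).1 = ((qx ^ 2) ^ k')⁻¹ * (qv * nfW qx qv (Vi (stG g).1)) := by
          rw [hk']
          simp
        rw [h3, ← mul_assoc, ← mul_assoc, ← mul_assoc]
        congr 1
        have h4 : Commute ((qx ^ 2) ^ k) qv := hcv.zpow_left k
        have h5 : Commute (((qx ^ 2) ^ k')⁻¹) qv := (hcv.zpow_left k').inv_left
        have h6 : Commute ((qx ^ 2) ^ k * ((qx ^ 2) ^ k')⁻¹) qv := h4.mul_left h5
        rw [zpow_sub, mul_assoc qv⁻¹, mul_assoc qv⁻¹, h6.eq]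
        simp
      · have e1 : (QuotientGroup.mk (FreeGroup.mk [((1 : Fin 2), true)]) : GG) = qv := rfl
        simp only [Fin.mk_one, Fin.isValue] at *
        rw [e1]
        have hst : (stG (qv * g)).1 = V (stG g).1 := by
          simp only [stG, map_mul]
          have : actG qv = permV := by simp [qv]
          rw [this]
          rfl
        have hen : enG (qv * g) = enG g + 3 := by
          simp only [enG, map_mul]
          have : eeG qv = Multiplicative.ofAdd 3 := by simp [qv]
          rw [this]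
          simp
          ring
        rw [hst, hen]
        refine ⟨?_, hR.V1⟩
        obtain ⟨k', hk'⟩ := nfW_V (x := qx) (v := qv) qrel hval
        refine ⟨k + k', ?_⟩
        nth_rw 1 [hk]
        have h4 : Commute ((qx ^ 2) ^ k) qv := hcv.zpow_left k
        rw [← mul_assoc, ← h4.eq, mul_assoc, hk', zpow_add, mul_assoc]

theorem exists_nf (g : GG) : ∃ k : ℤ, g = (qx ^ 2) ^ k * nfW qx qv (stG g).1 := by
  obtain ⟨u, rfl⟩ := QuotientGroup.mk_surjective g
  have := (mk_list (FreeGroup.toWord u)).1
  rwa [FreeGroup.mk_toWord] at this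

theorem reach_of_word (u : F2) :
    Reach (stG (QuotientGroup.mk u)).1 (FreeGroup.toWord u).length (enG (QuotientGroup.mk u)) := by
  have := (mk_list (FreeGroup.toWord u)).2
  rwa [FreeGroup.mk_toWord] at this

theorem eeG_c (k : ℤ) : eeG ((qx ^ 2) ^ k) = Multiplicative.ofAdd (4 * k) := by
  have : eeG qx = Multiplicative.ofAdd 2 := by simp [qx]
  rw [map_zpow, map_pow, this, ← ofAdd_nsmul, ← ofAdd_zsmul]
  congr 1
  simp
  ring

theorem actG_c (k : ℤ) : actG ((qx ^ 2) ^ k) = 1 := by
  have : actG qx = permX := by simp [qx]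
  rw [map_zpow, map_pow, this]
  have h1 : permX ^ 2 = 1 := by
    rw [pow_two]
    nth_rw 1 [← permX_inv]
    simp
  rw [h1, one_zpow]

theorem st_c (k : ℤ) (g : GG) : stG ((qx ^ 2) ^ k * g) = stG g := by
  simp [stG, actG_c]

theorem en_c (k : ℤ) (g : GG) : enG ((qx ^ 2) ^ k * g) = enG g + 4 * k := by
  simp only [enG, map_mul, eeG_c]
  simp
  ring

theorem inj {g g' : GG} (hs : stG g = stG g') (he : enG g = enG g') : g = g' := by
  obtain ⟨k, hk⟩ := exists_nf g
  obtain ⟨k', hk'⟩ := exists_nf g'
  have h1 : enG g = enG (nfW qx qv (stG g).1) + 4 * k := by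
    nth_rw 1 [hk]
    rw [en_c]
  have h2 : enG g' = enG (nfW qx qv (stG g').1) + 4 * k' := by
    nth_rw 1 [hk']
    rw [en_c]
  rw [← hs, ← he, h1] at h2
  have : k = k' := by omega
  rw [hk, hk', hs, this]

/-- two elements with the same state differ by a central power -/
theorem exists_c {g g' : GG} (hs : stG g = stG g') : ∃ k : ℤ, g = (qx ^ 2) ^ k * g' := by
  obtain ⟨k, hk⟩ := exists_nf g
  obtain ⟨k', hk'⟩ := exists_nf g'
  refine ⟨k - k', ?_⟩
  rw [hk, hk', hs, zpow_sub]
  simp

theorem word_of_reach {s : Pre} {n : ℕ} {e : ℤ} (h : Reach s n e) :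
    ∃ L : List (Fin 2 × Bool), L.length = n ∧
      (stG (QuotientGroup.mk (FreeGroup.mk L))).1 = s ∧
      enG (QuotientGroup.mk (FreeGroup.mk L)) = e := by
  induction h with
  | base =>
    refine ⟨[], rfl, ?_, ?_⟩
    · have : (FreeGroup.mk [] : F2) = 1 := rfl
      rw [this, QuotientGroup.mk_one]
      simp [stG, b0]
    · have : (FreeGroup.mk [] : F2) = 1 := rfl
      rw [this, QuotientGroup.mk_one]
      simp [enG]
  | @X1 s n e h ih =>
    obtain ⟨L, hL, hs, he⟩ := ih
    refine ⟨(0, true) :: L, by simp [hL], ?_, ?_⟩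
    · have hmul : (FreeGroup.mk ((0, true) :: L) : F2) = gx * FreeGroup.mk L := by
        rw [gx, FreeGroup.of, FreeGroup.mul_mk]; rfl
      rw [hmul, QuotientGroup.mk_mul]
      simp only [stG, map_mul, actG_mk, act_gx]
      rw [← hs]
      rfl
    · have hmul : (FreeGroup.mk ((0, true) :: L) : F2) = gx * FreeGroup.mk L := by
        rw [gx, FreeGroup.of, FreeGroup.mul_mk]; rfl
      rw [hmul, QuotientGroup.mk_mul]
      simp only [enG, map_mul, eeG_mk, ee_gx] at he ⊢
      rw [← he]
      simp
      ring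
  | @X2 s n e h ih =>
    obtain ⟨L, hL, hs, he⟩ := ih
    have hmul : (FreeGroup.mk ((0, false) :: L) : F2) = gx⁻¹ * FreeGroup.mk L := by
      rw [gx, FreeGroup.of, FreeGroup.inv_mk, FreeGroup.mul_mk]; rfl
    refine ⟨(0, false) :: L, by simp [hL], ?_, ?_⟩
    · rw [hmul, QuotientGroup.mk_mul]
      simp only [stG, map_mul, actG_mk, map_inv, act_gx, permX_inv]
      rw [← hs]
      rfl
    · rw [hmul, QuotientGroup.mk_mul]
      simp only [enG, map_mul, eeG_mk, map_inv, ee_gx] at he ⊢
      rw [← he]
      simp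
      ring
  | @V1 s n e h ih =>
    obtain ⟨L, hL, hs, he⟩ := ih
    have hmul : (FreeGroup.mk ((1, true) :: L) : F2) = gv * FreeGroup.mk L := by
      rw [gv, FreeGroup.of, FreeGroup.mul_mk]; rfl
    refine ⟨(1, true) :: L, by simp [hL], ?_, ?_⟩
    · rw [hmul, QuotientGroup.mk_mul]
      simp only [stG, map_mul, actG_mk, act_gv]
      rw [← hs]
      rfl
    · rw [hmul, QuotientGroup.mk_mul]
      simp only [enG, map_mul, eeG_mk, ee_gv] at he ⊢
      rw [← he]
      simp
      ring
  | @V2 s n e h ih =>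
    obtain ⟨L, hL, hs, he⟩ := ih
    have hmul : (FreeGroup.mk ((1, false) :: L) : F2) = gv⁻¹ * FreeGroup.mk L := by
      rw [gv, FreeGroup.of, FreeGroup.inv_mk, FreeGroup.mul_mk]; rfl
    refine ⟨(1, false) :: L, by simp [hL], ?_, ?_⟩
    · rw [hmul, QuotientGroup.mk_mul]
      simp only [stG, map_mul, actG_mk, map_inv, act_gv]
      rw [← hs]
      rfl
    · rw [hmul, QuotientGroup.mk_mul]
      simp only [enG, map_mul, eeG_mk, map_inv, ee_gv] at he ⊢
      rw [← he]
      simp
      ring

end Pool.Agent.R635.OR
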