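import Pool.Agent.R635.RealPart

set_option autoImplicit false

namespace Pool.Agent.R635.OR

open Filter Topology

theorem exists_z0 : ∃ z0 : ℝ, 1 / 2 < z0 ∧ z0 < 1 ∧ Dd z0 = 0 := by
  have hc : ContinuousOn Dd (Set.Icc (1/2) 1) := by
    unfold Dd
    fun_prop
  have h := intermediate_value_Icc' (by norm_num : (1/2 : ℝ) ≤ 1) hc
  have h0 : (0 : ℝ) ∈ Set.Icc (Dd 1) (Dd (1/2)) := by
    unfold Dd
    constructor <;> norm_num
  obtain ⟨z, hz, hz0⟩ := h h0
  refine ⟨z, lt_of_le_of_ne hz.1 ?_, lt_of_le_of_ne hz.2 ?_, hz0⟩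
  · rintro rfl
    unfold Dd at hz0
    norm_num at hz0
  · rintro rfl
    unfold Dd at hz0
    norm_num at hz0

noncomputable def z0 : ℝ := exists_z0.choose

theorem z0_gt : 1 / 2 < z0 := exists_z0.choose_spec.1
theorem z0_lt : z0 < 1 := exists_z0.choose_spec.2.1
theorem D_z0 : Dd z0 = 0 := exists_z0.choose_spec.2.2

theorem Dd_ge {z : ℝ} (h1 : 0 < z) (h2 : z < z0) : z0 - z ≤ Dd z := by
  have h3 := D_z0
  have h4 : Dd z = Dd z - Dd z0 := by rw [h3, sub_zero]
  rw [h4]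
  unfold Dd
  have h5 := z0_gt
  have h6 : 1 - z - z ^ 2 - z ^ 3 - (1 - z0 - z0 ^ 2 - z0 ^ 3) =
      (z0 - z) * (1 + (z + z0) + (z ^ 2 + z * z0 + z0 ^ 2)) := by ring
  rw [h6]
  have h7 : 0 < z0 := by linarith
  have h8 : 1 ≤ 1 + (z + z0) + (z ^ 2 + z * z0 + z0 ^ 2) := by
    have : 0 ≤ (z + z0) + (z ^ 2 + z * z0 + z0 ^ 2) := by positivity
    linarith
  nlinarith

theorem good_of {z : ℝ} (h1 : 0 < z) (h2 : z < z0) : Good z :=
  ⟨h1, h2.trans z0_lt, lt_of_lt_of_le (by linarith) (Dd_ge h1 h2)⟩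

theorem ep_ge {z : ℝ} (h1 : 0 < z) (h2 : z < z0) : z0 - z ≤ ep z := by
  have hg := good_of h1 h2
  rw [hg.ep_eq, le_div_iff₀ (by linarith [hg.cube])]
  have h3 := Dd_ge h1 h2
  have h4 : 0 < z ^ 3 := by positivity
  nlinarith

/-- the function going to infinity -/
noncomputable def uu (z : ℝ) : ℝ := ep z * (z * Sz z + (2 + z + 2 * z ^ 2) - Wr z)

noncomputable def Lam (z : ℝ) : ℝ := ∑' l, kap z l / (ep z + kap z l)

theorem Good.ep_mul_Vr {z : ℝ} (h : Good z) (l : ℕ) :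
    ep z * Vr z l = 2 * (kap z l / (ep z + kap z l)) := by
  have h1 := h.ep_pos
  have h2 := h.kap_pos l
  rw [h.Vr_eq]
  field_simp

theorem Good.ep_mul_YL {z : ℝ} (h : Good z) : ep z * YL z = 2 * Lam z := by
  rw [YL, Lam, ← tsum_mul_left, ← tsum_mul_left]
  congr 1
  ext l
  exact h.ep_mul_Vr l

theorem Good.summable_Lam {z : ℝ} (h : Good z) : Summable (fun l => kap z l / (ep z + kap z l)) := by
  have h1 := (h.summable_Vr.mul_left (ep z)).mul_left (1/2)
  refine h1.congr (fun l => ?_)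
  rw [h.ep_mul_Vr]
  ring

theorem Good.term_nonneg {z : ℝ} (h : Good z) (l : ℕ) : 0 ≤ kap z l / (ep z + kap z l) := by
  have h1 := h.ep_pos
  have h2 := h.kap_pos l
  positivity

theorem Good.uu_lower {z : ℝ} (h : Good z) : z ^ 2 * Lam z ≤ uu z := by
  have h1 := h.ep_pos
  have h2 := h.lower
  have h3 := h.ep_mul_YL
  unfold uu
  have h4 : ep z * (z ^ 2 * (YL z / 2)) ≤ ep z * (z * Sz z + (2 + z + 2 * z ^ 2) - Wr z) := by
    gcongr
    linarith
  have h5 : ep z * (z ^ 2 * (YL z / 2)) = z ^ 2 * (ep z * YL z) / 2 := by ring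
  rw [h5, h3] at h4
  linarith

theorem Good.uu_upper {z : ℝ} (h : Good z) : uu z ≤ z * (4 * (1 - z)⁻¹) * (2 * Lam z + 2) := by
  have h1 := h.ep_pos
  have h2 := h.upper
  have h3 := h.ep_mul_YL
  unfold uu
  have h4 : ep z * (z * Sz z + (2 + z + 2 * z ^ 2) - Wr z) ≤
      ep z * (z * (4 * (1 - z)⁻¹) * (YL z + 2 * (ep z)⁻¹)) := by
    gcongr
    linarith
  have h5 : ep z * (z * (4 * (1 - z)⁻¹) * (YL z + 2 * (ep z)⁻¹)) =
      z * (4 * (1 - z)⁻¹) * (ep z * YL z + 2 * (ep z * (ep z)⁻¹)) := by ring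
  rw [h5, h3, mul_inv_cancel₀ h1.ne', mul_one] at h4
  exact h4

theorem eventually_good : ∀ᶠ z in 𝓝[<] z0, 1 / 2 < z ∧ z < z0 := by
  have h1 : ∀ᶠ z in 𝓝[<] z0, z ∈ Set.Iio z0 := eventually_mem_nhdsWithin
  have h2 : ∀ᶠ z in 𝓝[<] z0, 1 / 2 < z :=
    eventually_nhdsWithin_of_eventually_nhds (lt_mem_nhds z0_gt)
  filter_upwards [h1, h2] with z hz1 hz2
  exact ⟨hz2, hz1⟩

theorem one_sub_cube_ne : (1 - z0 ^ 3) ≠ 0 := by
  have h1 := z0_gt
  have h2 := z0_lt
  have : z0 ^ 3 < 1 := by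
    calc z0 ^ 3 < 1 ^ 3 := by gcongr
      _ = 1 := one_pow 3
  linarith

theorem tendsto_ep : Tendsto ep (𝓝[<] z0) (𝓝 0) := by
  have h1 : ContinuousAt (fun z : ℝ => Dd z / (1 - z ^ 3)) z0 := by
    have h2 : ContinuousAt (fun z : ℝ => Dd z) z0 := by
      unfold Dd
      fun_prop
    have h3 : ContinuousAt (fun z : ℝ => 1 - z ^ 3) z0 := by fun_prop
    exact h2.div h3 one_sub_cube_ne
  have h2 : Tendsto (fun z : ℝ => Dd z / (1 - z ^ 3)) (𝓝[<] z0) (𝓝 (Dd z0 / (1 - z0 ^ 3))) :=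
    h1.tendsto.mono_left nhdsWithin_le_nhds
  rw [D_z0, zero_div] at h2
  refine h2.congr' ?_
  filter_upwards [eventually_good] with z hz
  exact ((good_of (by linarith [hz.1]) hz.2).ep_eq).symm

theorem tendsto_term (l : ℕ) :
    Tendsto (fun z => kap z l / (ep z + kap z l)) (𝓝[<] z0) (𝓝 1) := by
  have h1 : ContinuousAt (fun z : ℝ => kap z l) z0 := by
    have h2 : ContinuousAt (fun z : ℝ => z * (z ^ 3) ^ (l + 1)) z0 := by fun_prop
    have h3 : ContinuousAt (fun z : ℝ => 1 - z ^ 3) z0 := by fun_prop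
    exact h2.div h3 one_sub_cube_ne
  have h2 : Tendsto (fun z : ℝ => kap z l) (𝓝[<] z0) (𝓝 (kap z0 l)) :=
    h1.tendsto.mono_left nhdsWithin_le_nhds
  have h3 : kap z0 l ≠ 0 := by
    have h4 := z0_gt
    unfold kap
    apply div_ne_zero
    · positivity
    · exact one_sub_cube_ne
  have h5 := h2.div (tendsto_ep.add h2) (by simpa using h3)
  rw [zero_add, div_self h3] at h5
  exact h5

theorem tendsto_Lam : Tendsto Lam (𝓝[<] z0) atTop := by
  rw [tendsto_atTop]
  intro b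
  obtain ⟨K, hK⟩ := exists_nat_gt b
  have h1 : Tendsto (fun z => ∑ l ∈ Finset.range K, kap z l / (ep z + kap z l)) (𝓝[<] z0)
      (𝓝 (∑ l ∈ Finset.range K, 1)) := by
    apply tendsto_finsetSum
    intro l _
    exact tendsto_term l
  simp only [Finset.sum_const, Finset.card_range, nsmul_eq_mul, mul_one] at h1
  have h2 : ∀ᶠ z in 𝓝[<] z0, b < ∑ l ∈ Finset.range K, kap z l / (ep z + kap z l) :=
    h1.eventually (lt_mem_nhds hK)
  filter_upwards [h2, eventually_good] with z hz hz2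
  have hg := good_of (by linarith [hz2.1]) hz2.2
  exact hz.le.trans (hg.summable_Lam.sum_le_tsum _ (fun l _ => hg.term_nonneg l))

theorem tendsto_uu : Tendsto uu (𝓝[<] z0) atTop := by
  have h1 : Tendsto (fun z => (1/4 : ℝ) * Lam z) (𝓝[<] z0) atTop :=
    tendsto_Lam.const_mul_atTop (by norm_num)
  refine tendsto_atTop_mono' _ ?_ h1
  filter_upwards [eventually_good] with z hz
  have hg := good_of (by linarith [hz.1]) hz.2
  refine le_trans ?_ hg.uu_lower
  have h3 : 0 ≤ Lam z := tsum_nonneg hg.term_nonneg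
  have h4 : (1/4 : ℝ) ≤ z ^ 2 := by nlinarith [hz.1]
  gcongr

theorem frac_le {a b η : ℝ} (ha : 0 < a) (hb : 0 < b) (h0 : 0 < η) (h1 : η ≤ 1) :
    b / (a + b) ≤ (b / a) ^ η := by
  rcases le_total b a with h | h
  · have h2 : b / a ≤ 1 := by
      rw [div_le_one ha]
      exact h
    calc b / (a + b) ≤ b / a := by
          gcongr
          linarith
      _ = (b / a) ^ (1 : ℝ) := (Real.rpow_one _).symm
      _ ≤ (b / a) ^ η := Real.rpow_le_rpow_of_exponent_ge (by positivity) h2 h1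
  · have h2 : 1 ≤ b / a := by
      rw [one_le_div ha]
      exact h
    calc b / (a + b) ≤ 1 := by
          rw [div_le_one (by positivity)]
          linarith
      _ ≤ _ := Real.one_le_rpow h2 h0.le

theorem Lam_le {η : ℝ} (h0 : 0 < η) (h1 : η ≤ 1) :
    ∃ C : ℝ, 0 < C ∧ ∀ z, 1 / 2 < z → z < z0 → Lam z ≤ C * (z0 - z) ^ (-η) := by
  have hz0 : 0 < z0 := by linarith [z0_gt]
  have hz1 : z0 ^ 3 < 1 := by
    calc z0 ^ 3 < 1 ^ 3 := by
          have := z0_lt
          gcongr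
      _ = 1 := one_pow 3
  have hc0 : 0 < (1 - z0 ^ 3)⁻¹ := by
    have : 0 < 1 - z0 ^ 3 := by linarith
    positivity
  have hθ : (z0 ^ 3) ^ η < 1 := Real.rpow_lt_one (by positivity) hz1 h0
  have hθ0 : 0 ≤ (z0 ^ 3) ^ η := by positivity
  refine ⟨((1 - z0 ^ 3)⁻¹) ^ η * (1 - (z0 ^ 3) ^ η)⁻¹, ?_, ?_⟩
  · have : 0 < 1 - (z0 ^ 3) ^ η := by linarith
    positivity
  · intro z hz hz'
    have hg := good_of (by linarith) hz'
    have hd : 0 < z0 - z := by linarith
    have hep := ep_ge (z := z) (by linarith) hz'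
    have hterm : ∀ l, kap z l / (ep z + kap z l) ≤
        (((1 - z0 ^ 3)⁻¹) ^ η * (z0 - z) ^ (-η)) * ((z0 ^ 3) ^ η) ^ l := by
      intro l
      have hk := hg.kap_pos l
      have he := hg.ep_pos
      have hk2 : kap z l ≤ (z0 ^ 3) ^ l * (1 - z0 ^ 3)⁻¹ := by
        refine (hg.kap_le l).trans ?_
        have h3 : z ^ 3 ≤ z0 ^ 3 := by
          have := hg.pos
          gcongr
        have h4 : 0 < z ^ 3 := by
          have := hg.pos
          positivity
        have h5 : 0 < 1 - z0 ^ 3 := by linarith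
        have h6 : 0 ≤ (1 - z ^ 3)⁻¹ := by
          have : 0 < 1 - z ^ 3 := by linarith
          positivity
        gcongr
      calc kap z l / (ep z + kap z l) ≤ (kap z l / ep z) ^ η := frac_le he hk h0 h1
        _ ≤ ((z0 ^ 3) ^ l * (1 - z0 ^ 3)⁻¹ / (z0 - z)) ^ η := by
            apply Real.rpow_le_rpow (by positivity) _ h0.le
            gcongr
        _ = _ := by
            rw [Real.div_rpow (by positivity) hd.le, Real.mul_rpow (by positivity) hc0.le,
              Real.rpow_neg hd.le, ← Real.rpow_natCast ((z0 ^ 3) ^ η) l,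
              ← Real.rpow_natCast (z0 ^ 3) l, ← Real.rpow_mul (by positivity),
              ← Real.rpow_mul (by positivity), mul_comm (l : ℝ) η]
            field_simp
    have hsum : Summable (fun l : ℕ =>
        (((1 - z0 ^ 3)⁻¹) ^ η * (z0 - z) ^ (-η)) * ((z0 ^ 3) ^ η) ^ l) :=
      (summable_geometric_of_lt_one hθ0 hθ).mul_left _
    have := hg.summable_Lam.tsum_le_tsum hterm hsum
    rw [tsum_mul_left, tsum_geometric_of_lt_one hθ0 hθ] at this
    refine this.trans (le_of_eq ?_)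
    ring

theorem tendsto_pow (k : ℕ) : Tendsto (fun z => (z - z0) * (uu z) ^ k) (𝓝[<] z0) (𝓝 0) := by
  set η : ℝ := 1 / (2 * ((k : ℝ) + 1)) with hη
  have hk1 : (0 : ℝ) < 2 * ((k : ℝ) + 1) := by positivity
  have h0 : 0 < η := by positivity
  have h1 : η ≤ 1 := by
    rw [hη, div_le_one hk1]
    have : (0 : ℝ) ≤ k := Nat.cast_nonneg k
    linarith
  obtain ⟨C, hC, hbound⟩ := Lam_le h0 h1
  -- bound `uu`
  set C2 : ℝ := 4 * (1 - z0)⁻¹ * (2 * C + 2) with hC2
  have hz0p : 0 < z0 := by linarith [z0_gt]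
  have h1z0 : 0 < 1 - z0 := by linarith [z0_lt]
  have hC2p : 0 < C2 := by positivity
  have hu : ∀ z, 1 / 2 < z → z < z0 → uu z ≤ C2 * (z0 - z) ^ (-η) := by
    intro z hz hz'
    have hg := good_of (by linarith) hz'
    have hd : 0 < z0 - z := by linarith
    have hd1 : z0 - z ≤ 1 := by linarith [z0_lt]
    have h3 : 1 ≤ (z0 - z) ^ (-η) := Real.one_le_rpow_of_pos_of_le_one_of_nonpos hd hd1 (by linarith)
    have h4 := hbound z hz hz'
    have h5 : 0 ≤ Lam z := tsum_nonneg hg.term_nonneg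
    have h6 : 0 < 1 - z := by linarith [hg.lt]
    calc uu z ≤ z * (4 * (1 - z)⁻¹) * (2 * Lam z + 2) := hg.uu_upper
      _ ≤ 1 * (4 * (1 - z0)⁻¹) * (2 * (C * (z0 - z) ^ (-η)) + 2 * (z0 - z) ^ (-η)) := by
          have h7 : (1 - z)⁻¹ ≤ (1 - z0)⁻¹ := by gcongr
          have h8 := hg.lt.le
          have h9 := hg.pos.le
          gcongr
          linarith
      _ = _ := by rw [hC2]; ring
  have hs : (0 : ℝ) < 1 - k * η := by
    rw [hη]
    have : (0 : ℝ) ≤ k := Nat.cast_nonneg k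
    rw [mul_one_div, sub_pos, div_lt_one hk1]
    linarith
  have hlim : Tendsto (fun z : ℝ => C2 ^ k * (z0 - z) ^ (1 - k * η)) (𝓝[<] z0) (𝓝 0) := by
    have h2 : Tendsto (fun z : ℝ => z0 - z) (𝓝[<] z0) (𝓝 0) := by
      have : Tendsto (fun z : ℝ => z0 - z) (𝓝 z0) (𝓝 (z0 - z0)) := by
        apply Continuous.tendsto
        fun_prop
      rw [sub_self] at this
      exact this.mono_left nhdsWithin_le_nhds
    have h3 := (h2.rpow_const (p := 1 - k * η) (Or.inr hs.le)).const_mul (C2 ^ k)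
    rw [Real.zero_rpow hs.ne', mul_zero] at h3
    exact h3
  refine squeeze_zero_norm' ?_ hlim
  filter_upwards [eventually_good] with z hz
  have hg := good_of (by linarith [hz.1]) hz.2
  have hd : 0 < z0 - z := by linarith [hz.2]
  have hu0 : 0 ≤ uu z := by
    refine le_trans ?_ hg.uu_lower
    have h5 : 0 ≤ Lam z := tsum_nonneg hg.term_nonneg
    positivity
  have h3 := hu z hz.1 hz.2
  rw [norm_mul, Real.norm_eq_abs, Real.norm_eq_abs, abs_of_neg (by linarith),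
    abs_of_nonneg (by positivity)]
  calc -(z - z0) * uu z ^ k ≤ (z0 - z) * (C2 * (z0 - z) ^ (-η)) ^ k := by
        have : -(z - z0) = z0 - z := by ring
        rw [this]
        gcongr
    _ = C2 ^ k * ((z0 - z) ^ (1 : ℝ) * ((z0 - z) ^ (-η)) ^ (k : ℝ)) := by
        rw [mul_pow, Real.rpow_one, Real.rpow_natCast]
        ring
    _ = C2 ^ k * (z0 - z) ^ (1 - k * η) := by
        rw [← Real.rpow_mul hd.le, ← Real.rpow_add hd]
        congr 2
        ring

end Pool.Agent.R635.OR
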