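import Pool.Agent.R635.FiberSum

set_option autoImplicit false

namespace Pool.Agent.R635.OR

open Pre ENNReal

def preEquiv : (Bool ⊕ (Pre × (Bool × ℕ))) ≃ Pre where
  toFun := Sum.elim bot (fun p => cons p.2.1 p.2.2 p.1)
  invFun s := match s with
    | bot a => Sum.inl a
    | cons q m t => Sum.inr (t, (q, m))
  left_inv s := by rcases s with a | ⟨t, q, m⟩ <;> rfl
  right_inv s := by rcases s with a | ⟨q, m, t⟩ <;> rfl

theorem tsum_pre (H : Pre → ℝ≥0∞) :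
    ∑' s, H s = ∑' a : Bool, H (bot a) + ∑' t : Pre, ∑' p : Bool × ℕ, H (cons p.1 p.2 t) := by
  rw [← preEquiv.tsum_eq]
  rw [ENNReal.summable.tsum_sum ENNReal.summable]
  congr 1
  rw [← ENNReal.tsum_prod (f := fun (t : Pre) (p : Bool × ℕ) => H (cons p.1 p.2 t))]
  rfl

def depth : Pre → ℕ
  | bot _ => 0
  | cons _ _ t => depth t + 1

theorem inv_one_sub_eq (U : ℝ≥0∞) : (1 - U)⁻¹ = 1 + U * (1 - U)⁻¹ := by
  conv_lhs => rw [← ENNReal.tsum_geometric]
  rw [tsum_eq_zero_add' ENNReal.summable, pow_zero]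
  congr 1
  simp_rw [pow_succ']
  rw [ENNReal.tsum_mul_left, ENNReal.tsum_geometric]

theorem numeric {U : ℝ≥0∞} {a b : ℕ → ℝ≥0∞} (hs : ∀ n, a (n + 1) = U * a n + b n) :
    ∑' n, a n = (a 0 + ∑' n, b n) * (1 - U)⁻¹ := by
  set β := ∑' n, b n with hβ
  set α := a 0 with hα
  apply le_antisymm
  · rw [ENNReal.tsum_eq_iSup_nat]
    apply iSup_le
    intro n
    induction n with
    | zero => simp
    | succ n ih =>
      rw [Finset.sum_range_succ']
      simp_rw [hs]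
      rw [Finset.sum_add_distrib, ← Finset.mul_sum]
      have h1 : ∑ i ∈ Finset.range n, b i ≤ β := ENNReal.sum_le_tsum _
      calc U * ∑ i ∈ Finset.range n, a i + ∑ i ∈ Finset.range n, b i + a 0
          ≤ U * ((α + β) * (1 - U)⁻¹) + β + α := by gcongr
        _ = (α + β) * (1 + U * (1 - U)⁻¹) := by ring
        _ = _ := by rw [← inv_one_sub_eq]
  · have hA : ∑' n, a n = α + (U * ∑' n, a n + β) := by
      conv_lhs => rw [tsum_eq_zero_add' ENNReal.summable]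
      simp_rw [hs]
      rw [ENNReal.tsum_add, ENNReal.tsum_mul_left]
    have h2 : ∀ n, (α + β) * ∑ i ∈ Finset.range n, U ^ i ≤ ∑' n, a n := by
      intro n
      induction n with
      | zero => simp
      | succ n ih =>
        rw [Finset.sum_range_succ']
        simp_rw [pow_succ']
        rw [← Finset.mul_sum, hA, pow_zero]
        calc (α + β) * (U * ∑ i ∈ Finset.range n, U ^ i + 1)
            = α + (U * ((α + β) * ∑ i ∈ Finset.range n, U ^ i) + β) := by ring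
          _ ≤ _ := by gcongr
    rw [← ENNReal.tsum_geometric, ← ENNReal.tsum_mul_left, ENNReal.tsum_eq_iSup_nat]
    apply iSup_le
    intro n
    rw [← Finset.mul_sum]
    exact h2 n

theorem renewal {U : ℝ≥0∞} {G B : Pre → ℝ≥0∞}
    (h : ∀ t, ∑' p : Bool × ℕ, G (cons p.1 p.2 t) = U * G t + B t) :
    ∑' s, G s = (∑' a : Bool, G (bot a) + ∑' t, B t) * (1 - U)⁻¹ := by
  classical
  have hsum : ∀ H : Pre → ℝ≥0∞, ∑' n : ℕ, ∑' s, (if depth s = n then H s else 0) = ∑' s, H s := by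
    intro H
    rw [ENNReal.tsum_comm]
    congr 1
    ext s
    rw [tsum_eq_single (depth s)]
    · simp
    · intro n hn
      rw [if_neg (Ne.symm hn)]
  have h0 : ∑' s, (if depth s = 0 then G s else 0) = ∑' a : Bool, G (bot a) := by
    rw [tsum_pre]
    simp [depth]
  have hs : ∀ n, ∑' s, (if depth s = n + 1 then G s else 0) =
      U * (∑' s, (if depth s = n then G s else 0)) + ∑' s, (if depth s = n then B s else 0) := by
    intro n
    rw [tsum_pre, ← ENNReal.tsum_mul_left, ← ENNReal.tsum_add]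
    have e1 : ∑' a : Bool, (if depth (bot a) = n + 1 then G (bot a) else 0) = 0 := by
      simp [depth]
    rw [e1, zero_add]
    congr 1
    ext t
    by_cases hd : depth t = n
    · simp only [depth, hd, if_true]
      exact h t
    · have : ¬ (depth t + 1 = n + 1) := by omega
      simp [depth, hd]
  rw [← hsum G, numeric (U := U) hs, h0, hsum B]

/-! ### letters -/

noncomputable def Uu (z : ℝ≥0∞) : ℝ≥0∞ := (z + z ^ 2) * (1 - z ^ 3)⁻¹

noncomputable def Ul (z : ℝ≥0∞) (l : ℕ) : ℝ≥0∞ :=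
  z * ∑ m ∈ Finset.range (l + 1), (z ^ 3) ^ m + z ^ 2 * (1 - z ^ 3)⁻¹

noncomputable def Phi (z : ℝ≥0∞) : ℝ≥0∞ :=
  z * (z ^ 3 * (1 - z ^ 3)⁻¹ * (1 - z ^ 3)⁻¹) +
    z ^ 2 * (4 * (z ^ 3 * (1 - z ^ 3)⁻¹ * (1 - z ^ 3)⁻¹) + (1 - z ^ 3)⁻¹)

theorem tsum_bool_nat (p : Bool) (f : Bool × ℕ → ℝ≥0∞) :
    ∑' x : Bool × ℕ, f x = ∑' m, f (p, m) + ∑' m, f (!p, m) := by
  rw [ENNReal.tsum_prod (f := fun a b => f (a, b)), tsum_bool]
  rcases p with _ | _
  · rfl
  · exact add_comm _ _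

theorem tsum_nat_geom (r : ℝ≥0∞) : ∑' m : ℕ, (m : ℝ≥0∞) * r ^ m = r * (1 - r)⁻¹ * (1 - r)⁻¹ := by
  rw [numeric (U := r) (a := fun m : ℕ => (m : ℝ≥0∞) * r ^ m) (b := fun m => r * r ^ m)]
  · simp only [Nat.cast_zero, zero_mul, zero_add]
    rw [ENNReal.tsum_mul_left, ENNReal.tsum_geometric]
  · intro n
    push_cast
    rw [pow_succ']
    ring

theorem letters_U (z : ℝ≥0∞) (p : Bool) :
    ∑' x : Bool × ℕ, z ^ (1 + 3 * x.2 + dl p x.1) = Uu z := by
  rw [tsum_bool_nat p]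
  have h1 : ∀ m : ℕ, z ^ (1 + 3 * m + dl p p) = z * (z ^ 3) ^ m := by
    intro m
    simp only [dl, if_true, add_zero]
    rw [pow_add, pow_one, pow_mul]
  have h2 : ∀ m : ℕ, z ^ (1 + 3 * m + dl p (!p)) = z ^ 2 * (z ^ 3) ^ m := by
    intro m
    have : dl p (!p) = 1 := by rcases p with _ | _ <;> rfl
    rw [this]
    rw [← pow_mul, ← pow_add]
    congr 1
    ring
  simp only [h1, h2]
  rw [ENNReal.tsum_mul_left, ENNReal.tsum_mul_left, ENNReal.tsum_geometric, Uu]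
  ring

theorem letters_Phi (z : ℝ≥0∞) (p : Bool) :
    ∑' x : Bool × ℕ, z ^ (1 + 3 * x.2 + dl p x.1) * (fl p x.1 x.2 : ℝ≥0∞) = Phi z := by
  rw [tsum_bool_nat p]
  have h1 : ∀ m : ℕ, z ^ (1 + 3 * m + dl p p) * (fl p p m : ℝ≥0∞) = z * (m * (z ^ 3) ^ m) := by
    intro m
    simp only [dl, fl, if_true, add_zero]
    rw [pow_add, pow_one, pow_mul]
    ring
  have h2 : ∀ m : ℕ, z ^ (1 + 3 * m + dl p (!p)) * (fl p (!p) m : ℝ≥0∞) =
      z ^ 2 * (4 * (m * (z ^ 3) ^ m) + (z ^ 3) ^ m) := by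
    intro m
    have e1 : dl p (!p) = 1 := by rcases p with _ | _ <;> rfl
    have e2 : fl p (!p) m = 4 * m + 1 := by rcases p with _ | _ <;> rfl
    rw [e1, e2]
    have e3 : z ^ (1 + 3 * m + 1) = z ^ 2 * (z ^ 3) ^ m := by
      rw [← pow_mul, ← pow_add]
      congr 1
      ring
    rw [e3]
    push_cast
    ring
  simp only [h1, h2]
  rw [ENNReal.tsum_mul_left, ENNReal.tsum_mul_left, ENNReal.tsum_add, ENNReal.tsum_mul_left,
    ENNReal.tsum_geometric, tsum_nat_geom, Phi]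

theorem letters_Ul (z : ℝ≥0∞) (l : ℕ) (p : Bool) :
    ∑' x : Bool × ℕ, (if (if p = x.1 then x.2 else 0) ≤ l then z ^ (1 + 3 * x.2 + dl p x.1) else 0) =
      Ul z l := by
  rw [tsum_bool_nat p]
  have h1 : ∀ m : ℕ, (if (if p = p then m else 0) ≤ l then z ^ (1 + 3 * m + dl p p) else 0) =
      if m ≤ l then z * (z ^ 3) ^ m else 0 := by
    intro m
    simp only [dl, if_true, add_zero]
    rw [pow_add, pow_one, pow_mul]
  have h2 : ∀ m : ℕ, (if (if p = !p then m else 0) ≤ l then z ^ (1 + 3 * m + dl p (!p)) else 0) =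
      z ^ 2 * (z ^ 3) ^ m := by
    intro m
    have e1 : dl p (!p) = 1 := by rcases p with _ | _ <;> rfl
    have e2 : ¬ (p = !p) := by rcases p with _ | _ <;> simp
    rw [e1, if_neg e2, if_pos (Nat.zero_le _)]
    rw [← pow_mul, ← pow_add]
    congr 1
    ring
  rw [tsum_congr h1, tsum_congr h2]
  rw [ENNReal.tsum_mul_left, ENNReal.tsum_geometric, Ul]
  congr 1
  rw [tsum_eq_sum (s := Finset.range (l + 1)), Finset.mul_sum]
  · apply Finset.sum_congr rfl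
    intro m hm
    rw [Finset.mem_range] at hm
    rw [if_pos (by omega)]
  · intro m hm
    rw [Finset.mem_range] at hm
    rw [if_neg (by omega)]

theorem W_eq (z : ℝ≥0∞) : ∑' t, z ^ cT t = 2 * (1 - Uu z)⁻¹ := by
  rw [renewal (U := Uu z) (B := fun _ => 0)]
  · simp [cT]
    try norm_num
  · intro t
    rw [← letters_U z (spin t), add_zero, mul_comm, ← ENNReal.tsum_mul_left]
    congr 1
    ext x
    rw [cT, ← pow_add]
    congr 1
    ring

theorem Yf_eq (z : ℝ≥0∞) : ∑' t, z ^ cT t * (flT t : ℝ≥0∞) =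
    Phi z * (2 * (1 - Uu z)⁻¹) * (1 - Uu z)⁻¹ := by
  rw [renewal (U := Uu z) (B := fun t => Phi z * z ^ cT t)]
  · rw [ENNReal.tsum_mul_left, W_eq]
    simp [flT]
  · intro t
    rw [← letters_U z (spin t), ← letters_Phi z (spin t), ← ENNReal.tsum_mul_right,
      ← ENNReal.tsum_mul_right, ← ENNReal.tsum_add]
    congr 1
    ext x
    have : z ^ cT (cons x.1 x.2 t) = z ^ cT t * z ^ (1 + 3 * x.2 + dl (spin t) x.1) := by
      rw [cT, ← pow_add]
      congr 1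
      ring
    rw [this, flT]
    push_cast
    ring

theorem Wl_eq (z : ℝ≥0∞) (l : ℕ) : ∑' t, (if lam t ≤ l then z ^ cT t else 0) =
    2 * (1 - Ul z l)⁻¹ := by
  rw [renewal (U := Ul z l) (B := fun _ => 0)]
  · simp [cT, lam]
    try norm_num
  · intro t
    rw [← letters_Ul z l (spin t), add_zero, ← ENNReal.tsum_mul_right]
    congr 1
    ext x
    have : z ^ cT (cons x.1 x.2 t) = z ^ cT t * z ^ (1 + 3 * x.2 + dl (spin t) x.1) := by
      rw [cT, ← pow_add]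
      congr 1
      ring
    rw [this]
    simp only [lam, max_le_iff]
    by_cases h1 : lam t ≤ l <;> by_cases h2 : (if spin t = x.1 then x.2 else 0) ≤ l
    · simp [h1, h2, mul_comm]
    · simp [h1, h2]
    · simp [h1]
    · simp [h1, h2]

/-! ### flipping all spins -/

def flipP : Pre → Pre
  | bot a => bot (!a)
  | cons q m t => cons (!q) m (flipP t)

theorem flipP_flipP (t : Pre) : flipP (flipP t) = t := by
  induction t with
  | bot a => simp [flipP]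
  | cons q m t ih => simp [flipP, ih]

def flipE : Pre ≃ Pre := ⟨flipP, flipP, flipP_flipP, flipP_flipP⟩

theorem spin_flipP (t : Pre) : spin (flipP t) = !(spin t) := by
  rcases t with a | ⟨q, m, t⟩ <;> rfl

theorem cT_flipP (t : Pre) : cT (flipP t) = cT t := by
  induction t with
  | bot a => rfl
  | cons q m t ih =>
    simp only [flipP, cT, ih, spin_flipP]
    rcases hp : spin t with _ | _ <;> rcases q with _ | _ <;> rfl

theorem lam_le (t : Pre) : lam t ≤ lamU t + lamU (flipP t) := by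
  induction t with
  | bot a => simp [lam]
  | cons q m t ih =>
    simp only [flipP, lam, lamU, spin_flipP]
    rcases hp : spin t with _ | _ <;> rcases q with _ | _ <;> simp <;> omega

theorem sum_lam_le (z : ℝ≥0∞) :
    ∑' t, z ^ cT t * (lam t : ℝ≥0∞) ≤ 2 * ∑' t, z ^ cT t * (lamU t : ℝ≥0∞) := by
  have h1 : ∑' t, z ^ cT t * (lamU (flipP t) : ℝ≥0∞) = ∑' t, z ^ cT t * (lamU t : ℝ≥0∞) := by
    rw [← flipE.tsum_eq (fun t => z ^ cT t * (lamU t : ℝ≥0∞))]
    congr 1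
    ext t
    show _ = z ^ cT (flipP t) * (lamU (flipP t) : ℝ≥0∞)
    rw [cT_flipP]
  calc ∑' t, z ^ cT t * (lam t : ℝ≥0∞)
      ≤ ∑' t, (z ^ cT t * (lamU t : ℝ≥0∞) + z ^ cT t * (lamU (flipP t) : ℝ≥0∞)) := by
        apply ENNReal.tsum_le_tsum
        intro t
        rw [← mul_add]
        gcongr
        exact_mod_cast lam_le t
    _ = _ := by
        rw [ENNReal.tsum_add, h1]
        ring

/-- layer-cake formula for `lam` -/
theorem sum_lam_eq (z : ℝ≥0∞) :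
    ∑' t, z ^ cT t * (lam t : ℝ≥0∞) = ∑' l : ℕ, ∑' t, (if l < lam t then z ^ cT t else 0) := by
  rw [ENNReal.tsum_comm]
  congr 1
  ext t
  rw [tsum_eq_sum (s := Finset.range (lam t))]
  · rw [Finset.sum_congr rfl (g := fun _ => z ^ cT t)]
    · rw [Finset.sum_const, Finset.card_range, nsmul_eq_mul, mul_comm]
    · intro l hl
      rw [Finset.mem_range] at hl
      rw [if_pos hl]
  · intro l hl
    rw [Finset.mem_range] at hl
    rw [if_neg hl]

theorem V_add_W (z : ℝ≥0∞) (l : ℕ) :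
    ∑' t, (if l < lam t then z ^ cT t else 0) + 2 * (1 - Ul z l)⁻¹ = 2 * (1 - Uu z)⁻¹ := by
  rw [← Wl_eq, ← W_eq, ← ENNReal.tsum_add]
  congr 1
  ext t
  by_cases h : l < lam t
  · rw [if_pos h, if_neg (by omega), add_zero]
  · rw [if_neg h, if_pos (by omega), zero_add]

/-! ### sums over valid states -/

theorem tsum_om (H : Pre → ℝ≥0∞) : ∑' s, H s = ∑' s : Om, H s.1 +
    (H (bot false) + H (bot true) + H (cons true 0 (bot false)) + H (cons true 0 (bot true))) := by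
  classical
  have h1 : ∑' s : Om, H s.1 = ∑' s : Pre, (if Val s then H s else 0) := by
    have := tsum_subtype {s : Pre | Val s} H
    rw [show (∑' s : Om, H s.1) = ∑' s : ({s : Pre | Val s} : Set Pre), H s from rfl, this]
    congr 1
  have h2 : ∀ s0 : Pre, H s0 = ∑' s : Pre, (if s = s0 then H s else 0) := by
    intro s0
    rw [tsum_eq_single s0]
    · simp
    · intro s hs
      rw [if_neg hs]
  rw [h1, h2 (bot false), h2 (bot true), h2 (cons true 0 (bot false)), h2 (cons true 0 (bot true)),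
    ← ENNReal.tsum_add, ← ENNReal.tsum_add, ← ENNReal.tsum_add, ← ENNReal.tsum_add]
  congr 1
  ext s
  rcases s with a | ⟨q, m, t⟩
  · rcases a with _ | _ <;> simp [Val]
  · rcases q with _ | _
    · simp [Val]
    · rcases m with _ | m
      · rcases t with a | ⟨q', m', t'⟩
        · rcases a with _ | _ <;> simp [Val]
        · simp [Val]
      · simp [Val]

theorem z_mul_pow {z : ℝ≥0∞} (s : Om) : z * z ^ N s.1 = z ^ cT s.1 := by
  obtain ⟨s, hs⟩ := s
  rcases s with a | ⟨q, m, t⟩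
  · exact absurd hs (by simp [Val])
  · rw [← pow_succ']
    congr 1
    simp only [N, cT]
    ring

theorem om_flT (z : ℝ≥0∞) :
    2 * (1 - Uu z)⁻¹ + Phi z * (2 * (1 - Uu z)⁻¹) * (1 - Uu z)⁻¹ =
      z * ∑' s : Om, z ^ N s.1 * ((flT s.1 : ℝ≥0∞) + 1) + (2 + z + 2 * z ^ 2) := by
  rw [← Yf_eq, ← W_eq, ← ENNReal.tsum_add]
  rw [tsum_om (fun s => z ^ cT s + z ^ cT s * (flT s : ℝ≥0∞)), ← ENNReal.tsum_mul_left]
  congr 1
  · congr 1
    ext s
    rw [← z_mul_pow]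
    ring
  · simp [cT, flT, fl, dl]
    ring

theorem om_lamU (z : ℝ≥0∞) :
    ∑' t, z ^ cT t * (lamU t : ℝ≥0∞) = z * ∑' s : Om, z ^ N s.1 * (lamU s.1 : ℝ≥0∞) := by
  rw [tsum_om (fun s => z ^ cT s * (lamU s : ℝ≥0∞)), ← ENNReal.tsum_mul_left]
  simp only [lamU, Nat.cast_zero, mul_zero, add_zero]
  simp only [ite_self, max_self, Nat.cast_zero, mul_zero, add_zero]
  congr 1
  ext s
  rw [← z_mul_pow]
  ring

theorem om_lam (z : ℝ≥0∞) :
    z * ∑' s : Om, z ^ N s.1 * ((lam s.1 : ℝ≥0∞) + 1) ≤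
      ∑' t, z ^ cT t * (lam t : ℝ≥0∞) + 2 * (1 - Uu z)⁻¹ := by
  rw [← W_eq, ← ENNReal.tsum_add, tsum_om (fun s => z ^ cT s * (lam s : ℝ≥0∞) + z ^ cT s),
    ← ENNReal.tsum_mul_left]
  refine le_trans (le_of_eq ?_) (self_le_add_right _ _)
  congr 1
  ext s
  rw [← z_mul_pow]
  ring

/-- main sandwich, lower side -/
theorem group_lower {z : ℝ≥0∞} (hz : z ≤ 1) :
    2 * (1 - Uu z)⁻¹ + Phi z * (2 * (1 - Uu z)⁻¹) * (1 - Uu z)⁻¹ +
      z ^ 2 * ∑' t, z ^ cT t * (lamU t : ℝ≥0∞) ≤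
    z * ∑' g : GG, z ^ len g + (2 + z + 2 * z ^ 2) := by
  rw [om_flT, om_lamU, tsum_group]
  have h1 : ∑' s : Om, z ^ N s.1 * ((flT s.1 : ℝ≥0∞) + 1) +
      z ^ 2 * ∑' s : Om, z ^ N s.1 * (lamU s.1 : ℝ≥0∞) ≤ ∑' s : Om, ∑' k : ℤ, z ^ D s k := by
    rw [← ENNReal.tsum_mul_left, ← ENNReal.tsum_add]
    apply ENNReal.tsum_le_tsum
    intro s
    refine le_trans (le_of_eq ?_) (fiber_lower hz s)
    rw [pow_add]
    ring
  calc _ = z * (∑' s : Om, z ^ N s.1 * ((flT s.1 : ℝ≥0∞) + 1) +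
      z ^ 2 * ∑' s : Om, z ^ N s.1 * (lamU s.1 : ℝ≥0∞)) + (2 + z + 2 * z ^ 2) := by ring
    _ ≤ _ := by gcongr

/-- main sandwich, upper side -/
theorem group_upper {z : ℝ≥0∞} (hz : z ≤ 1) :
    z * ∑' g : GG, z ^ len g + (2 + z + 2 * z ^ 2) ≤
    2 * (1 - Uu z)⁻¹ + Phi z * (2 * (1 - Uu z)⁻¹) * (1 - Uu z)⁻¹ +
      z * (4 * (1 - z)⁻¹) * (∑' t, z ^ cT t * (lam t : ℝ≥0∞) + 2 * (1 - Uu z)⁻¹) := by
  rw [om_flT, tsum_group]
  have h1 : ∑' s : Om, ∑' k : ℤ, z ^ D s k ≤ ∑' s : Om, z ^ N s.1 * ((flT s.1 : ℝ≥0∞) + 1) +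
      z * (4 * (1 - z)⁻¹) * ∑' s : Om, z ^ N s.1 * ((lam s.1 : ℝ≥0∞) + 1) := by
    rw [← ENNReal.tsum_mul_left, ← ENNReal.tsum_add]
    apply ENNReal.tsum_le_tsum
    intro s
    refine le_trans (fiber_upper hz s) (le_of_eq ?_)
    ring
  calc z * ∑' s : Om, ∑' k : ℤ, z ^ D s k + (2 + z + 2 * z ^ 2)
      ≤ z * (∑' s : Om, z ^ N s.1 * ((flT s.1 : ℝ≥0∞) + 1) +
      z * (4 * (1 - z)⁻¹) * ∑' s : Om, z ^ N s.1 * ((lam s.1 : ℝ≥0∞) + 1)) +
      (2 + z + 2 * z ^ 2) := by gcongr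
    _ = z * ∑' s : Om, z ^ N s.1 * ((flT s.1 : ℝ≥0∞) + 1) + (2 + z + 2 * z ^ 2) +
      z * (4 * (1 - z)⁻¹) * (z * ∑' s : Om, z ^ N s.1 * ((lam s.1 : ℝ≥0∞) + 1)) := by ring
    _ ≤ _ := by
      gcongr
      exact om_lam z

end Pool.Agent.R635.OR
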