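import Pool.Agent.R635.States

set_option autoImplicit false

namespace Pool.Agent.R635.OR

open Pre

/-- `Reach s n e`: the state `s` is reached from the identity by a word of length `n` and charge `e`. -/
inductive Reach : Pre → ℕ → ℤ → Prop
  | base : Reach (cons false 0 (bot false)) 0 0
  | X1 {s : Pre} {n : ℕ} {e : ℤ} : Reach s n e → Reach (X s) (n + 1) (e + 2)
  | X2 {s : Pre} {n : ℕ} {e : ℤ} : Reach s n e → Reach (X s) (n + 1) (e - 2)
  | V1 {s : Pre} {n : ℕ} {e : ℤ} : Reach s n e → Reach (V s) (n + 1) (e + 3)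
  | V2 {s : Pre} {n : ℕ} {e : ℤ} : Reach s n e → Reach (Vi s) (n + 1) (e - 3)

theorem Reach.val {s : Pre} {n : ℕ} {e : ℤ} (h : Reach s n e) : Val s := by
  induction h with
  | base => trivial
  | X1 _ ih => exact val_X ih
  | X2 _ ih => exact val_X ih
  | V1 _ ih => exact val_V ih
  | V2 _ ih => exact val_Vi ih

theorem Reach.N_le {s : Pre} {n : ℕ} {e : ℤ} (h : Reach s n e) : N s ≤ n := by
  induction h with
  | base => simp [N, cT, dl]
  | X1 h ih => exact (N_X h.val).trans (by omega)
  | X2 h ih => exact (N_X h.val).trans (by omega)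
  | V1 h ih => exact (N_V h.val).trans (by omega)
  | V2 h ih => exact (N_Vi h.val).trans (by omega)

theorem Reach.pot (b : Bool) (l : ℕ) {s : Pre} {n : ℕ} {e : ℤ} (h : Reach s n e) :
    sg b * e ≤ Pot b l s n := by
  induction h with
  | base => rcases b with _ | _ <;> simp [Pot, A, AT, N, cT, dl, hh]
  | X1 h ih =>
    refine le_trans ?_ (pot_step (A_X (s := b) (l := l) h.val))
    rcases b with _ | _ <;> simp [sg] at ih ⊢ <;> linarith
  | X2 h ih =>
    refine le_trans ?_ (pot_step (A_X (s := b) (l := l) h.val))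
    rcases b with _ | _ <;> simp [sg] at ih ⊢ <;> linarith
  | V1 h ih =>
    refine le_trans ?_ (pot_step (A_V (s := b) (l := l) h.val))
    linarith
  | @V2 s' n' e' h ih =>
    have h1 := A_Vi (s := b) (l := l) h.val
    have h2 := pot_step (s := b) (l := l) (u := s') (u' := Vi s') (n := n') (b := - sg b * 3)
      (by linarith)
    linarith

def lo (p q : Bool) (m : ℕ) : ℤ :=
  if p = q then (if p then -8 * (m : ℤ) else 4 * (m : ℤ)) else -8 * (m : ℤ) - 2

def LoT : Pre → ℤ
  | bot _ => 0
  | cons q m t => LoT t + lo (spin t) q m + pin q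

def Lo : Pre → ℤ
  | bot _ => 0
  | cons q m t => LoT t + lo (spin t) q m

/-- longest run of unchanged type -/
def lam : Pre → ℕ
  | bot _ => 0
  | cons q m t => max (lam t) (if spin t = q then m else 0)

/-- longest run of type `(true, true)` -/
def lamU : Pre → ℕ
  | bot _ => 0
  | cons q m t => max (lamU t) (if spin t = true ∧ q = true then m else 0)

theorem hh_false {l : ℕ} {p q : Bool} {m : ℕ} (h : (if p = q then m else 0) ≤ l) :
    hh l p q m = lo p q m + 4 * fl p q m := by
  rcases p with _ | _ <;> rcases q with _ | _ <;> simp [hh, lo, fl] at h ⊢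
  · ring
  · ring
  · ring
  · have : m - l = 0 := by omega
    simp [this]
    ring

theorem hh_true {l : ℕ} {p q : Bool} {m : ℕ} (h : (if p = q then m else 0) ≤ l) :
    hh l (!p) (!q) m = - lo p q m := by
  rcases p with _ | _ <;> rcases q with _ | _ <;> simp [hh, lo] at h ⊢
  · omega
  · ring
  · ring

theorem AT_false {l : ℕ} {t : Pre} (h : lam t ≤ l) : AT false l t = LoT t + 4 * flT t := by
  induction t with
  | bot a => rfl
  | cons q m t ih =>
    simp only [lam, max_le_iff] at h
    simp only [AT, LoT, flT, Bool.false_xor, ih h.1, hh_false h.2]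
    push_cast
    ring

theorem A_false {l : ℕ} {t : Pre} (h : lam t ≤ l) : A false l t = Lo t + 4 * flT t := by
  rcases t with a | ⟨q, m, t⟩
  · rfl
  · simp only [lam, max_le_iff] at h
    simp only [A, Lo, flT, Bool.false_xor, AT_false h.1, hh_false h.2]
    push_cast
    ring

theorem AT_true {l : ℕ} {t : Pre} (h : lam t ≤ l) : AT true l t = - LoT t := by
  induction t with
  | bot a => rfl
  | cons q m t ih =>
    simp only [lam, max_le_iff] at h
    simp only [AT, LoT, Bool.true_xor, ih h.1, hh_true h.2]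
    rcases q with _ | _ <;> simp [pin] <;> ring

theorem A_true {l : ℕ} {t : Pre} (h : lam t ≤ l) : A true l t = - Lo t := by
  rcases t with a | ⟨q, m, t⟩
  · rfl
  · simp only [lam, max_le_iff] at h
    simp only [A, Lo, Bool.true_xor, AT_true h.1, hh_true h.2]
    ring

theorem Reach.upper {s : Pre} {n : ℕ} {e : ℤ} (h : Reach s n e) :
    e ≤ Lo s + 4 * flT s + (6 * lam s + 6) * ((n : ℤ) - N s) := by
  have := h.pot false (lam s)
  rw [Pot, A_false le_rfl] at this
  simpa [sg] using this

theorem Reach.lower {s : Pre} {n : ℕ} {e : ℤ} (h : Reach s n e) :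
    Lo s - (6 * lam s + 6) * ((n : ℤ) - N s) ≤ e := by
  have := h.pot true (lam s)
  rw [Pot, A_true le_rfl] at this
  simp [sg] at this
  linarith

/-! ### constructions -/

theorem Reach.cast {s s' : Pre} {n n' : ℕ} {e e' : ℤ} (h : Reach s n e) (hs : s = s') (hn : n = n')
    (he : e = e') : Reach s' n' e' := by
  subst hs hn he
  exact h

theorem Reach.flip {q : Bool} {m : ℕ} {t : Pre} {n : ℕ} {e : ℤ}
    (h : Reach (nrm (cons q m t)) n e) {f : ℕ} (hf : f ≤ 1) :
    Reach (nrm (cons (!q) m t)) (n + 1) (e - 2 + 4 * f) := by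
  have h1 := h.X1
  have h2 := h.X2
  rw [X_nrm] at h1 h2
  interval_cases f
  · exact h2.cast rfl rfl (by simp)
  · exact h1.cast rfl rfl (by push_cast; ring)

theorem Reach.stepF {m : ℕ} {t : Pre} {n : ℕ} {e : ℤ}
    (h : Reach (nrm (cons false m t)) n e) {f : ℕ} (hf : f ≤ 1) :
    Reach (nrm (cons false (m+1) t)) (n + 3) (e + 4 + 4 * f) := by
  have h1 := h.V1
  rw [V_nrm_false] at h1
  have h2 : Reach (nrm (cons true 0 (cons false m t))) (n + 1 + 1) (e + 3 - 2 + 4 * f) :=
    Reach.flip (q := false) (m := 0) (t := cons false m t) h1 hf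
  have h3 := h2.V1
  exact h3.cast rfl rfl (by push_cast; ring)

theorem Reach.stepT {m : ℕ} {t : Pre} {n : ℕ} {e : ℤ}
    (h : Reach (nrm (cons true m t)) n e) {f : ℕ} (hf : f ≤ 1) :
    Reach (nrm (cons true (m+1) t)) (n + 3) (e - 8 + 4 * f) := by
  have h1 := h.V2
  rw [Vi_nrm_true] at h1
  have h2 : Reach (nrm (cons false 0 (cons true m t))) (n + 1 + 1) (e - 3 - 2 + 4 * f) :=
    Reach.flip (q := true) (m := 0) (t := cons true m t) h1 hf
  have h3 := h2.V2
  exact h3.cast rfl rfl (by push_cast; ring)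

theorem Reach.stepsF {m : ℕ} {t : Pre} {n : ℕ} {e : ℤ}
    (h : Reach (nrm (cons false m t)) n e) (i : ℕ) {j : ℕ} (hj : j ≤ i) :
    Reach (nrm (cons false (m+i) t)) (n + 3 * i) (e + 4 * i + 4 * j) := by
  induction i generalizing j with
  | zero => exact h.cast rfl rfl (by simp at hj; simp [hj])
  | succ i ih =>
    rcases Nat.lt_or_ge i j with hji | hji
    · have h1 := (ih (le_refl i)).stepF (f := 1) le_rfl
      refine h1.cast rfl (by ring) ?_
      have : j = i + 1 := by omega
      subst this
      push_cast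
      ring
    · have h1 := (ih hji).stepF (f := 0) (by norm_num)
      refine h1.cast rfl (by ring) ?_
      push_cast
      ring

theorem Reach.stepsT {m : ℕ} {t : Pre} {n : ℕ} {e : ℤ}
    (h : Reach (nrm (cons true m t)) n e) (i : ℕ) {j : ℕ} (hj : j ≤ i) :
    Reach (nrm (cons true (m+i) t)) (n + 3 * i) (e - 8 * i + 4 * j) := by
  induction i generalizing j with
  | zero => exact h.cast rfl rfl (by simp at hj; simp [hj])
  | succ i ih =>
    rcases Nat.lt_or_ge i j with hji | hji
    · have h1 := (ih (le_refl i)).stepT (f := 1) le_rfl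
      refine h1.cast rfl (by ring) ?_
      have : j = i + 1 := by omega
      subst this
      push_cast
      ring
    · have h1 := (ih hji).stepT (f := 0) (by norm_num)
      refine h1.cast rfl (by ring) ?_
      push_cast
      ring

/-- one letter, all charges in the zero-budget range -/
theorem Reach.letter {t : Pre} {n : ℕ} {e : ℤ}
    (h : Reach (nrm (cons (spin t) 0 t)) n e) (q : Bool) (m : ℕ) {k : ℕ}
    (hk : k ≤ fl (spin t) q m) :
    Reach (nrm (cons q m t)) (n + 3 * m + dl (spin t) q) (e + lo (spin t) q m + 4 * k) := by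
  rcases hp : spin t with _ | _ <;> rw [hp] at h hk <;> rcases q with _ | _ <;>
    simp only [fl, reduceIte, reduceCtorEq, Bool.true_eq_false, Bool.false_eq_true] at hk
  · have := h.stepsF m hk
    refine this.cast (by simp) (by simp [dl]) (by simp [lo])
  · -- false to true
    obtain ⟨i, j1, j2, f, hi, hj1, hj2, hf, hk'⟩ : ∃ i j1 j2 f : ℕ, i ≤ m ∧ j1 ≤ i ∧ j2 ≤ m - i ∧
        f ≤ 1 ∧ k = 3 * i + j1 + j2 + f := by
      rcases Nat.lt_or_ge m (k/3) with h3 | h3
      · refine ⟨m, min m (k - 3*m - 1), 0, 1, le_rfl, ?_, ?_, ?_, ?_⟩ <;> omega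
      · rcases Nat.eq_zero_or_pos m with rfl | hm
        · refine ⟨0, 0, 0, k, ?_, ?_, ?_, ?_, ?_⟩ <;> omega
        · rcases Nat.eq_zero_or_pos (k % 3) with h0 | h0
          · refine ⟨k/3, 0, 0, 0, ?_, ?_, ?_, ?_, ?_⟩ <;> omega
          · rcases Nat.lt_or_ge (k/3) 1 with h1 | h1
            · refine ⟨0, 0, k - 1, 1, ?_, ?_, ?_, ?_, ?_⟩ <;> omega
            · refine ⟨k/3, k % 3 - 1, 0, 1, ?_, ?_, ?_, ?_, ?_⟩ <;> omega
    have h1 := h.stepsF i hj1
    have h2 := h1.flip hf
    have h3 := h2.stepsT (m - i) hj2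
    refine h3.cast ?_ ?_ ?_
    · congr 2; omega
    · simp [dl]; omega
    · simp [lo]
      rw [hk']
      push_cast [hi]
      ring
  · obtain ⟨i, j1, j2, f, hi, hj1, hj2, hf, hk'⟩ : ∃ i j1 j2 f : ℕ, i ≤ m ∧ j1 ≤ i ∧ j2 ≤ m - i ∧
        f ≤ 1 ∧ k = 3 * i + j1 + j2 + f := by
      rcases Nat.lt_or_ge m (k/3) with h3 | h3
      · refine ⟨m, min m (k - 3*m - 1), 0, 1, le_rfl, ?_, ?_, ?_, ?_⟩ <;> omega
      · rcases Nat.eq_zero_or_pos m with rfl | hm
        · refine ⟨0, 0, 0, k, ?_, ?_, ?_, ?_, ?_⟩ <;> omega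
        · rcases Nat.eq_zero_or_pos (k % 3) with h0 | h0
          · refine ⟨k/3, 0, 0, 0, ?_, ?_, ?_, ?_, ?_⟩ <;> omega
          · rcases Nat.lt_or_ge (k/3) 1 with h1 | h1
            · refine ⟨0, 0, k - 1, 1, ?_, ?_, ?_, ?_, ?_⟩ <;> omega
            · refine ⟨k/3, k % 3 - 1, 0, 1, ?_, ?_, ?_, ?_, ?_⟩ <;> omega
    have h1 := h.stepsT (m - i) hj2
    have h2 := h1.flip hf
    have h3 := h2.stepsF i hj1
    refine h3.cast ?_ ?_ ?_
    · congr 2; omega
    · simp [dl]; omega
    · simp [lo]
      rw [hk']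
      push_cast [hi]
      ring
  · have := h.stepsT m hk
    refine this.cast (by simp) (by simp [dl]) ?_
    simp [lo]
    ring

theorem Reach.append {q : Bool} {m : ℕ} {t : Pre} {n : ℕ} {e : ℤ}
    (h : Reach (nrm (cons q m t)) n e) :
    Reach (nrm (cons q 0 (cons q m t))) (n + 1) (e + pin q) := by
  rcases q with _ | _
  · have h1 := h.V1
    rw [V_nrm_false] at h1
    exact h1
  · have h1 := h.V2
    rw [Vi_nrm_true] at h1
    exact h1

theorem reachT (t : Pre) {k : ℕ} (hk : k ≤ flT t) :
    Reach (nrm (cons (spin t) 0 t)) (cT t) (LoT t + 4 * k) := by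
  induction t generalizing k with
  | bot a =>
    simp only [flT, Nat.le_zero] at hk
    subst hk
    rcases a with _ | _ <;> exact Reach.base
  | cons q m t ih =>
    simp only [flT] at hk
    have h1 := ih (k := min k (flT t)) (min_le_right _ _)
    have h2 := h1.letter q m (k := k - min k (flT t)) (by omega)
    have h3 := h2.append
    refine h3.cast rfl (by simp only [cT]; ring) ?_
    simp only [LoT]
    have : ((k - min k (flT t) : ℕ) : ℤ) = k - (min k (flT t) : ℕ) := by
      rw [Nat.cast_sub (min_le_left _ _)]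
    rw [this]
    ring

theorem reach_zero (q : Bool) (m : ℕ) (t : Pre) {k : ℕ} (hk : k ≤ flT (cons q m t)) :
    Reach (nrm (cons q m t)) (N (cons q m t)) (Lo (cons q m t) + 4 * k) := by
  simp only [flT] at hk
  have h1 := reachT t (k := min k (flT t)) (min_le_right _ _)
  have h2 := h1.letter q m (k := k - min k (flT t)) (by omega)
  refine h2.cast rfl (by simp only [N]) ?_
  simp only [Lo]
  have : ((k - min k (flT t) : ℕ) : ℤ) = k - (min k (flT t) : ℕ) := by
    rw [Nat.cast_sub (min_le_left _ _)]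
  rw [this]
  ring

/-- a droplet in a run of type `(true, true)` -/
theorem Reach.droplet {t : Pre} {n : ℕ} {e : ℤ}
    (h : Reach (nrm (cons true 0 t)) n e) (m : ℕ) {i : ℕ} (hi : i ≤ m) :
    Reach (nrm (cons true m t)) (n + 3 * m + 2) (e - 4 * m + 4 + 12 * i) := by
  have h1 := h.stepsT (m - i) (le_refl (m - i))
  have h2 := h1.flip (f := 1) le_rfl
  have h3 := h2.stepsF i (le_refl i)
  have h4 := h3.flip (f := 1) le_rfl
  refine h4.cast ?_ ?_ ?_
  · congr 2; omega
  · omega
  · push_cast [hi]
    ring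

theorem reachT_two (t : Pre) {i : ℕ} (hi : i ≤ lamU t) :
    Reach (nrm (cons (spin t) 0 t)) (cT t + 2) (LoT t + 4 * flT t + 4 + 12 * i) := by
  induction t generalizing i with
  | bot a =>
    simp only [lamU, Nat.le_zero] at hi
    subst hi
    have h := (reachT (bot a) (k := 0) le_rfl).X1.X1
    rw [X_nrm, X_nrm, Bool.not_not] at h
    exact h.cast rfl rfl (by simp [LoT, flT])
  | cons q m t ih =>
    simp only [lamU, le_max_iff] at hi
    rcases hi with hi | hi
    · have h1 := ih hi
      have h2 := h1.letter q m (le_refl _)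
      have h3 := h2.append
      refine h3.cast rfl (by simp only [cT]; ring) ?_
      simp only [LoT, flT]
      push_cast
      ring
    · rcases Nat.eq_zero_or_pos i with rfl | hpos
      · have h := (reachT (cons q m t) (k := flT (cons q m t)) le_rfl).X1.X1
        rw [X_nrm, X_nrm, Bool.not_not] at h
        exact h.cast rfl rfl (by push_cast; ring)
      · have hc : spin t = true ∧ q = true := by
          by_contra hc
          rw [if_neg hc] at hi
          omega
        rw [if_pos hc] at hi
        obtain ⟨hp, rfl⟩ := hc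
        have h1 := reachT t (k := flT t) le_rfl
        rw [hp] at h1
        have h2 := h1.droplet m hi
        have h3 := h2.append
        refine h3.cast rfl (by simp [cT, hp, dl]; ring) ?_
        simp [LoT, flT, hp, lo, fl]
        ring

theorem reach_two (q : Bool) (m : ℕ) (t : Pre) {i : ℕ} (hi : i ≤ lamU (cons q m t)) :
    Reach (nrm (cons q m t)) (N (cons q m t) + 2)
      (Lo (cons q m t) + 4 * flT (cons q m t) + 4 + 12 * i) := by
  simp only [lamU, le_max_iff] at hi
  rcases hi with hi | hi
  · have h1 := reachT_two t hi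
    have h2 := h1.letter q m (le_refl _)
    refine h2.cast rfl (by simp only [N]; ring) ?_
    simp only [Lo, flT]
    push_cast
    ring
  · rcases Nat.eq_zero_or_pos i with rfl | hpos
    · have h := (reach_zero q m t (k := flT (cons q m t)) le_rfl).X1.X1
      rw [X_nrm, X_nrm, Bool.not_not] at h
      exact h.cast rfl rfl (by push_cast; ring)
    · have hc : spin t = true ∧ q = true := by
        by_contra hc
        rw [if_neg hc] at hi
        omega
      rw [if_pos hc] at hi
      obtain ⟨hp, rfl⟩ := hc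
      have h1 := reachT t (k := flT t) le_rfl
      rw [hp] at h1
      have h2 := h1.droplet m hi
      refine h2.cast rfl (by simp [N, hp, dl]) ?_
      simp [Lo, flT, hp, lo, fl]
      ring

end Pool.Agent.R635.OR
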