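import Pool.Agent.R635.PreSum

set_option autoImplicit false

namespace Pool.Agent.R635.OR

open Pre ENNReal

theorem inv_one_sub_ofReal {a : ℝ} (h0 : 0 ≤ a) (h1 : a < 1) :
    (1 - ENNReal.ofReal a)⁻¹ = ENNReal.ofReal (1 - a)⁻¹ := by
  rw [← ENNReal.ofReal_one, ← ENNReal.ofReal_sub _ h0, ENNReal.ofReal_inv_of_pos (by linarith)]

noncomputable def Dd (z : ℝ) : ℝ := 1 - z - z ^ 2 - z ^ 3
noncomputable def U0 (z : ℝ) : ℝ := (z + z ^ 2) / (1 - z ^ 3)
noncomputable def kap (z : ℝ) (l : ℕ) : ℝ := z * (z ^ 3) ^ (l + 1) / (1 - z ^ 3)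
noncomputable def ep (z : ℝ) : ℝ := 1 - U0 z
noncomputable def phi (z : ℝ) : ℝ :=
  z * (z ^ 3 * (1 - z ^ 3)⁻¹ * (1 - z ^ 3)⁻¹) +
    z ^ 2 * (4 * (z ^ 3 * (1 - z ^ 3)⁻¹ * (1 - z ^ 3)⁻¹) + (1 - z ^ 3)⁻¹)

structure Good (z : ℝ) : Prop where
  pos : 0 < z
  lt : z < 1
  D : 0 < Dd z

variable {z : ℝ}

theorem Good.cube (h : Good z) : z ^ 3 < 1 := by
  have h1 := h.pos
  have h2 := h.lt
  calc z ^ 3 < 1 ^ 3 := by gcongr
    _ = 1 := one_pow 3

theorem Good.ep_eq (h : Good z) : ep z = Dd z / (1 - z ^ 3) := by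
  have h1 := h.cube
  have h2 : (1 - z ^ 3) ≠ 0 := by linarith
  unfold ep U0 Dd
  field_simp
  ring

theorem Good.ep_pos (h : Good z) : 0 < ep z := by
  rw [h.ep_eq]
  have h1 := h.cube
  have h2 := h.D
  apply div_pos h2
  linarith

theorem Good.U0_nonneg (h : Good z) : 0 ≤ U0 z := by
  have h1 := h.cube
  have h2 := h.pos
  unfold U0
  apply div_nonneg
  · positivity
  · linarith

theorem Good.kap_pos (h : Good z) (l : ℕ) : 0 < kap z l := by
  have h1 := h.cube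
  have h2 := h.pos
  unfold kap
  apply div_pos
  · positivity
  · linarith

theorem Good.inv3 (h : Good z) : (1 - (ENNReal.ofReal z) ^ 3)⁻¹ = ENNReal.ofReal (1 - z ^ 3)⁻¹ := by
  have h2 := h.pos.le
  rw [← ENNReal.ofReal_pow h2]
  exact inv_one_sub_ofReal (by positivity) h.cube

theorem Good.Uu_eq (h : Good z) : Uu (ENNReal.ofReal z) = ENNReal.ofReal (U0 z) := by
  have h2 := h.pos.le
  have h3 := h.cube
  rw [Uu, h.inv3, ← ENNReal.ofReal_pow h2, ← ENNReal.ofReal_add h2 (by positivity),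
    ← ENNReal.ofReal_mul (by positivity), U0, div_eq_mul_inv]

theorem Good.invU (h : Good z) : (1 - Uu (ENNReal.ofReal z))⁻¹ = ENNReal.ofReal (ep z)⁻¹ := by
  rw [h.Uu_eq]
  apply inv_one_sub_ofReal h.U0_nonneg
  have := h.ep_pos
  unfold ep at this
  linarith

theorem Good.Ul_eq (h : Good z) (l : ℕ) :
    Ul (ENNReal.ofReal z) l = ENNReal.ofReal (U0 z - kap z l) := by
  have h2 := h.pos.le
  have h3 := h.cube
  have h4 : (0 : ℝ) < 1 - z ^ 3 := by linarith
  rw [Ul, h.inv3]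
  simp_rw [← ENNReal.ofReal_pow h2]
  simp_rw [← ENNReal.ofReal_pow (show (0:ℝ) ≤ z ^ 3 by positivity)]
  rw [← ENNReal.ofReal_sum_of_nonneg (fun i _ => by positivity),
    ← ENNReal.ofReal_mul h2, ← ENNReal.ofReal_mul (by positivity), ← ENNReal.ofReal_add]
  · congr 1
    rw [geom_sum_eq (by linarith)]
    unfold U0 kap
    have h5 : (1 - z ^ 3) ≠ 0 := by linarith
    have h6 : (z ^ 3 - 1) ≠ 0 := by linarith
    field_simp
    ring
  · apply mul_nonneg h2
    apply Finset.sum_nonneg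
    intro i _
    positivity
  · have : 0 ≤ (1 - z ^ 3)⁻¹ := by positivity
    positivity

theorem Good.U0_sub_nonneg (h : Good z) (l : ℕ) : 0 ≤ U0 z - kap z l := by
  have h2 := h.pos.le
  have h3 := h.cube
  have h4 : (0 : ℝ) < 1 - z ^ 3 := by linarith
  unfold U0 kap
  rw [← sub_div]
  apply div_nonneg _ h4.le
  have : z * (z ^ 3) ^ (l + 1) ≤ z * 1 := by
    gcongr
    exact pow_le_one₀ (by positivity) h3.le
  have : 0 ≤ z ^ 2 := by positivity
  linarith

theorem Good.invUl (h : Good z) (l : ℕ) :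
    (1 - Ul (ENNReal.ofReal z) l)⁻¹ = ENNReal.ofReal (ep z + kap z l)⁻¹ := by
  rw [h.Ul_eq, inv_one_sub_ofReal (h.U0_sub_nonneg l)]
  · congr 2
    unfold ep
    ring
  · have := h.ep_pos
    have h2 := h.kap_pos l
    unfold ep at this
    linarith

theorem Good.Phi_eq (h : Good z) : Phi (ENNReal.ofReal z) = ENNReal.ofReal (phi z) := by
  have h2 := h.pos.le
  have h3 := h.cube
  have h4 : (0 : ℝ) < 1 - z ^ 3 := by linarith
  have h5 : (0 : ℝ) ≤ (1 - z ^ 3)⁻¹ := by positivity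
  have e4 : (4 : ℝ≥0∞) = ENNReal.ofReal 4 := by simp
  rw [Phi, h.inv3, phi, e4]
  simp_rw [← ENNReal.ofReal_pow h2]
  rw [← ENNReal.ofReal_mul (by positivity), ← ENNReal.ofReal_mul (by positivity),
    ← ENNReal.ofReal_mul (by positivity), ← ENNReal.ofReal_mul (by positivity),
    ← ENNReal.ofReal_add (by positivity) (by positivity),
    ← ENNReal.ofReal_mul (by positivity), ← ENNReal.ofReal_add (by positivity) (by positivity)]

/-- `2κ/(ε(ε+κ))` -/
noncomputable def Vr (z : ℝ) (l : ℕ) : ℝ := 2 * (ep z)⁻¹ - 2 * (ep z + kap z l)⁻¹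

theorem Good.Vr_eq (h : Good z) (l : ℕ) : Vr z l = 2 * kap z l / (ep z * (ep z + kap z l)) := by
  have h1 := h.ep_pos
  have h2 := h.kap_pos l
  unfold Vr
  field_simp
  ring

theorem Good.Vr_nonneg (h : Good z) (l : ℕ) : 0 ≤ Vr z l := by
  have h1 := h.ep_pos
  have h2 := h.kap_pos l
  rw [h.Vr_eq]
  positivity

theorem Good.V_eq (h : Good z) (l : ℕ) :
    ∑' t, (if l < lam t then (ENNReal.ofReal z) ^ cT t else 0) = ENNReal.ofReal (Vr z l) := by
  have h1 := h.ep_pos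
  have h2 := h.kap_pos l
  have e := V_add_W (ENNReal.ofReal z) l
  have e2 : (2 : ℝ≥0∞) = ENNReal.ofReal 2 := by simp
  rw [h.invUl, h.invU, e2, ← ENNReal.ofReal_mul (by norm_num), ← ENNReal.ofReal_mul (by norm_num)] at e
  rw [Vr, ENNReal.ofReal_sub _ (by positivity), ← e]
  rw [ENNReal.add_sub_cancel_right ENNReal.ofReal_ne_top]

theorem Good.kap_le (h : Good z) (l : ℕ) : kap z l ≤ (z ^ 3) ^ l * (1 - z ^ 3)⁻¹ := by
  have h2 := h.pos.le
  have h3 := h.cube
  have h4 : (0 : ℝ) < 1 - z ^ 3 := by linarith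
  unfold kap
  rw [div_eq_mul_inv]
  gcongr
  calc z * (z ^ 3) ^ (l + 1) ≤ 1 * (z ^ 3) ^ l := by
        apply mul_le_mul h.lt.le _ (by positivity) (by norm_num)
        exact pow_le_pow_of_le_one (by positivity) h3.le (by omega)
    _ = _ := one_mul _

theorem Good.summable_Vr (h : Good z) : Summable (Vr z) := by
  have h1 := h.ep_pos
  have h2 := h.pos.le
  have h3 := h.cube
  have h4 : (0 : ℝ) < 1 - z ^ 3 := by linarith
  have hs : Summable (fun l : ℕ => (z ^ 3) ^ l * ((1 - z ^ 3)⁻¹ * (2 / (ep z * ep z)))) :=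
    (summable_geometric_of_lt_one (by positivity) h3).mul_right _
  refine Summable.of_nonneg_of_le (h.Vr_nonneg) (fun l => ?_) hs
  rw [h.Vr_eq]
  have h5 := h.kap_pos l
  have h6 := h.kap_le l
  calc 2 * kap z l / (ep z * (ep z + kap z l)) ≤ 2 * kap z l / (ep z * ep z) := by
        gcongr
        linarith
    _ = kap z l * (2 / (ep z * ep z)) := by ring
    _ ≤ ((z ^ 3) ^ l * (1 - z ^ 3)⁻¹) * (2 / (ep z * ep z)) := by gcongr
    _ = _ := by ring

noncomputable def YL (z : ℝ) : ℝ := ∑' l, Vr z l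

theorem Good.YL_eq (h : Good z) :
    ∑' t, (ENNReal.ofReal z) ^ cT t * (lam t : ℝ≥0∞) = ENNReal.ofReal (YL z) := by
  rw [sum_lam_eq, YL, ENNReal.ofReal_tsum_of_nonneg h.Vr_nonneg h.summable_Vr]
  congr 1
  ext l
  exact h.V_eq l

theorem Good.YL_nonneg (h : Good z) : 0 ≤ YL z := tsum_nonneg h.Vr_nonneg

noncomputable def Sz (z : ℝ) : ℝ := (∑' g : GG, (ENNReal.ofReal z) ^ len g).toReal

noncomputable def Wr (z : ℝ) : ℝ := 2 * (ep z)⁻¹ + phi z * (2 * (ep z)⁻¹) * (ep z)⁻¹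

theorem Good.phi_nonneg (h : Good z) : 0 ≤ phi z := by
  have h2 := h.pos.le
  have h3 := h.cube
  have h4 : (0 : ℝ) < 1 - z ^ 3 := by linarith
  unfold phi
  positivity

theorem Good.Wr_eq (h : Good z) : 2 * (1 - Uu (ENNReal.ofReal z))⁻¹ + Phi (ENNReal.ofReal z) *
    (2 * (1 - Uu (ENNReal.ofReal z))⁻¹) * (1 - Uu (ENNReal.ofReal z))⁻¹ = ENNReal.ofReal (Wr z) := by
  have h1 := h.ep_pos
  have h2 := h.phi_nonneg
  have e2 : (2 : ℝ≥0∞) = ENNReal.ofReal 2 := by simp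
  rw [h.invU, h.Phi_eq, e2, Wr, ← ENNReal.ofReal_mul (by norm_num),
    ← ENNReal.ofReal_mul (by positivity), ← ENNReal.ofReal_mul (by positivity),
    ← ENNReal.ofReal_add (by positivity) (by positivity)]

theorem Good.ofReal_le_one (h : Good z) : ENNReal.ofReal z ≤ 1 := by
  rw [ENNReal.ofReal_le_one]
  exact h.lt.le

theorem Good.upper_ENN (h : Good z) :
    ENNReal.ofReal z * ∑' g : GG, (ENNReal.ofReal z) ^ len g +
      (2 + ENNReal.ofReal z + 2 * (ENNReal.ofReal z) ^ 2) ≤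
    ENNReal.ofReal (Wr z + z * (4 * (1 - z)⁻¹) * (YL z + 2 * (ep z)⁻¹)) := by
  have h1 := h.ep_pos
  have h2 := h.pos.le
  have h3 := h.YL_nonneg
  have h4 : 0 < 1 - z := by linarith [h.lt]
  have h5 : 0 ≤ Wr z := by
    have := h.phi_nonneg
    unfold Wr
    positivity
  refine (group_upper h.ofReal_le_one).trans (le_of_eq ?_)
  have e2 : (2 : ℝ≥0∞) = ENNReal.ofReal 2 := by simp
  have e4 : (4 : ℝ≥0∞) = ENNReal.ofReal 4 := by simp
  rw [h.Wr_eq, h.YL_eq, h.invU, inv_one_sub_ofReal h2 h.lt, e2, e4,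
    ← ENNReal.ofReal_mul (by norm_num), ← ENNReal.ofReal_mul (by positivity),
    ← ENNReal.ofReal_mul (by norm_num), ← ENNReal.ofReal_add h3 (by positivity),
    ← ENNReal.ofReal_mul (by positivity), ← ENNReal.ofReal_add h5 (by positivity)]

theorem Good.S_ne_top (h : Good z) : ∑' g : GG, (ENNReal.ofReal z) ^ len g ≠ ⊤ := by
  intro htop
  have := h.upper_ENN
  rw [htop] at this
  have hz : ENNReal.ofReal z ≠ 0 := by
    simp only [ne_eq, ENNReal.ofReal_eq_zero, not_le]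
    exact h.pos
  rw [ENNReal.mul_top hz, top_add] at this
  exact ENNReal.ofReal_ne_top (top_le_iff.mp this)

theorem Good.S_eq (h : Good z) : ∑' g : GG, (ENNReal.ofReal z) ^ len g = ENNReal.ofReal (Sz z) := by
  rw [Sz, ENNReal.ofReal_toReal h.S_ne_top]

theorem Sz_nonneg : 0 ≤ Sz z := ENNReal.toReal_nonneg

theorem Good.lhs_eq (h : Good z) : ENNReal.ofReal z * ∑' g : GG, (ENNReal.ofReal z) ^ len g +
      (2 + ENNReal.ofReal z + 2 * (ENNReal.ofReal z) ^ 2) =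
      ENNReal.ofReal (z * Sz z + (2 + z + 2 * z ^ 2)) := by
  have h2 := h.pos.le
  have h3 := Sz_nonneg (z := z)
  have e2 : (2 : ℝ≥0∞) = ENNReal.ofReal 2 := by simp
  rw [ENNReal.ofReal_add (by positivity) (by positivity), ENNReal.ofReal_mul h2,
    ENNReal.ofReal_add (by positivity) (by positivity),
    ENNReal.ofReal_add (by positivity) (by positivity),
    ENNReal.ofReal_mul (by positivity), ENNReal.ofReal_pow h2, h.S_eq, ← e2]

theorem Good.upper (h : Good z) :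
    z * Sz z + (2 + z + 2 * z ^ 2) ≤ Wr z + z * (4 * (1 - z)⁻¹) * (YL z + 2 * (ep z)⁻¹) := by
  have h1 := h.ep_pos
  have h2 := h.pos.le
  have h3 := h.YL_nonneg
  have h4 : 0 < 1 - z := by linarith [h.lt]
  have h5 : 0 ≤ Wr z := by
    have := h.phi_nonneg
    unfold Wr
    positivity
  have := h.upper_ENN
  rw [h.lhs_eq, ENNReal.ofReal_le_ofReal_iff (by positivity)] at this
  exact this

theorem Good.lower (h : Good z) :
    Wr z + z ^ 2 * (YL z / 2) ≤ z * Sz z + (2 + z + 2 * z ^ 2) := by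
  have h1 := h.ep_pos
  have h2 := h.pos.le
  have h3 := h.YL_nonneg
  have hS := Sz_nonneg (z := z)
  have h5 : 0 ≤ Wr z := by
    have := h.phi_nonneg
    unfold Wr
    positivity
  have h6 := group_lower h.ofReal_le_one
  have h7 := sum_lam_le (ENNReal.ofReal z)
  rw [h.YL_eq] at h7
  have e2 : (2 : ℝ≥0∞) = ENNReal.ofReal 2 := by simp
  have h8 : ENNReal.ofReal (YL z / 2) ≤ ∑' t, (ENNReal.ofReal z) ^ cT t * (lamU t : ℝ≥0∞) := by
    rw [ENNReal.ofReal_div_of_pos (by norm_num), ← e2]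
    exact ENNReal.div_le_of_le_mul' h7
  rw [h.Wr_eq, h.lhs_eq] at h6
  have h9 : ENNReal.ofReal (Wr z + z ^ 2 * (YL z / 2)) ≤
      ENNReal.ofReal (z * Sz z + (2 + z + 2 * z ^ 2)) := by
    refine le_trans ?_ h6
    rw [ENNReal.ofReal_add h5 (by positivity), ENNReal.ofReal_mul (by positivity),
      ENNReal.ofReal_pow h2]
    gcongr
  rwa [ENNReal.ofReal_le_ofReal_iff (by positivity)] at h9

end Pool.Agent.R635.OR
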