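import Mathlib

/-!
# States for the group `⟨x, v | (v x⁻¹)⁴ = x²⟩`

Modulo its centre this group is `ℤ/2 * ℤ/4`.  The elements of the quotient are coded by runs.
-/

set_option autoImplicit false

namespace Pool.Agent.R635.OR

inductive Pre : Type
  | bot (a : Bool) : Pre
  | cons (q : Bool) (m : ℕ) (t : Pre) : Pre

open Pre

def spin : Pre → Bool
  | bot a => a
  | cons q _ _ => q

@[simp] theorem spin_bot (a : Bool) : spin (bot a) = a := rfl

@[simp] theorem spin_cons (q : Bool) (m : ℕ) (t : Pre) : spin (cons q m t) = q := rfl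

def nrm : Pre → Pre
  | cons true 0 (bot a) => cons false 0 (bot (!a))
  | bot a => bot a
  | cons false m t => cons false m t
  | cons true (m+1) t => cons true (m+1) t
  | cons true 0 (cons q m t) => cons true 0 (cons q m t)

def X : Pre → Pre
  | bot a => bot a
  | cons q m t => nrm (cons (!q) m t)

def V : Pre → Pre
  | bot a => bot a
  | cons false m t => cons false 0 (cons false m t)
  | cons true (m+1) t => cons false 0 (cons true m t)
  | cons true 0 (cons false m t) => cons false (m+1) t
  | cons true 0 (cons true m t) => nrm (cons true m t)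
  | cons true 0 (bot a) => bot a

def Vi : Pre → Pre
  | bot a => bot a
  | cons true m t => cons true 0 (cons true m t)
  | cons false (m+1) t => cons true 0 (cons false m t)
  | cons false 0 (cons true m t) => cons true (m+1) t
  | cons false 0 (cons false m t) => cons false m t
  | cons false 0 (bot a) => cons true 0 (cons true 0 (bot (!a)))

/-- valid states -/
def Val : Pre → Prop
  | bot _ => False
  | cons true 0 (bot _) => False
  | cons false _ _ => True
  | cons true (_+1) _ => True
  | cons true 0 (cons _ _ _) => True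

theorem val_nrm (q : Bool) (m : ℕ) (t : Pre) : Val (nrm (cons q m t)) := by
  rcases q with _ | _
  · rcases m with _ | m <;> rcases t with a | ⟨q', m', t'⟩ <;> simp [nrm, Val]
  · rcases m with _ | m <;> rcases t with a | ⟨q', m', t'⟩ <;> simp [nrm, Val]

theorem nrm_of_val {s : Pre} (h : Val s) : nrm s = s := by
  rcases s with a | ⟨q, m, t⟩
  · rfl
  · rcases q with _ | _ <;> rcases m with _ | m <;> rcases t with a | ⟨q', m', t'⟩ <;>
      simp_all [nrm, Val]

theorem val_X {s : Pre} (h : Val s) : Val (X s) := by
  rcases s with a | ⟨q, m, t⟩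
  · exact h
  · exact val_nrm _ _ _

theorem val_V {s : Pre} (h : Val s) : Val (V s) := by
  rcases s with a | ⟨q, m, t⟩
  · exact h
  · rcases q with _ | _ <;> rcases m with _ | m <;> rcases t with a | ⟨q', m', t'⟩
    all_goals first
      | exact h
      | trivial
      | skip
    · rcases q' with _ | _
      · trivial
      · exact val_nrm _ _ _

theorem val_Vi {s : Pre} (h : Val s) : Val (Vi s) := by
  rcases s with a | ⟨q, m, t⟩
  · exact h
  · rcases q with _ | _ <;> rcases m with _ | m <;> rcases t with a | ⟨q', m', t'⟩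
    all_goals first
      | exact h
      | trivial
      | skip
    · rcases q' with _ | _
      · trivial
      · trivial

theorem X_nrm (q : Bool) (m : ℕ) (t : Pre) : X (nrm (cons q m t)) = nrm (cons (!q) m t) := by
  rcases q with _ | _ <;> rcases m with _ | m <;> rcases t with a | ⟨q', m', t'⟩ <;>
    simp [nrm, X]

theorem V_nrm_false (m : ℕ) (t : Pre) :
    V (nrm (cons false m t)) = cons false 0 (cons false m t) := by
  simp [nrm, V]

theorem Vi_nrm_true (m : ℕ) (t : Pre) :
    Vi (nrm (cons true m t)) = cons true 0 (cons true m t) := by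
  rcases m with _ | m <;> rcases t with a | ⟨q', m', t'⟩ <;> simp [nrm, Vi]

theorem X_X {s : Pre} (h : Val s) : X (X s) = s := by
  rcases s with a | ⟨q, m, t⟩
  · rfl
  · show X (nrm (cons (!q) m t)) = _
    rw [X_nrm, Bool.not_not, nrm_of_val h]

theorem Vi_V {s : Pre} (h : Val s) : Vi (V s) = s := by
  rcases s with a | ⟨q, m, t⟩
  · rfl
  · rcases q with _ | _
    · rcases m with _ | m <;> rfl
    · rcases m with _ | m
      · rcases t with a | ⟨q', m', t'⟩
        · exact absurd h (by simp [Val])
        · rcases q' with _ | _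
          · rfl
          · show Vi (nrm (cons true m' t')) = _
            rw [Vi_nrm_true]
      · rfl

theorem V_Vi {s : Pre} (h : Val s) : V (Vi s) = s := by
  rcases s with a | ⟨q, m, t⟩
  · rfl
  · rcases q with _ | _
    · rcases m with _ | m
      · rcases t with a | ⟨q', m', t'⟩
        · simp [Vi, V, nrm]
        · rcases q' with _ | _ <;> rfl
      · rfl
    · show nrm (cons true m t) = _
      exact nrm_of_val h

def Y (s : Pre) : Pre := V (X s)

theorem Y_true (m : ℕ) (t : Pre) : Y (nrm (cons true m t)) = cons false 0 (cons false m t) := by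
  unfold Y
  rw [X_nrm]
  simp [nrm, V]

theorem Y_ff (m : ℕ) (t : Pre) : Y (cons false 0 (cons false m t)) = cons false (m+1) t := by
  simp [Y, X, nrm, V]

theorem Y_fs (m : ℕ) (t : Pre) : Y (cons false (m+1) t) = cons false 0 (cons true m t) := by
  simp [Y, X, nrm, V]

theorem Y_ft (m : ℕ) (t : Pre) : Y (cons false 0 (cons true m t)) = nrm (cons true m t) := by
  simp [Y, X, nrm, V]

theorem Y4 {s : Pre} (h : Val s) : Y (Y (Y (Y s))) = s := by
  rcases s with a | ⟨q, m, t⟩
  · rfl
  · rcases q with _ | _
    · rcases m with _ | m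
      · rcases t with a | ⟨q', m', t'⟩
        · have e : (cons false 0 (bot a)) = nrm (cons true 0 (bot (!a))) := by simp [nrm]
          rw [e, Y_true, Y_ff, Y_fs, Y_ft]
        · rcases q' with _ | _
          · rw [Y_ff, Y_fs, Y_ft, Y_true]
          · rw [Y_ft, Y_true, Y_ff, Y_fs]
      · rw [Y_fs, Y_ft, Y_true, Y_ff]
    · rw [← nrm_of_val h, Y_true, Y_ff, Y_fs, Y_ft]

/-! ### cost functions -/

def dl (p q : Bool) : ℕ := if p = q then 0 else 1

/-- cost of a tail, including the pinned syllable on its top -/
def cT : Pre → ℕ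
  | bot _ => 0
  | cons q m t => cT t + 1 + 3 * m + dl (spin t) q

/-- length of the element of the quotient -/
def N : Pre → ℕ
  | bot _ => 0
  | cons q m t => cT t + 3 * m + dl (spin t) q

def fl (p q : Bool) (m : ℕ) : ℕ := if p = q then m else 4 * m + 1

def flT : Pre → ℕ
  | bot _ => 0
  | cons q m t => flT t + fl (spin t) q m

/-- signed weights: `s = true` is the upper side, `s = false` the lower side.  `l` is a cut-off. -/
def hh (l : ℕ) (p q : Bool) (m : ℕ) : ℤ :=
  if p = q then (if p then -4 * (m : ℤ) + 12 * ((m - l : ℕ) : ℤ) else 8 * (m : ℤ)) else 8 * (m : ℤ) + 2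

def pin (q : Bool) : ℤ := if q then -3 else 3

def AT (s : Bool) (l : ℕ) : Pre → ℤ
  | bot _ => 0
  | cons q m t => AT s l t + hh l (xor s (spin t)) (xor s q) m + pin (xor s q)

def A (s : Bool) (l : ℕ) : Pre → ℤ
  | bot _ => 0
  | cons q m t => AT s l t + hh l (xor s (spin t)) (xor s q) m

def sg (s : Bool) : ℤ := if s then -1 else 1

theorem N_nrm (q : Bool) (m : ℕ) (t : Pre) : N (nrm (cons q m t)) = N (cons q m t) := by
  rcases q with _ | _ <;> rcases m with _ | m <;> rcases t with a | ⟨q', m', t'⟩ <;>
    simp [nrm, N, dl, cT]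

theorem A_nrm (s : Bool) (l : ℕ) (q : Bool) (m : ℕ) (t : Pre) :
    A s l (nrm (cons q m t)) = A s l (cons q m t) := by
  rcases q with _ | _ <;> rcases m with _ | m <;> rcases t with a | ⟨q', m', t'⟩ <;>
    simp [nrm, A, hh, AT]

/-- the potential -/
def Pot (s : Bool) (l : ℕ) (u : Pre) (n : ℕ) : ℤ := A s l u + (6 * l + 6) * ((n : ℤ) - N u)

theorem N_X {s : Pre} (h : Val s) : N (X s) ≤ N s + 1 := by
  rcases s with a | ⟨q, m, t⟩
  · simp [X]
  · show N (nrm _) ≤ _
    rw [N_nrm]
    simp only [N, dl]
    split_ifs <;> omega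

theorem N_V {s : Pre} (h : Val s) : N (V s) ≤ N s + 1 := by
  rcases s with a | ⟨q, m, t⟩
  · simp [V]
  · rcases q with _ | _
    · simp [V, N, dl, cT]
      omega
    · rcases m with _ | m
      · rcases t with a | ⟨q', m', t'⟩
        · exact absurd h (by simp [Val])
        · rcases q' with _ | _
          · simp [V, N, dl, cT]
            omega
          · simp [V, N_nrm]
            simp [N, dl, cT]
            omega
      · simp [V, N, dl, cT]
        omega

theorem N_Vi {s : Pre} (h : Val s) : N (Vi s) ≤ N s + 1 := by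
  rcases s with a | ⟨q, m, t⟩
  · simp [Vi]
  · rcases q with _ | _
    · rcases m with _ | m
      · rcases t with a | ⟨q', m', t'⟩
        · rcases a with _ | _ <;> simp [Vi, N, dl, cT]
        · rcases q' with _ | _
          · simp [Vi, N, dl, cT]
            omega
          · simp [Vi, N, dl, cT]
            omega
      · simp [Vi, N, dl, cT]
        omega
    · simp [Vi, N, dl, cT]
      omega

/-! ### the potential inequalities -/

theorem pot_step {s : Bool} {l : ℕ} {u u' : Pre} {n : ℕ} {b : ℤ}
    (h : A s l u + b ≤ A s l u' + (6 * l + 6) * (1 + (N u : ℤ) - N u')) :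
    Pot s l u n + b ≤ Pot s l u' (n + 1) := by
  unfold Pot
  push_cast
  nlinarith [h]

theorem A_X {s : Bool} {l : ℕ} {u : Pre} (h : Val u) :
    A s l u + 2 ≤ A s l (X u) + (6 * l + 6) * (1 + (N u : ℤ) - N (X u)) := by
  rcases u with a | ⟨q, m, t⟩
  · exact absurd h (by simp [Val])
  · show _ ≤ A s l (nrm _) + _ * (1 + _ - (N (nrm _) : ℤ))
    rw [A_nrm, N_nrm]
    rcases hp : spin t with _ | _ <;> rcases q with _ | _ <;> rcases s with _ | _ <;>
      simp [A, N, hh, dl, hp] <;> ring_nf <;> omega


theorem A_V {s : Bool} {l : ℕ} {u : Pre} (h : Val u) :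
    A s l u + sg s * 3 ≤ A s l (V u) + (6 * l + 6) * (1 + (N u : ℤ) - N (V u)) := by
  rcases u with a | ⟨q, m, t⟩
  · exact absurd h (by simp [Val])
  · rcases q with _ | _
    · rcases hp : spin t with _ | _ <;> rcases s with _ | _ <;>
        simp [V, A, AT, N, cT, hh, dl, hp, pin, sg] <;> ring_nf <;> omega
    · rcases m with _ | m
      · rcases t with a | ⟨q', m', t'⟩
        · exact absurd h (by simp [Val])
        · rcases q' with _ | _
          · rcases hp : spin t' with _ | _ <;> rcases s with _ | _ <;>
              simp [V, A, AT, N, cT, hh, dl, hp, pin, sg] <;> ring_nf <;> omega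
          · rcases hp : spin t' with _ | _ <;> rcases s with _ | _ <;>
              simp [V, A_nrm, N_nrm] <;>
              simp [V, A, AT, N, cT, hh, dl, hp, pin, sg] <;> ring_nf <;> omega
      · rcases hp : spin t with _ | _ <;> rcases s with _ | _ <;>
          simp [V, A, AT, N, cT, hh, dl, hp, pin, sg] <;> ring_nf <;> omega

theorem A_Vi {s : Bool} {l : ℕ} {u : Pre} (h : Val u) :
    A s l u - sg s * 3 ≤ A s l (Vi u) + (6 * l + 6) * (1 + (N u : ℤ) - N (Vi u)) := by
  rcases u with a | ⟨q, m, t⟩
  · exact absurd h (by simp [Val])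
  · rcases q with _ | _
    · rcases m with _ | m
      · rcases t with a | ⟨q', m', t'⟩
        · rcases a with _ | _ <;> rcases s with _ | _ <;>
            simp [Vi, A, AT, N, cT, hh, dl, pin, sg]
        · rcases q' with _ | _
          · rcases hp : spin t' with _ | _ <;> rcases s with _ | _ <;>
              simp [Vi, A, AT, N, cT, hh, dl, hp, pin, sg] <;> ring_nf <;> omega
          · rcases hp : spin t' with _ | _ <;> rcases s with _ | _ <;>
              simp [Vi, A, AT, N, cT, hh, dl, hp, pin, sg] <;> ring_nf <;> omega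
      · rcases hp : spin t with _ | _ <;> rcases s with _ | _ <;>
          simp [Vi, A, AT, N, cT, hh, dl, hp, pin, sg] <;> ring_nf <;> omega
    · rcases hp : spin t with _ | _ <;> rcases s with _ | _ <;>
        simp [Vi, A, AT, N, cT, hh, dl, hp, pin, sg] <;> ring_nf <;> omega

end Pool.Agent.R635.OR
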