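import Pool.Agent.R635.ThreeDim

set_option autoImplicit false

namespace Pool.Agent.R635.ThreeDim

noncomputable section

open Finset

universe u

theorem lift_eq_sum {K : Type u} [Field K] {A : Type u} [NonUnitalNonAssocRing A] [Module K A]
    [IsScalarTower K A A] [SMulCommClass K A A] (v : ℕ → A)
    (f : FreeNonUnitalNonAssocAlgebra K ℕ) :
    FreeNonUnitalNonAssocAlgebra.lift K v f =
      ∑ W ∈ f.coeff.support, f.coeff W • FreeMagma.lift v W := rfl

section Transfer

open MvPolynomial

variable {K : Type u} [Field K] {n : ℕ}

theorem map_lift {A B : Type u} [NonUnitalNonAssocRing A] [Module K A]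
    [IsScalarTower K A A] [SMulCommClass K A A] [NonUnitalNonAssocRing B] [Module K B]
    [IsScalarTower K B B] [SMulCommClass K B B] (φ : A →ₙₐ[K] B) (v : ℕ → A)
    (f : FreeNonUnitalNonAssocAlgebra K ℕ) :
    φ (FreeNonUnitalNonAssocAlgebra.lift K v f) =
      FreeNonUnitalNonAssocAlgebra.lift K (fun i => φ (v i)) f := by
  have h : φ.comp (FreeNonUnitalNonAssocAlgebra.lift K v) =
      FreeNonUnitalNonAssocAlgebra.lift K (fun i => φ (v i)) := by
    apply FreeNonUnitalNonAssocAlgebra.hom_ext
    intro i
    simp
  exact congrArg (fun g => g f) h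

theorem identity_poly [Infinite K] {f : FreeNonUnitalNonAssocAlgebra K ℕ}
    (hid : IsIdentity K (Q3 K) f) (r : ℕ → Q3 (MvPolynomial (Fin n) K)) :
    FreeNonUnitalNonAssocAlgebra.lift K r f = 0 := by
  have key : ∀ s : Fin n → K,
      Q3.map (MvPolynomial.aeval s : MvPolynomial (Fin n) K →ₐ[K] K)
        (FreeNonUnitalNonAssocAlgebra.lift K r f) = 0 := by
    intro s
    rw [map_lift]
    exact hid _
  apply Q3.ext'
  · apply MvPolynomial.funext
    intro s
    have := congrArg Q3.pa (key s)
    simpa [Q3.map, MvPolynomial.aeval_eq_eval] using this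
  · apply MvPolynomial.funext
    intro s
    have := congrArg Q3.px (key s)
    simpa [Q3.map, MvPolynomial.aeval_eq_eval] using this
  · apply MvPolynomial.funext
    intro s
    have := congrArg Q3.pz (key s)
    simpa [Q3.map, MvPolynomial.aeval_eq_eval] using this

theorem sum_xw [Infinite K] {f : FreeNonUnitalNonAssocAlgebra K ℕ}
    (hid : IsIdentity K (Q3 K) f) (α y : ℕ → MvPolynomial (Fin n) K) :
    ∑ W ∈ f.coeff.support, f.coeff W • xw α y W = 0 := by
  have h := congrArg (Q3.lx K) (identity_poly hid (fun i => Q3.mk (α i) (y i) 0))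
  rw [lift_eq_sum, map_sum, map_zero] at h
  rw [← h]
  refine Finset.sum_congr rfl fun W _ => ?_
  rw [lift_Q3, map_smul]
  rfl

theorem sum_qw [Infinite K] {f : FreeNonUnitalNonAssocAlgebra K ℕ}
    (hid : IsIdentity K (Q3 K) f) (α y : ℕ → MvPolynomial (Fin n) K) :
    ∑ W ∈ f.coeff.support, f.coeff W • qw α y y W = 0 := by
  have h := congrArg (Q3.lz K) (identity_poly hid (fun i => Q3.mk (α i) (y i) 0))
  rw [lift_eq_sum, map_sum, map_zero] at h
  rw [← h]
  refine Finset.sum_congr rfl fun W _ => ?_
  rw [lift_Q3, map_smul]
  rfl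

theorem coeff_of {f : FreeNonUnitalNonAssocAlgebra K ℕ}
    (hid : IsIdentity K (Q3 K) f) (i : ℕ) : f.coeff (.of i) = 0 := by
  have h := congrArg (Q3.la K) (hid (fun j => Q3.mk (dl i j) 0 0))
  rw [lift_eq_sum, map_sum, map_zero] at h
  by_contra hne
  rw [Finset.sum_eq_single (FreeMagma.of i)] at h
  · rw [map_smul] at h
    have e : Q3.la K (FreeMagma.lift (fun j => Q3.mk (dl i j : K) 0 0) (FreeMagma.of i)) = 1 := by
      simp [Q3.la, dl]
    rw [e] at h
    simp at h
    exact hne h
  · intro W _ hW
    rw [map_smul]
    have e : Q3.la K (FreeMagma.lift (fun j => Q3.mk (dl i j : K) 0 0) W) = 0 := by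
      have := lift_Q3 (dl i : ℕ → K) (fun _ => 0) W
      rw [this]
      change aw (dl i) W = 0
      cases W with
      | of j =>
        rw [aw_of, dl, if_neg]
        rintro rfl
        exact hW rfl
      | mul U V => rfl
    rw [e, smul_zero]
  · intro h'
    exact absurd (Finsupp.mem_support_iff.2 hne) h'

theorem xw_add (α y y' : ℕ → MvPolynomial (Fin n) K) (W : FreeMagma ℕ) :
    xw α (fun i => y i + y' i) W = xw α y W + xw α y' W := by
  induction W using FreeMagma.recOnMul with
  | ih1 i => rfl
  | ih2 U V hU hV => simp only [xw_mul, hU, hV]; ring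

theorem qw_add (α y y' : ℕ → MvPolynomial (Fin n) K) (W : FreeMagma ℕ) :
    qw α (fun i => y i + y' i) (fun i => y i + y' i) W =
      qw α y y W + qw α y y' W + (qw α y' y W + qw α y' y' W) := by
  induction W using FreeMagma.recOnMul with
  | ih1 i => simp
  | ih2 U V _ _ => simp only [qw_mul, xw_add]; ring

theorem bf_swap (w w' : Fin n → MvPolynomial (Fin n) K) :
    bf w w' + bf w' w + ∑ k, w k * w' k = sg w * sg w' := by
  have e1 : bf w' w = ∑ k, ∑ l, if l < k then w k * w' l else 0 := by
    unfold bf
    rw [Finset.sum_comm]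
    refine Finset.sum_congr rfl fun k _ => ?_
    refine Finset.sum_congr rfl fun l _ => ?_
    split_ifs
    · ring
    · rfl
  have e2 : ∑ k, w k * w' k = ∑ k, ∑ l, if k = l then w k * w' l else 0 := by
    refine Finset.sum_congr rfl fun k _ => ?_
    simp
  rw [e1, e2]
  unfold bf sg
  rw [Finset.sum_mul_sum, ← Finset.sum_add_distrib, ← Finset.sum_add_distrib]
  refine Finset.sum_congr rfl fun k _ => ?_
  rw [← Finset.sum_add_distrib, ← Finset.sum_add_distrib]
  refine Finset.sum_congr rfl fun l _ => ?_
  rcases lt_trichotomy k l with h | h | h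
  · simp [h, h.ne, h.not_gt]
  · simp [h]
  · simp [h, h.ne', h.not_gt]

theorem main_lemma [Infinite K] [CharP K 2] {f : FreeNonUnitalNonAssocAlgebra K ℕ}
    (hid : IsIdentity K (Q3 K) f) (hf : ∀ W ∈ f.coeff.support, W.length < n)
    (v : ℕ → B0 K n) (hv : ∀ i, (∀ k, X k ∣ (v i).vec k) ∧ (sg (v i).vec).IsHomogeneous 1) :
    FreeNonUnitalNonAssocAlgebra.lift K v f = 0 := by
  set α : ℕ → MvPolynomial (Fin n) K := fun i => sg (v i).vec with hα
  have hα1 : ∀ i, (α i).IsHomogeneous 1 := fun i => (hv i).2
  apply B0.ext'
  · funext k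
    have h1 : (FreeNonUnitalNonAssocAlgebra.lift K v f).vec k =
        B0.lv k (FreeNonUnitalNonAssocAlgebra.lift K v f) := rfl
    rw [h1, lift_eq_sum, map_sum]
    have h2 := sum_xw hid α (fun i => (v i).vec k)
    rw [B0.vec_zero, Pi.zero_apply, ← h2]
    refine Finset.sum_congr rfl fun W _ => ?_
    rw [map_smul]
    congr 1
    exact (lift_B0_vec v W).1 k
  · have h1 : (FreeNonUnitalNonAssocAlgebra.lift K v f).cen =
        B0.lc (FreeNonUnitalNonAssocAlgebra.lift K v f) := rfl
    rw [h1, lift_eq_sum, map_sum, B0.cen_zero]
    -- matrix of the identity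
    set M : ℕ → ℕ → MvPolynomial (Fin n) K := fun i j =>
      ∑ W ∈ f.coeff.support, f.coeff W • qw α (dl i) (dl j) W with hM
    set N : ℕ := f.coeff.support.sup vb with hN
    have hMsum : ∀ y y' : ℕ → MvPolynomial (Fin n) K,
        ∑ W ∈ f.coeff.support, f.coeff W • qw α y y' W =
          ∑ i ∈ range N, ∑ j ∈ range N, M i j * (y i * y' j) := by
      intro y y'
      have : ∀ W ∈ f.coeff.support, f.coeff W • qw α y y' W =
          ∑ i ∈ range N, ∑ j ∈ range N,
            (f.coeff W • qw α (dl i) (dl j) W) * (y i * y' j) := by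
        intro W hW
        rw [qw_eq_sum α y y' N W (Finset.le_sup hW), Finset.smul_sum]
        refine Finset.sum_congr rfl fun i _ => ?_
        rw [Finset.smul_sum]
        refine Finset.sum_congr rfl fun j _ => ?_
        rw [smul_mul_assoc]
      rw [Finset.sum_congr rfl this, Finset.sum_comm]
      refine Finset.sum_congr rfl fun i _ => ?_
      rw [Finset.sum_comm]
      refine Finset.sum_congr rfl fun j _ => ?_
      rw [hM, Finset.sum_mul]
    have hMii : ∀ i, M i i = 0 := fun i => sum_qw hid α (dl i)
    have hMij : ∀ i j, M i j + M j i = 0 := by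
      intro i j
      have h := sum_qw hid α (fun k => dl i k + dl j k)
      have h2 : ∑ W ∈ f.coeff.support, f.coeff W •
          qw α (fun k => dl i k + dl j k) (fun k => dl i k + dl j k) W =
          M i i + M i j + (M j i + M j j) := by
        rw [hM]
        simp only
        rw [← Finset.sum_add_distrib, ← Finset.sum_add_distrib, ← Finset.sum_add_distrib]
        refine Finset.sum_congr rfl fun W _ => ?_
        rw [qw_add, smul_add, smul_add, smul_add]
      rw [h2, hMii, hMii, zero_add, add_zero] at h
      exact h
    have hsym : ∀ i j, M i j = M j i := by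
      intro i j
      have h := hMij i j
      have h2 : M j i + M j i = 0 := CharTwo.add_self_eq_zero _
      exact add_right_cancel (h.trans h2.symm)
    -- the strictly upper part
    set T : ℕ → ℕ → MvPolynomial (Fin n) K := fun i j => if i < j then M i j else 0 with hT
    have hMT : ∀ i j, M i j = T i j + T j i := by
      intro i j
      rcases lt_trichotomy i j with h | h | h
      · simp [hT, h, h.not_gt]
      · subst h; simp [hT, hMii]
      · simp only [hT, if_neg h.not_gt, if_pos h, zero_add]
        exact hsym i j
    have htau : ∀ i j, tau K n (T i j * (bf (v i).vec (v j).vec + bf (v j).vec (v i).vec)) = 0 := by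
      intro i j
      by_cases hij : i < j
      swap
      · simp [hT, hij]
      have e : T i j = M i j := by simp [hT, hij]
      have e3 : bf (v i).vec (v j).vec + bf (v j).vec (v i).vec =
          α i * α j - ∑ k, (v i).vec k * (v j).vec k := by
        rw [eq_sub_iff_add_eq]
        exact bf_swap _ _
      rw [e, e3, mul_sub, map_sub, Finset.mul_sum, map_sum]
      have z1 : tau K n (M i j * (α i * α j)) = 0 := by
        rw [hM]
        simp only
        rw [Finset.sum_mul, map_sum]
        apply Finset.sum_eq_zero
        intro W hW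
        rw [smul_mul_assoc, map_smul,
          tau_eq_zero_of_homogeneous (qw_hom α hα1 i j W) (hf W hW).ne, smul_zero]
      have z2 : ∀ k, tau K n (M i j * ((v i).vec k * (v j).vec k)) = 0 := by
        intro k
        apply tau_sq k
        exact Dvd.dvd.mul_left (mul_dvd_mul ((hv i).1 k) ((hv j).1 k)) _
      rw [z1, Finset.sum_eq_zero (fun k _ => z2 k), sub_zero]
    have step1 : ∑ W ∈ f.coeff.support, B0.lc (f.coeff W • FreeMagma.lift v W) =
        tau K n (∑ k, ∑ l, if k < l then
          ∑ W ∈ f.coeff.support, f.coeff W •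
            qw α (fun i => (v i).vec k) (fun i => (v i).vec l) W else 0) := by
      have : ∀ W ∈ f.coeff.support, B0.lc (f.coeff W • FreeMagma.lift v W) =
          tau K n (∑ k, ∑ l, if k < l then
            f.coeff W • qw α (fun i => (v i).vec k) (fun i => (v i).vec l) W else 0) := by
        intro W _
        rw [map_smul]
        have h2 : B0.lc (FreeMagma.lift v W) = (FreeMagma.lift v W).cen := rfl
        rw [h2, lift_B0_cen, smul_add]
        have h3 : f.coeff W • cz v W = 0 := by
          cases W with
          | of i => rw [coeff_of hid i, zero_smul]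
          | mul U V => exact smul_zero _
        rw [h3, zero_add, ← map_smul, Finset.smul_sum]
        congr 1
        refine Finset.sum_congr rfl fun k _ => ?_
        rw [Finset.smul_sum]
        refine Finset.sum_congr rfl fun l _ => ?_
        split_ifs
        · rfl
        · exact smul_zero _
      rw [Finset.sum_congr rfl this, ← map_sum, Finset.sum_comm]
      congr 1
      refine Finset.sum_congr rfl fun k _ => ?_
      rw [Finset.sum_comm]
      refine Finset.sum_congr rfl fun l _ => ?_
      split_ifs
      · rfl
      · simp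
    rw [step1]
    have step2 : (∑ k, ∑ l, if k < l then
          ∑ W ∈ f.coeff.support, f.coeff W •
            qw α (fun i => (v i).vec k) (fun i => (v i).vec l) W else 0) =
        ∑ i ∈ range N, ∑ j ∈ range N, M i j * bf (v i).vec (v j).vec := by
      have : ∀ k l : Fin n, (if k < l then
          ∑ W ∈ f.coeff.support, f.coeff W •
            qw α (fun i => (v i).vec k) (fun i => (v i).vec l) W else 0) =
          ∑ i ∈ range N, ∑ j ∈ range N,
            M i j * (if k < l then (v i).vec k * (v j).vec l else 0) := by
        intro k l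
        split_ifs
        · exact hMsum _ _
        · simp
      simp only [this]
      calc _ = ∑ k, ∑ i ∈ range N, ∑ l, ∑ j ∈ range N,
            M i j * (if k < l then (v i).vec k * (v j).vec l else 0) := by
              refine Finset.sum_congr rfl fun k _ => ?_
              rw [Finset.sum_comm]
        _ = ∑ i ∈ range N, ∑ k, ∑ l, ∑ j ∈ range N,
            M i j * (if k < l then (v i).vec k * (v j).vec l else 0) := by
              rw [Finset.sum_comm]
        _ = ∑ i ∈ range N, ∑ k, ∑ j ∈ range N, ∑ l,
            M i j * (if k < l then (v i).vec k * (v j).vec l else 0) := by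
              refine Finset.sum_congr rfl fun i _ => ?_
              refine Finset.sum_congr rfl fun k _ => ?_
              rw [Finset.sum_comm]
        _ = ∑ i ∈ range N, ∑ j ∈ range N, ∑ k, ∑ l,
            M i j * (if k < l then (v i).vec k * (v j).vec l else 0) := by
              refine Finset.sum_congr rfl fun i _ => ?_
              rw [Finset.sum_comm]
        _ = _ := by
              refine Finset.sum_congr rfl fun i _ => ?_
              refine Finset.sum_congr rfl fun j _ => ?_
              unfold bf
              rw [Finset.mul_sum]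
              refine Finset.sum_congr rfl fun k _ => ?_
              rw [Finset.mul_sum]
    have step3 : ∑ i ∈ range N, ∑ j ∈ range N, M i j * bf (v i).vec (v j).vec =
        ∑ i ∈ range N, ∑ j ∈ range N,
          T i j * (bf (v i).vec (v j).vec + bf (v j).vec (v i).vec) := by
      have a1 : ∑ i ∈ range N, ∑ j ∈ range N, M i j * bf (v i).vec (v j).vec =
          ∑ i ∈ range N, ∑ j ∈ range N, T i j * bf (v i).vec (v j).vec +
          ∑ i ∈ range N, ∑ j ∈ range N, T j i * bf (v i).vec (v j).vec := by
        rw [← Finset.sum_add_distrib]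
        refine Finset.sum_congr rfl fun i _ => ?_
        rw [← Finset.sum_add_distrib]
        refine Finset.sum_congr rfl fun j _ => ?_
        rw [hMT i j, add_mul]
      have a2 : ∑ i ∈ range N, ∑ j ∈ range N, T j i * bf (v i).vec (v j).vec =
          ∑ i ∈ range N, ∑ j ∈ range N, T i j * bf (v j).vec (v i).vec := by
        rw [Finset.sum_comm]
      rw [a1, a2, ← Finset.sum_add_distrib]
      refine Finset.sum_congr rfl fun i _ => ?_
      rw [← Finset.sum_add_distrib]
      refine Finset.sum_congr rfl fun j _ => ?_
      rw [mul_add]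
    rw [step2, step3, map_sum]
    apply Finset.sum_eq_zero
    intro i _
    rw [map_sum]
    exact Finset.sum_eq_zero fun j _ => htau i j

end Transfer

end

end Pool.Agent.R635.ThreeDim
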